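import Pool.Agent.Helper57.TM1.Comb

/-!
Closed forms for the signed count and the self-dual count on products of chains,
products of a chain with the weight poset `Q`, and staircases.
-/

namespace Pool.Agent.Helper57.TM1

open Finset Classical

/-- order on pairs of positions; `m = 0` is the plain order, otherwise positions `m-1`, `m`
are incomparable in the second coordinate. -/
def leP (m : ℕ) (p q : ℕ × ℕ) : Prop :=
  q.1 ≤ p.1 ∧ p.2 ≤ q.2 ∧ ¬ (p.2 + 1 = m ∧ q.2 = m)

theorem leP_refl (m : ℕ) (p : ℕ × ℕ) : leP m p p := by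
  unfold leP; omega

theorem leP_trans (m : ℕ) (p q r : ℕ × ℕ) (h1 : leP m p q) (h2 : leP m q r) : leP m p r := by
  unfold leP at *; omega

/-- closed form for a grid -/
def ff (k l : ℕ) : ℕ := if k % 2 = 1 ∧ l % 2 = 1 then 0 else (k / 2 + l / 2).choose (k / 2)

theorem ff_ee (k l : ℕ) : ff (2 * k) (2 * l) = (k + l).choose k := by
  unfold ff; rw [if_neg (by omega)]; congr 1 <;> omega
theorem ff_eo (k l : ℕ) : ff (2 * k) (2 * l + 1) = (k + l).choose k := by
  unfold ff; rw [if_neg (by omega)]; congr 1 <;> omega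
theorem ff_oe (k l : ℕ) : ff (2 * k + 1) (2 * l) = (k + l).choose k := by
  unfold ff; rw [if_neg (by omega)]; congr 1 <;> omega
theorem ff_oo (k l : ℕ) : ff (2 * k + 1) (2 * l + 1) = 0 := by
  unfold ff; rw [if_pos (by omega)]
theorem ff_zero_left (l : ℕ) : ff 0 l = 1 := by
  unfold ff; rw [if_neg (by omega)]; simp
theorem ff_zero_right (k : ℕ) : ff k 0 = 1 := by
  unfold ff; rw [if_neg (by omega)]; simp

theorem ff_rec (k l : ℕ) :
    (ff (k + 1) (l + 1) : ℤ) = ff k (l + 1) + (-1) ^ (k + 1) * ff (k + 1) l := by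
  obtain ⟨k', hk | hk⟩ : ∃ k', k = 2 * k' ∨ k = 2 * k' + 1 := ⟨k / 2, by omega⟩ <;>
  obtain ⟨l', hl | hl⟩ : ∃ l', l = 2 * l' ∨ l = 2 * l' + 1 := ⟨l / 2, by omega⟩ <;>
  subst hk <;> subst hl
  · rw [ff_oo, ff_eo, ff_oe]
    rw [pow_succ, pow_mul]; norm_num
  · rw [show 2 * l' + 1 + 1 = 2 * (l' + 1) by ring, ff_oe, ff_ee, ff_oo]; simp
  · rw [show 2 * k' + 1 + 1 = 2 * (k' + 1) by ring, ff_eo, ff_oo, ff_ee]
    rw [pow_mul]; norm_num
  · rw [show 2 * k' + 1 + 1 = 2 * (k' + 1) by ring, show 2 * l' + 1 + 1 = 2 * (l' + 1) by ring,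
      ff_ee, ff_oe, ff_eo]
    rw [pow_mul, show k' + 1 + (l' + 1) = (k' + (l' + 1)) + 1 by ring, Nat.choose_succ_succ]
    push_cast
    rw [show k' + (l' + 1) = k' + 1 + l' by ring]
    norm_num

theorem ff_rec2 (k l : ℕ) :
    ff (k + 2) (l + 2) = ff k (l + 2) + ff (k + 2) l := by
  obtain ⟨k', hk | hk⟩ : ∃ k', k = 2 * k' ∨ k = 2 * k' + 1 := ⟨k / 2, by omega⟩ <;>
  obtain ⟨l', hl | hl⟩ : ∃ l', l = 2 * l' ∨ l = 2 * l' + 1 := ⟨l / 2, by omega⟩ <;>
  subst hk <;> subst hl
  · rw [show 2 * k' + 2 = 2 * (k' + 1) by ring, show 2 * l' + 2 = 2 * (l' + 1) by ring,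
      ff_ee, ff_ee, ff_ee, show k' + 1 + (l' + 1) = (k' + (l' + 1)) + 1 by ring,
      Nat.choose_succ_succ, show k' + (l' + 1) = k' + 1 + l' by ring]
  · rw [show 2 * k' + 2 = 2 * (k' + 1) by ring, show 2 * l' + 1 + 2 = 2 * (l' + 1) + 1 by ring,
      ff_eo, ff_eo, ff_eo, show k' + 1 + (l' + 1) = (k' + (l' + 1)) + 1 by ring,
      Nat.choose_succ_succ, show k' + (l' + 1) = k' + 1 + l' by ring]
  · rw [show 2 * k' + 1 + 2 = 2 * (k' + 1) + 1 by ring, show 2 * l' + 2 = 2 * (l' + 1) by ring,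
      ff_oe, ff_oe, ff_oe, show k' + 1 + (l' + 1) = (k' + (l' + 1)) + 1 by ring,
      Nat.choose_succ_succ, show k' + (l' + 1) = k' + 1 + l' by ring]
  · rw [show 2 * k' + 1 + 2 = 2 * (k' + 1) + 1 by ring,
      show 2 * l' + 1 + 2 = 2 * (l' + 1) + 1 by ring, ff_oo, ff_oo, ff_oo]

theorem ff_one_left (l : ℕ) : ff 1 (l + 2) = ff 1 l := by
  unfold ff
  simp

theorem ff_one_right (k : ℕ) : ff (k + 2) 1 = ff k 1 := by
  unfold ff
  simp

theorem grid_M (m : ℕ) : ∀ (N k l a b : ℕ), k + l ≤ N → ¬ (b < m ∧ m < b + l) →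
    Mm (leP m) (Ico a (a + k) ×ˢ Ico b (b + l)) = ff k l := by
  intro N
  induction N with
  | zero =>
    intro k l a b h hm
    obtain rfl : k = 0 := by omega
    simp [Mm_empty, ff_zero_left]
  | succ N ih =>
    intro k l a b h hm
    rcases k with _ | k
    · simp [Mm_empty, ff_zero_left]
    rcases l with _ | l
    · simp [Mm_empty, ff_zero_right]
    rw [Mm_rec (leP m) (leP_refl m) (leP_trans m) _ (a + k, b + l)
      (by simp only [mem_product, mem_Ico]; omega)]
    have h1 : (Ico a (a + (k + 1)) ×ˢ Ico b (b + (l + 1))).filter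
        (fun q => ¬ leP m q (a + k, b + l)) = Ico a (a + k) ×ˢ Ico b (b + (l + 1)) := by
      ext ⟨x, y⟩; simp only [mem_filter, mem_product, mem_Ico]; simp only [leP]; omega
    have h2 : (Ico a (a + (k + 1)) ×ˢ Ico b (b + (l + 1))).filter
        (fun q => ¬ leP m (a + k, b + l) q) = Ico a (a + (k + 1)) ×ˢ Ico b (b + l) := by
      ext ⟨x, y⟩; simp only [mem_filter, mem_product, mem_Ico]; simp only [leP]; omega
    have h3 : (Ico a (a + (k + 1)) ×ˢ Ico b (b + (l + 1))).filter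
        (fun q => leP m (a + k, b + l) q) = Ico a (a + (k + 1)) ×ˢ Ico (b + l) (b + l + 1) := by
      ext ⟨x, y⟩; simp only [mem_filter, mem_product, mem_Ico]; simp only [leP]; omega
    rw [h1, h2, h3, ih _ _ _ _ (by omega) hm, ih _ _ _ _ (by omega) (by omega), ff_rec]
    simp

theorem grid_SD (m : ℕ) (c : ℕ × ℕ → ℕ × ℕ) : ∀ (N k l a b : ℕ), k + l ≤ N →
    ¬ (b < m ∧ m < b + l) →
    (∀ p ∈ Ico a (a + k) ×ˢ Ico b (b + l), c p = (2 * a + k - 1 - p.1, 2 * b + l - 1 - p.2)) →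
    SD (leP m) c (Ico a (a + k) ×ˢ Ico b (b + l)) = ff k l := by
  intro N
  induction N with
  | zero =>
    intro k l a b h hm _
    obtain rfl : k = 0 := by omega
    simp [SD_empty, ff_zero_left]
  | succ N ih =>
    intro k l a b h hm hc
    rcases k with _ | k
    · simp [SD_empty, ff_zero_left]
    rcases l with _ | l
    · simp [SD_empty, ff_zero_right]
    have hmem : (a, b) ∈ Ico a (a + (k + 1)) ×ˢ Ico b (b + (l + 1)) := by
      simp only [mem_product, mem_Ico]; omega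
    have hcp : c (a, b) = (a + k, b + l) := by
      rw [hc _ hmem]; ext <;> simp <;> omega
    have hrev : Rev (leP m) c (Ico a (a + (k + 1)) ×ˢ Ico b (b + (l + 1))) := by
      refine ⟨fun p hp => ?_, fun p hp => ?_, fun p hp q hq h => ?_⟩
      · rw [hc p hp]; simp only [mem_product, mem_Ico] at hp ⊢; omega
      · have h1 : c p ∈ Ico a (a + (k + 1)) ×ˢ Ico b (b + (l + 1)) := by
          rw [hc p hp]; simp only [mem_product, mem_Ico] at hp ⊢; omega
        rw [hc _ h1, hc p hp]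
        simp only [mem_product, mem_Ico] at hp ⊢
        ext <;> simp <;> omega
      · rw [hc p hp, hc q hq]
        simp only [mem_product, mem_Ico, leP] at *; omega
    rw [SD_rec (leP m) (leP_refl m) (leP_trans m) c _ hrev (a, b) hmem, hcp]
    have h1 : (Ico a (a + (k + 1)) ×ˢ Ico b (b + (l + 1))).filter
        (fun q => ¬ leP m q (a, b) ∧ ¬ leP m (a + k, b + l) q) =
        Ico a (a + (k + 1)) ×ˢ Ico (b + 1) (b + 1 + (l - 1)) := by
      ext ⟨x, y⟩; simp only [mem_filter, mem_product, mem_Ico]; simp only [leP]; omega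
    have h2 : (Ico a (a + (k + 1)) ×ˢ Ico b (b + (l + 1))).filter
        (fun q => ¬ leP m q (a + k, b + l) ∧ ¬ leP m (a, b) q) =
        Ico (a + 1) (a + 1 + (k - 1)) ×ˢ Ico b (b + (l + 1)) := by
      ext ⟨x, y⟩; simp only [mem_filter, mem_product, mem_Ico]; simp only [leP]; omega
    rw [h1, h2]
    have e1 : leP m (a + k, b + l) (a, b) ↔ l = 0 := by simp only [leP]; omega
    have e2 : leP m (a, b) (a + k, b + l) ↔ k = 0 := by simp only [leP]; omega
    simp only [e1, e2]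
    rcases k with _ | k
    · rcases l with _ | l
      · simp [ff]
      · rw [if_neg (by omega), if_pos rfl, ih _ _ _ _ (by omega) (by omega)]
        · simp only [Nat.add_sub_cancel, zero_add, add_zero]
          rw [ff_one_left]
        · intro p hp
          rw [hc p (by simp only [mem_product, mem_Ico] at hp ⊢; omega)]
          ext <;> simp <;> omega
    · rcases l with _ | l
      · rw [if_pos rfl, if_neg (by omega), ih _ _ _ _ (by omega) (by omega)]
        · simp only [Nat.add_sub_cancel, zero_add]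
          rw [ff_one_right]
        · intro p hp
          rw [hc p (by simp only [mem_product, mem_Ico] at hp ⊢; omega)]
          ext <;> simp <;> omega
      · rw [if_neg (by omega), if_neg (by omega), ih _ _ _ _ (by omega) (by omega),
          ih _ _ _ _ (by omega) (by omega)]
        · simp only [Nat.add_sub_cancel]
          rw [ff_rec2, add_comm]
        · intro p hp
          rw [hc p (by simp only [mem_product, mem_Ico] at hp ⊢; omega)]
          ext <;> simp <;> omega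
        · intro p hp
          rw [hc p (by simp only [mem_product, mem_Ico] at hp ⊢; omega)]
          ext <;> simp <;> omega

/-! ### Products of a chain with the poset `Q` -/

def Vfix (r k : ℕ) : ℕ := if k % 2 = 1 then 0 else (r + k / 2).choose r
def Vsw (r k : ℕ) : ℕ :=
  if k % 2 = 1 then 2 * (r + 1 + k / 2).choose (r + 1)
  else (r + 1 + k / 2).choose (r + 1) + (r + k / 2).choose (r + 1)
def Wq (r k : ℕ) : ℤ :=
  if k % 2 = 1 then (-1) ^ r * ((r + k / 2).choose r : ℤ) else ((r + k / 2).choose r : ℤ)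
def Uq (r k : ℕ) : ℕ := if r % 2 = 0 then Vfix r k else Vsw r k

theorem Vfix_even (r h : ℕ) : Vfix r (2 * h) = (r + h).choose r := by
  unfold Vfix; rw [if_neg (by omega)]; congr 1; omega
theorem Vfix_odd (r h : ℕ) : Vfix r (2 * h + 1) = 0 := by
  unfold Vfix; rw [if_pos (by omega)]
theorem Vsw_even (r h : ℕ) : Vsw r (2 * h) =
    (r + 1 + h).choose (r + 1) + (r + h).choose (r + 1) := by
  unfold Vsw; rw [if_neg (by omega)]; congr 2 <;> omega
theorem Vsw_odd (r h : ℕ) : Vsw r (2 * h + 1) = 2 * (r + 1 + h).choose (r + 1) := by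
  unfold Vsw; rw [if_pos (by omega)]; congr 2; omega
theorem Wq_even (r h : ℕ) : Wq r (2 * h) = (r + h).choose r := by
  unfold Wq; rw [if_neg (by omega)]; congr 2; omega
theorem Wq_odd (r h : ℕ) : Wq r (2 * h + 1) = (-1) ^ r * ((r + h).choose r : ℤ) := by
  unfold Wq; rw [if_pos (by omega)]; congr 3; omega
theorem Uq_even (r k : ℕ) : Uq (2 * r) k = Vfix (2 * r) k := by
  unfold Uq; rw [if_pos (by omega)]
theorem Uq_odd (r k : ℕ) : Uq (2 * r + 1) k = Vsw (2 * r + 1) k := by
  unfold Uq; rw [if_neg (by omega)]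

theorem pascal (r h : ℕ) : (r + 1 + (h + 1)).choose (r + 1) =
    (r + (h + 1)).choose r + (r + 1 + h).choose (r + 1) := by
  rw [show r + 1 + (h + 1) = (r + (h + 1)) + 1 by ring, Nat.choose_succ_succ]
  congr 2; ring

theorem Wq_rec (r k : ℕ) : Wq (r + 1) (k + 1) = Uq r (k + 1) - Wq (r + 1) k := by
  obtain ⟨h, hk | hk⟩ : ∃ h, k = 2 * h ∨ k = 2 * h + 1 := ⟨k / 2, by omega⟩ <;>
  obtain ⟨s, hr | hr⟩ : ∃ s, r = 2 * s ∨ r = 2 * s + 1 := ⟨r / 2, by omega⟩ <;>
  subst hk <;> subst hr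
  · rw [Wq_odd, Wq_even, Uq_even, Vfix_odd, pow_succ, pow_mul]; push_cast; ring
  · rw [Wq_odd, Wq_even, Uq_odd, Vsw_odd, show 2 * s + 1 + 1 = 2 * (s + 1) by ring, pow_mul]
    push_cast; ring
  · rw [show 2 * h + 1 + 1 = 2 * (h + 1) by ring, Wq_odd, Wq_even, Uq_even, Vfix_even, pascal,
      pow_succ, pow_mul]
    push_cast; ring
  · rw [show 2 * h + 1 + 1 = 2 * (h + 1) by ring, Wq_odd, Wq_even, Uq_odd, Vsw_even,
      show 2 * s + 1 + (h + 1) = 2 * s + 1 + 1 + h by ring,
      show 2 * s + 1 + 1 = 2 * (s + 1) by ring, pow_mul]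
    push_cast; ring

theorem Uq_rec (r k : ℕ) : (Uq (r + 1) (k + 1) : ℤ) =
    Uq (r + 1) k + (-1) ^ (k + 1) * Wq (r + 1) (k + 1) := by
  obtain ⟨h, hk | hk⟩ : ∃ h, k = 2 * h ∨ k = 2 * h + 1 := ⟨k / 2, by omega⟩ <;>
  obtain ⟨s, hr | hr⟩ : ∃ s, r = 2 * s ∨ r = 2 * s + 1 := ⟨r / 2, by omega⟩ <;>
  subst hk <;> subst hr
  · rw [Uq_odd, Uq_odd, Vsw_odd, Vsw_even, Wq_odd]
    rcases h with _ | h
    · simp [pow_succ, pow_mul]
    · rw [show (2 * s + 1 + (h + 1)).choose (2 * s + 1 + 1) =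
        (2 * s + 1 + 1 + h).choose (2 * s + 1 + 1) by congr 1; ring, pascal (2 * s + 1) h,
        pow_succ, pow_succ (-1 : ℤ) (2 * s), pow_mul, pow_mul]
      push_cast; ring
  · rw [show 2 * s + 1 + 1 = 2 * (s + 1) by ring, Uq_even, Uq_even, Vfix_odd, Vfix_even, Wq_odd,
      pow_succ, pow_mul, pow_mul]
    push_cast; ring
  · rw [show 2 * h + 1 + 1 = 2 * (h + 1) by ring, Uq_odd, Uq_odd, Vsw_odd, Vsw_even, Wq_even,
      pascal (2 * s + 1) h, pow_mul,
      show (2 * s + 1 + (h + 1)).choose (2 * s + 1 + 1) =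
        (2 * s + 1 + 1 + h).choose (2 * s + 1 + 1) by congr 1; ring]
    push_cast; ring
  · rw [show 2 * h + 1 + 1 = 2 * (h + 1) by ring, show 2 * s + 1 + 1 = 2 * (s + 1) by ring,
      Uq_even, Uq_even, Vfix_odd, Vfix_even, Wq_even, pow_mul]
    push_cast; ring

theorem Vfix_rec (r k : ℕ) : Vfix (r + 1) (k + 2) = Vfix (r + 1) k + Vfix r (k + 2) := by
  obtain ⟨h, hk | hk⟩ : ∃ h, k = 2 * h ∨ k = 2 * h + 1 := ⟨k / 2, by omega⟩ <;> subst hk
  · rw [show 2 * h + 2 = 2 * (h + 1) by ring, Vfix_even, Vfix_even, Vfix_even, pascal]; ring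
  · rw [show 2 * h + 1 + 2 = 2 * (h + 1) + 1 by ring, Vfix_odd, Vfix_odd, Vfix_odd]

theorem Vsw_rec (r k : ℕ) : Vsw (r + 1) (k + 2) = Vsw (r + 1) k + Vsw r (k + 2) := by
  obtain ⟨h, hk | hk⟩ : ∃ h, k = 2 * h ∨ k = 2 * h + 1 := ⟨k / 2, by omega⟩ <;> subst hk
  · rw [show 2 * h + 2 = 2 * (h + 1) by ring, Vsw_even, Vsw_even, Vsw_even, pascal (r + 1) h]
    rcases h with _ | h
    · simp; ring
    · rw [show (r + 1 + (h + 1 + 1)).choose (r + 1 + 1) =
        (r + 1 + 1 + (h + 1)).choose (r + 1 + 1) by congr 1; ring, pascal (r + 1) h,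
        show (r + 1 + (h + 1)).choose (r + 1 + 1) = (r + 1 + 1 + h).choose (r + 1 + 1) by
          congr 1; ring,
        show (r + (h + 1 + 1)).choose (r + 1) = (r + 1 + (h + 1)).choose (r + 1) by
          congr 1; ring]
      ring
  · rw [show 2 * h + 1 + 2 = 2 * (h + 1) + 1 by ring, Vsw_odd, Vsw_odd, Vsw_odd,
      pascal (r + 1) h]
    ring

theorem Vsw_zero (k : ℕ) : Vsw 0 k = k + 1 := by
  obtain ⟨h, hk | hk⟩ : ∃ h, k = 2 * h ∨ k = 2 * h + 1 := ⟨k / 2, by omega⟩ <;> subst hk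
  · rw [Vsw_even]; simp; ring
  · rw [Vsw_odd]; simp; ring

theorem Vfix_zero (k : ℕ) : Vfix 0 k = if k % 2 = 1 then 0 else 1 := by
  unfold Vfix; simp

theorem ff_k_one (k : ℕ) : ff k 1 = if k % 2 = 1 then 0 else 1 := by
  unfold ff; simp

theorem Q_M (m : ℕ) : ∀ (r k a b : ℕ), m = b + r + 1 →
    Mm (leP m) (Ico a (a + k) ×ˢ Ico b (b + 2 * (r + 1))) = Uq r k := by
  intro r
  induction r with
  | zero =>
    intro k a b hm
    have hS : Ico a (a + k) ×ˢ Ico b (b + 2 * (0 + 1)) =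
        Ico a (a + k) ×ˢ Ico b (b + 1) ∪ Ico a (a + k) ×ˢ Ico (b + 1) (b + 1 + 1) := by
      ext ⟨x, y⟩; simp only [mem_union, mem_product, mem_Ico]; omega
    rw [hS, Mm_union, grid_M m _ _ _ _ _ le_rfl (by omega), grid_M m _ _ _ _ _ le_rfl (by omega),
      ff_k_one, show (0 : ℕ) = 2 * 0 by rfl, Uq_even, Vfix_zero]
    · split_ifs <;> simp
    · rw [Finset.disjoint_left]; rintro ⟨x, y⟩ h1 h2
      simp only [mem_product, mem_Ico] at h1 h2; omega
    · rintro ⟨x, y⟩ h1 ⟨x', y'⟩ h2 h3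
      simp only [mem_product, mem_Ico, leP] at h1 h2 h3; omega
    · rintro ⟨x, y⟩ h1 ⟨x', y'⟩ h2 h3
      simp only [mem_product, mem_Ico, leP] at h1 h2 h3; omega
  | succ r ih =>
    have hW : ∀ k a b : ℕ, m = b + r + 2 →
        Mm (leP m) (Ico a (a + k) ×ˢ Ico b (b + (2 * r + 3))) = Wq (r + 1) k := by
      intro k
      induction k with
      | zero => intro a b hm; simp [Mm_empty, Wq]
      | succ k ihk =>
        intro a b hm
        rw [Mm_rec (leP m) (leP_refl m) (leP_trans m) _ (a, b)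
          (by simp only [mem_product, mem_Ico]; omega)]
        have h1 : (Ico a (a + (k + 1)) ×ˢ Ico b (b + (2 * r + 3))).filter
            (fun q => ¬ leP m q (a, b)) =
            Ico a (a + (k + 1)) ×ˢ Ico (b + 1) (b + 1 + 2 * (r + 1)) := by
          ext ⟨x, y⟩; simp only [mem_filter, mem_product, mem_Ico]; simp only [leP]; omega
        have h2 : (Ico a (a + (k + 1)) ×ˢ Ico b (b + (2 * r + 3))).filter
            (fun q => ¬ leP m (a, b) q) = Ico (a + 1) (a + 1 + k) ×ˢ Ico b (b + (2 * r + 3)) := by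
          ext ⟨x, y⟩; simp only [mem_filter, mem_product, mem_Ico]; simp only [leP]; omega
        have h3 : (Ico a (a + (k + 1)) ×ˢ Ico b (b + (2 * r + 3))).filter
            (fun q => leP m (a, b) q) = Ico a (a + 1) ×ˢ Ico b (b + (2 * r + 3)) := by
          ext ⟨x, y⟩; simp only [mem_filter, mem_product, mem_Ico]; simp only [leP]; omega
        rw [h1, h2, h3, ih _ _ _ (by omega), ihk _ _ (by omega), Wq_rec]
        have : (-1 : ℤ) ^ (Ico a (a + 1) ×ˢ Ico b (b + (2 * r + 3))).card = -1 := by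
          rw [card_product]; simp [pow_add, pow_mul]
        rw [this]; ring
    intro k
    induction k with
    | zero => intro a b hm; simp [Mm_empty, Uq, Vfix, Vsw]
    | succ k ihk =>
      intro a b hm
      rw [Mm_rec (leP m) (leP_refl m) (leP_trans m) _ (a + k, b + (2 * r + 3))
        (by simp only [mem_product, mem_Ico]; omega)]
      have h1 : (Ico a (a + (k + 1)) ×ˢ Ico b (b + 2 * (r + 1 + 1))).filter
          (fun q => ¬ leP m q (a + k, b + (2 * r + 3))) =
          Ico a (a + k) ×ˢ Ico b (b + 2 * (r + 1 + 1)) := by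
        ext ⟨x, y⟩; simp only [mem_filter, mem_product, mem_Ico]; simp only [leP]; omega
      have h2 : (Ico a (a + (k + 1)) ×ˢ Ico b (b + 2 * (r + 1 + 1))).filter
          (fun q => ¬ leP m (a + k, b + (2 * r + 3)) q) =
          Ico a (a + (k + 1)) ×ˢ Ico b (b + (2 * r + 3)) := by
        ext ⟨x, y⟩; simp only [mem_filter, mem_product, mem_Ico]; simp only [leP]; omega
      have h3 : (Ico a (a + (k + 1)) ×ˢ Ico b (b + 2 * (r + 1 + 1))).filter
          (fun q => leP m (a + k, b + (2 * r + 3)) q) =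
          Ico a (a + (k + 1)) ×ˢ Ico (b + (2 * r + 3)) (b + (2 * r + 3) + 1) := by
        ext ⟨x, y⟩; simp only [mem_filter, mem_product, mem_Ico]; simp only [leP]; omega
      rw [h1, h2, h3, ihk _ _ (by omega), hW _ _ _ (by omega), Uq_rec]
      simp

/-- The involution on pairs used for the `Q` blocks (`sw` tells whether the two middle
elements are exchanged). -/
def cQ (sw : ℕ) (m A : ℕ) (p : ℕ × ℕ) : ℕ × ℕ :=
  (A - p.1, if sw = 0 ∧ (p.2 + 1 = m ∨ p.2 = m) then p.2 else 2 * m - 1 - p.2)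

theorem Q_SD_zero_sw (m A : ℕ) (c : ℕ × ℕ → ℕ × ℕ) (b : ℕ) (hm : m = b + 1) :
    ∀ (k a₁ a₂ : ℕ), A = a₁ + a₂ + k - 1 → 
    (∀ p ∈ Ico a₁ (a₁ + k) ×ˢ Ico b (b + 1) ∪ Ico a₂ (a₂ + k) ×ˢ Ico (b + 1) (b + 2),
      c p = cQ 1 m A p) →
    SD (leP m) c (Ico a₁ (a₁ + k) ×ˢ Ico b (b + 1) ∪ Ico a₂ (a₂ + k) ×ˢ Ico (b + 1) (b + 2)) =
      k + 1 := by
  intro k
  induction k with
  | zero => intro a₁ a₂ _ _; simp [SD_empty]
  | succ k ih =>
    intro a₁ a₂ hA hc
    set S := Ico a₁ (a₁ + (k + 1)) ×ˢ Ico b (b + 1) ∪ Ico a₂ (a₂ + (k + 1)) ×ˢ Ico (b + 1) (b + 2)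
      with hS
    have hmemS : ∀ p : ℕ × ℕ, p ∈ S ↔ (a₁ ≤ p.1 ∧ p.1 < a₁ + (k + 1) ∧ p.2 = b) ∨
        (a₂ ≤ p.1 ∧ p.1 < a₂ + (k + 1) ∧ p.2 = b + 1) := by
      intro p; rw [hS]; simp only [mem_union, mem_product, mem_Ico]; omega
    have hc' : ∀ p ∈ S, c p = (A - p.1, 2 * m - 1 - p.2) := by
      intro p hp; rw [hc p hp]; simp [cQ]
    have hmem : (a₁, b) ∈ S := by rw [hmemS]; simp
    have hcp : c (a₁, b) = (a₂ + k, b + 1) := by
      rw [hc' _ hmem]; ext <;> simp <;> omega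
    have hrev : Rev (leP m) c S := by
      refine ⟨fun p hp => ?_, fun p hp => ?_, fun p hp q hq h => ?_⟩
      · rw [hc' p hp]; rw [hmemS] at hp ⊢; simp only; omega
      · have h1 : c p ∈ S := by
          rw [hc' p hp]; rw [hmemS] at hp ⊢; simp only; omega
        rw [hc' _ h1, hc' p hp]
        rw [hmemS] at hp
        ext <;> simp <;> omega
      · rw [hc' p hp, hc' q hq]
        rw [hmemS] at hp hq
        simp only [leP] at *; omega
    rw [SD_rec (leP m) (leP_refl m) (leP_trans m) c _ hrev (a₁, b) hmem, hcp]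
    have e1 : ¬ leP m (a₂ + k, b + 1) (a₁, b) := by simp only [leP]; omega
    have e2 : ¬ leP m (a₁, b) (a₂ + k, b + 1) := by simp only [leP]; omega
    have h1 : S.filter (fun q => ¬ leP m q (a₁, b) ∧ ¬ leP m (a₂ + k, b + 1) q) = ∅ := by
      rw [Finset.filter_eq_empty_iff]
      rintro ⟨x, y⟩ hp
      rw [hmemS] at hp
      simp only [leP] at hp ⊢; omega
    have h2 : S.filter (fun q => ¬ leP m q (a₂ + k, b + 1) ∧ ¬ leP m (a₁, b) q) =
        Ico (a₁ + 1) (a₁ + 1 + k) ×ˢ Ico b (b + 1) ∪ Ico a₂ (a₂ + k) ×ˢ Ico (b + 1) (b + 2) := by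
      ext ⟨x, y⟩; rw [mem_filter, hmemS]
      simp only [mem_union, mem_product, mem_Ico]; simp only [leP]; omega
    rw [if_neg e1, if_neg e2, h1, h2, SD_empty, ih _ _ (by omega)]
    · ring
    · intro p hp
      apply hc
      rw [hmemS]; simp only [mem_union, mem_product, mem_Ico] at hp; omega

theorem Q_SD (sw : ℕ) (m A : ℕ) (c : ℕ × ℕ → ℕ × ℕ) : ∀ (N r k a b : ℕ), r + k ≤ N →
    m = b + r + 1 → A = 2 * a + k - 1 →
    (∀ p ∈ Ico a (a + k) ×ˢ Ico b (b + 2 * (r + 1)), c p = cQ sw m A p) →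
    SD (leP m) c (Ico a (a + k) ×ˢ Ico b (b + 2 * (r + 1))) =
      if sw = 0 then Vfix r k else Vsw r k := by
  intro N
  induction N with
  | zero =>
    intro r k a b h hm hA hc
    obtain rfl : k = 0 := by omega
    split_ifs <;> simp [SD_empty, Vsw, Vfix]
  | succ N ih =>
    intro r k a b h hm hA hc
    rcases r with _ | r
    · by_cases hsw : sw = 0
      · have hS : Ico a (a + k) ×ˢ Ico b (b + 2 * (0 + 1)) =
            Ico a (a + k) ×ˢ Ico b (b + 1) ∪ Ico a (a + k) ×ˢ Ico (b + 1) (b + 1 + 1) := by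
          ext ⟨x, y⟩; simp only [mem_union, mem_product, mem_Ico]; omega
        have hc1 : ∀ p ∈ Ico a (a + k) ×ˢ Ico b (b + 1), c p = (A - p.1, p.2) := by
          intro p hp
          rw [hc p (by simp only [mem_product, mem_Ico] at hp ⊢; omega)]
          simp only [mem_product, mem_Ico] at hp
          unfold cQ; rw [if_pos ⟨hsw, by omega⟩]
        have hc2 : ∀ p ∈ Ico a (a + k) ×ˢ Ico (b + 1) (b + 1 + 1), c p = (A - p.1, p.2) := by
          intro p hp
          rw [hc p (by simp only [mem_product, mem_Ico] at hp ⊢; omega)]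
          simp only [mem_product, mem_Ico] at hp
          unfold cQ; rw [if_pos ⟨hsw, by omega⟩]
        rw [hS, SD_union, grid_SD m c _ _ _ _ _ le_rfl (by omega),
          grid_SD m c _ _ _ _ _ le_rfl (by omega), ff_k_one, Vfix_zero, if_pos hsw]
        · split_ifs <;> rfl
        · intro p hp; rw [hc2 p hp]; simp only [mem_product, mem_Ico] at hp
          ext <;> simp <;> omega
        · intro p hp; rw [hc1 p hp]; simp only [mem_product, mem_Ico] at hp
          ext <;> simp <;> omega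
        · rw [Finset.disjoint_left]; rintro ⟨x, y⟩ h1 h2
          simp only [mem_product, mem_Ico] at h1 h2; omega
        · rintro ⟨x, y⟩ h1 ⟨x', y'⟩ h2 h3
          simp only [mem_product, mem_Ico, leP] at h1 h2 h3; omega
        · rintro ⟨x, y⟩ h1 ⟨x', y'⟩ h2 h3
          simp only [mem_product, mem_Ico, leP] at h1 h2 h3; omega
        · intro p hp; rw [hc1 p hp]; simp only [mem_product, mem_Ico] at hp ⊢; omega
        · intro p hp; rw [hc2 p hp]; simp only [mem_product, mem_Ico] at hp ⊢; omega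
      · have hS : Ico a (a + k) ×ˢ Ico b (b + 2 * (0 + 1)) =
            Ico a (a + k) ×ˢ Ico b (b + 1) ∪ Ico a (a + k) ×ˢ Ico (b + 1) (b + 2) := by
          ext ⟨x, y⟩; simp only [mem_union, mem_product, mem_Ico]; omega
        rw [hS] at hc ⊢
        rw [Q_SD_zero_sw m A c b (by omega) k a a (by omega), if_neg hsw, Vsw_zero]
        intro p hp
        rw [hc p hp]; unfold cQ; rw [if_neg (by omega), if_neg (by omega)]
    · rcases k with _ | k
      · split_ifs <;> simp [SD_empty, Vsw, Vfix]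
      have hmem : (a, b) ∈ Ico a (a + (k + 1)) ×ˢ Ico b (b + 2 * (r + 1 + 1)) := by
        simp only [mem_product, mem_Ico]; omega
      have hcp : c (a, b) = (a + k, b + 2 * r + 3) := by
        rw [hc _ hmem]; unfold cQ; simp only; rw [if_neg (by omega)]; ext <;> simp <;> omega
      have hcv : ∀ p, (c p).1 = A - p.1 ∧ (((c p).2 = p.2 ∧ sw = 0 ∧ (p.2 + 1 = m ∨ p.2 = m)) ∨ 
          ((c p).2 = 2 * m - 1 - p.2 ∧ ¬ (sw = 0 ∧ (p.2 + 1 = m ∨ p.2 = m)))) ∨ 
          p ∉ Ico a (a + (k + 1)) ×ˢ Ico b (b + 2 * (r + 1 + 1)) := by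
        intro p
        by_cases hp : p ∈ Ico a (a + (k + 1)) ×ˢ Ico b (b + 2 * (r + 1 + 1))
        · left
          rw [hc p hp]; unfold cQ
          refine ⟨rfl, ?_⟩
          split_ifs with h
          · exact Or.inl ⟨rfl, h⟩
          · exact Or.inr ⟨rfl, h⟩
        · exact Or.inr hp
      have hrev : Rev (leP m) c (Ico a (a + (k + 1)) ×ˢ Ico b (b + 2 * (r + 1 + 1))) := by
        have hmaps : ∀ p ∈ Ico a (a + (k + 1)) ×ˢ Ico b (b + 2 * (r + 1 + 1)),
            c p ∈ Ico a (a + (k + 1)) ×ˢ Ico b (b + 2 * (r + 1 + 1)) := by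
          intro p hp
          have := hcv p
          simp only [mem_product, mem_Ico] at hp this ⊢; omega
        refine ⟨hmaps, fun p hp => ?_, fun p hp q hq h => ?_⟩
        · have h1 := hmaps p hp
          have h2 := hcv p
          have h3 := hcv (c p)
          simp only [mem_product, mem_Ico] at hp h1 h2 h3
          ext <;> omega
        · have h2 := hcv p
          have h3 := hcv q
          simp only [mem_product, mem_Ico, leP] at hp hq h2 h3 h ⊢
          omega
      rw [SD_rec (leP m) (leP_refl m) (leP_trans m) c _ hrev (a, b) hmem, hcp]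
      have h1 : (Ico a (a + (k + 1)) ×ˢ Ico b (b + 2 * (r + 1 + 1))).filter
          (fun q => ¬ leP m q (a, b) ∧ ¬ leP m (a + k, b + 2 * r + 3) q) =
          Ico a (a + (k + 1)) ×ˢ Ico (b + 1) (b + 1 + 2 * (r + 1)) := by
        ext ⟨x, y⟩; simp only [mem_filter, mem_product, mem_Ico]; simp only [leP]; omega
      have h2 : (Ico a (a + (k + 1)) ×ˢ Ico b (b + 2 * (r + 1 + 1))).filter
          (fun q => ¬ leP m q (a + k, b + 2 * r + 3) ∧ ¬ leP m (a, b) q) =
          Ico (a + 1) (a + 1 + (k - 1)) ×ˢ Ico b (b + 2 * (r + 1 + 1)) := by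
        ext ⟨x, y⟩; simp only [mem_filter, mem_product, mem_Ico]; simp only [leP]; omega
      rw [h1, h2]
      have e1 : ¬ leP m (a + k, b + 2 * r + 3) (a, b) := by simp only [leP]; omega
      have e2 : leP m (a, b) (a + k, b + 2 * r + 3) ↔ k = 0 := by simp only [leP]; omega
      simp only [e2]
      rw [if_neg e1, ih _ _ _ _ (by omega) (by omega) (by omega)]
      · rcases k with _ | k
        · rw [if_pos rfl]
          split_ifs <;> simp [Vsw, Vfix]
        · rw [if_neg (Nat.succ_ne_zero k), ih _ _ _ _ (by omega) (by omega) (by omega)]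
          · simp only [Nat.add_sub_cancel]
            split_ifs
            · rw [Vfix_rec, add_comm]
            · rw [Vsw_rec, add_comm]
          · intro p hp
            exact hc p (by simp only [mem_product, mem_Ico] at hp ⊢; omega)
      · intro p hp
        exact hc p (by simp only [mem_product, mem_Ico] at hp ⊢; omega)

/-! ### Staircases -/

/-- staircase -/
def stair (a b t : ℕ) : Finset (ℕ × ℕ) :=
  (Ico a (a + t + 1) ×ˢ Ico b (b + t + 1)).filter (fun p => p.1 + p.2 ≤ a + b + t)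

theorem mem_stair (a b t : ℕ) (p : ℕ × ℕ) :
    p ∈ stair a b t ↔ a ≤ p.1 ∧ b ≤ p.2 ∧ p.1 + p.2 ≤ a + b + t := by
  unfold stair; rw [mem_filter]; simp only [mem_product, mem_Ico]; omega

theorem stair_M (m : ℕ) : ∀ (t a b : ℕ), m ≤ b → Mm (leP m) (stair a b t) = 0 := by
  intro t
  induction t with
  | zero =>
    intro a b hm
    have h0 : stair a b 0 = {(a, b)} := by
      ext ⟨x, y⟩; rw [mem_stair, mem_singleton, Prod.mk.injEq]; simp only; omega
    rw [h0, Mm_rec (leP m) (leP_refl m) (leP_trans m) _ (a, b) (by simp)]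
    simp only [Finset.filter_singleton, leP_refl, not_true_eq_false, if_true, if_false, Mm_empty]
    simp
  | succ t ih =>
    intro a b hm
    rw [Mm_rec (leP m) (leP_refl m) (leP_trans m) _ (a, b)
      (by rw [mem_stair]; simp only; omega)]
    have h1 : (stair a b (t + 1)).filter (fun q => ¬ leP m q (a, b)) = stair a (b + 1) t := by
      ext ⟨x, y⟩; simp only [mem_filter, mem_stair]; simp only [leP]; omega
    have h2 : (stair a b (t + 1)).filter (fun q => ¬ leP m (a, b) q) = stair (a + 1) b t := by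
      ext ⟨x, y⟩; simp only [mem_filter, mem_stair]; simp only [leP]; omega
    rw [h1, h2, ih _ _ (by omega), ih _ _ (by omega)]
    simp

end Pool.Agent.Helper57.TM1
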