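import Pool.Agent.Helper57.TM1.Root

/-!
Computable functions used for the exceptional types.
-/

namespace Pool.Agent.Helper57.TM1

/-- hexadecimal digit -/
def dig (a i : ℕ) : ℕ := Nat.mod (Nat.div a (Nat.pow 16 i)) 16

def sumL : ℕ → (ℕ → ℤ) → ℤ
  | 0, _ => 0
  | n + 1, f => sumL n f + f n

def leb (H a b : ℕ) : Bool := Nat.beq (Nat.land (Nat.sub (Nat.add b H) a) H) H

def Mlist (H : ℕ) : ℕ → List ℕ → ℤ
  | 0, _ => 1
  | _ + 1, [] => 1
  | f + 1, p :: l => Mlist H f (l.filter (fun q => !leb H q p)) - Mlist H f l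

def SDlist (H : ℕ) : ℕ → List (ℕ × ℕ) → ℕ
  | 0, _ => 1
  | _ + 1, [] => 1
  | f + 1, (p, q) :: l =>
    if Nat.beq p q then 0 else
      (if leb H q p then 0 else SDlist H f (l.filter (fun x => !leb H x.1 p && !leb H q x.1))) +
      SDlist H f (l.filter (fun x => !Nat.beq x.1 q))

def upd (n : ℕ) (MN : ℕ → ℕ → ℤ) (j : ℕ) (W : List ℤ) : List ℤ :=
  (List.range n).map (fun i => W.getD i 0 - MN i j * W.getD j 0)

def greedyW (n : ℕ) (MN : ℕ → ℕ → ℤ) (Z : List Bool) : ℕ → List ℤ → List ℤ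
  | 0, W => W
  | f + 1, W =>
    match (List.range n).find? (fun j => Z.getD j false && decide (0 < W.getD j 0)) with
    | none => W
    | some j => greedyW n MN Z f (upd n MN j W)

def W0 (n : ℕ) : List ℤ := (List.range n).map (fun i => (16 : ℤ) ^ i)

def PZ (n : ℕ) (R : List ℕ) (Z : List Bool) (β : ℕ) : List ℕ :=
  R.filter (fun a => (List.range n).all (fun i => Z.getD i false ||
    Nat.beq (dig a i) (if Nat.beq i β then 1 else 0)))

def cW (n : ℕ) (W : List ℤ) (a : ℕ) : ℕ := (sumL n (fun i => (dig a i : ℤ) * W.getD i 0)).toNat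

def chkβ (n H : ℕ) (R : List ℕ) (Z : List Bool) (W : List ℤ) (β : ℕ) : Bool :=
  decide (Mlist H (R.length) (PZ n R Z β) =
    (SDlist H (R.length) ((PZ n R Z β).map (fun a => (a, cW n W a))) : ℤ))

def chkZ (n H : ℕ) (MN : ℕ → ℕ → ℤ) (R : List ℕ) (Z : List Bool) : Bool :=
  (List.range n).all (fun j => !(Z.getD j false) ||
    decide ((greedyW n MN Z (R.length) (W0 n)).getD j 0 < 0)) &&
  (List.range n).all (fun β => Z.getD β false ||
    chkβ n H R Z (greedyW n MN Z (R.length) (W0 n)) β)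

def allZ : ℕ → List (List Bool)
  | 0 => [[]]
  | n + 1 => (allZ n).map (List.cons false) ++ (allZ n).map (List.cons true)

def lk (rows : List (List ℤ)) (i j : ℕ) : ℤ := (rows.getD i []).getD j 0

end Pool.Agent.Helper57.TM1
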