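import Pool.Agent.Helper57.TM1.TypeD

namespace Pool.Agent.Helper57.TM1

open Finset

theorem parity_sum (n : ℕ) (hn : 3 ≤ n) (l : List (Fin n)) :
    ∑ x ∈ range n, (if n ≤ (modelD n hn).tau l x then (1 : ZMod 2) else 0) = 0 := by
  set P := modelD n hn with hP
  induction l with
  | nil =>
    apply Finset.sum_eq_zero
    intro x hx
    rw [mem_range] at hx
    rw [if_neg]
    show ¬ n ≤ x
    omega
  | cons j l ih =>
    have hN : P.N = 2 * n := rfl
    -- the index map
    have hlt : ∀ x, x < n → P.tau l x < 2 * n := fun x hx => P.tau_lt l x (by rw [hN]; omega)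
    have hbij : (range n).image (fun x => min (P.tau l x) (2 * n - 1 - P.tau l x)) = range n := by
      apply Finset.eq_of_subset_of_card_le
      · intro y hy
        obtain ⟨x, hx, rfl⟩ := mem_image.1 hy
        rw [mem_range] at hx ⊢
        have := hlt x hx
        omega
      · rw [Finset.card_image_of_injOn]
        intro x hx y hy hxy
        rw [mem_coe, mem_range] at hx hy
        have h1 := hlt x hx
        have h2 := hlt y hy
        have h3 : P.tau l (2 * n - 1 - y) = 2 * n - 1 - P.tau l y :=
          P.tau_mir trivial l y (by rw [hN]; omega)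
        simp only at hxy
        by_cases h4 : P.tau l x = P.tau l y
        · exact P.tau_inj l x y (by rw [hN]; omega) (by rw [hN]; omega) h4
        · have h5 : P.tau l x = P.tau l (2 * n - 1 - y) := by rw [h3]; omega
          have := P.tau_inj l x (2 * n - 1 - y) (by rw [hN]; omega) (by rw [hN]; omega) h5
          omega
    have hinj : Set.InjOn (fun x => min (P.tau l x) (2 * n - 1 - P.tau l x)) (range n) := by
      rw [← Finset.card_image_iff, hbij]
    have key : ∀ x ∈ range n, (if n ≤ P.tau (j :: l) x then (1 : ZMod 2) else 0) =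
        (if n ≤ P.tau l x then (1 : ZMod 2) else 0) +
        (fun z => if (j : ℕ) + 1 = n ∧ (z + 1 = n ∨ z + 2 = n) then (1 : ZMod 2) else 0)
          (min (P.tau l x) (2 * n - 1 - P.tau l x)) := by
      intro x hx
      rw [mem_range] at hx
      have h1 := hlt x hx
      have h2 : P.tau (j :: l) x = TD.σ n j (P.tau l x) := rfl
      rw [h2]
      generalize P.tau l x = y at *
      have hj := j.2
      by_cases hjn : (j : ℕ) + 1 = n
      · by_cases h3 : y + 2 = n ∨ y + 1 = n
        · have e1 : n ≤ TD.σ n j y := by unfold TD.σ; split_ifs <;> omega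
          have e2 : ¬ n ≤ y := by omega
          have e3 : (j : ℕ) + 1 = n ∧
            (min y (2 * n - 1 - y) + 1 = n ∨ min y (2 * n - 1 - y) + 2 = n) := by omega
          simp only [e1, e2, if_true, if_false]
          rw [if_pos e3]; simp
        · by_cases h4 : y = n ∨ y = n + 1
          · have e1 : ¬ n ≤ TD.σ n j y := by unfold TD.σ; split_ifs <;> omega
            have e2 : n ≤ y := by omega
            have e3 : (j : ℕ) + 1 = n ∧
              (min y (2 * n - 1 - y) + 1 = n ∨ min y (2 * n - 1 - y) + 2 = n) := by omega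
            simp only [e1, e2, if_true, if_false]
            rw [if_pos e3]
            decide
          · have e1 : TD.σ n j y = y := by unfold TD.σ; split_ifs <;> omega
            have e3 : ¬ ((j : ℕ) + 1 = n ∧
              (min y (2 * n - 1 - y) + 1 = n ∨ min y (2 * n - 1 - y) + 2 = n)) := by omega
            rw [e1]
            simp only
            rw [if_neg e3, add_zero]
      · have e1 : n ≤ TD.σ n j y ↔ n ≤ y := by unfold TD.σ; split_ifs <;> omega
        have e3 : ¬ ((j : ℕ) + 1 = n ∧
          (min y (2 * n - 1 - y) + 1 = n ∨ min y (2 * n - 1 - y) + 2 = n)) := by omega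
        simp only [e1]
        rw [if_neg e3, add_zero]
    have hs : ∑ x ∈ range n,
        (fun z => if (j : ℕ) + 1 = n ∧ (z + 1 = n ∨ z + 2 = n) then (1 : ZMod 2) else 0)
          (min (P.tau l x) (2 * n - 1 - P.tau l x)) =
        ∑ z ∈ range n, (if (j : ℕ) + 1 = n ∧ (z + 1 = n ∨ z + 2 = n) then (1 : ZMod 2) else 0) := by
      conv_rhs => rw [← hbij]
      rw [Finset.sum_image hinj]
    rw [Finset.sum_congr rfl key, Finset.sum_add_distrib, ih, zero_add, hs]
    by_cases hjn : (j : ℕ) + 1 = n
    · have e : ∀ z ∈ range n, (if (j : ℕ) + 1 = n ∧ (z + 1 = n ∨ z + 2 = n) then (1 : ZMod 2)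
          else 0) = (if z = n - 1 then 1 else 0) + (if z = n - 2 then 1 else 0) := by
        intro z hz
        rw [mem_range] at hz
        by_cases h1 : z + 1 = n
        · rw [if_pos ⟨hjn, Or.inl h1⟩, if_pos (by omega), if_neg (by omega), add_zero]
        · by_cases h2 : z + 2 = n
          · rw [if_pos ⟨hjn, Or.inr h2⟩, if_neg (by omega), if_pos (by omega), zero_add]
          · rw [if_neg (by omega), if_neg (by omega), if_neg (by omega), add_zero]
      rw [Finset.sum_congr rfl e, Finset.sum_add_distrib, Finset.sum_ite_eq', Finset.sum_ite_eq',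
        if_pos (by rw [mem_range]; omega), if_pos (by rw [mem_range]; omega)]
      decide
    · apply Finset.sum_eq_zero
      intro z _
      rw [if_neg (by omega)]

theorem D_formula (n : ℕ) (hn : 3 ≤ n) (lev : ℕ → ℤ) (τ : ℕ → ℕ)
    (hanti : ∀ x y, x ≤ y → y < 2 * n → lev y ≤ lev x)
    (hsym : ∀ x < 2 * n, lev (2 * n - 1 - x) = - lev x)
    (hτN : ∀ x < 2 * n, τ x < 2 * n)
    (hinj : ∀ x < 2 * n, ∀ y < 2 * n, τ x = τ y → x = y)
    (hmir : ∀ x < 2 * n, τ (2 * n - 1 - x) = 2 * n - 1 - τ x)
    (hlev : ∀ x < 2 * n, lev (τ x) = lev x)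
    (hdec : ∀ x, x + 1 < 2 * n → lev x = lev (x + 1) → x + 1 ≠ n → τ (x + 1) < τ x)
    (hlast : lev (n - 2) = lev n → τ n < τ (n - 2))
    (hpar : ∑ x ∈ range n, (if n ≤ τ x then (1 : ZMod 2) else 0) = 0)
    (r : ℕ) (hB : ∀ x < 2 * n, (lev x = 0 ↔ n ≤ x + (r + 1) ∧ x < n + (r + 1)))
    (hr : r + 1 ≤ n) :
    ∀ y < 2 * n, lev y = 0 → τ y = if r % 2 = 0 ∧ (y + 1 = n ∨ y = n) then y else 2 * n - 1 - y := by
  -- block membership is preserved
  have hBm : ∀ x, n ≤ x + (r + 1) → x < n + (r + 1) → n ≤ τ x + (r + 1) ∧ τ x < n + (r + 1) := by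
    intro x h1 h2
    have h3 := (hB x (by omega)).2 ⟨h1, h2⟩
    rw [← hlev x (by omega)] at h3
    exact (hB (τ x) (hτN x (by omega))).1 h3
  -- values on the left half (without the middle)
  have hleft : ∀ x, n ≤ x + (r + 1) → x + 1 < n → τ x = 2 * n - 1 - x := by
    by_cases hr0 : r = 0
    · intro x h1 h2; omega
    have h1 : n < τ (n - 2) := by
      have a1 := hlast (by
        rw [(hB (n - 2) (by omega)).2 (by omega), (hB n (by omega)).2 (by omega)])
      have a2 := hdec (n - 2) (by omega) (by
        rw [(hB (n - 2) (by omega)).2 (by omega), (hB (n - 2 + 1) (by omega)).2 (by omega)])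
        (by omega)
      rw [show n - 2 + 1 = n - 1 by omega] at a2
      have a3 := hmir (n - 1) (by omega)
      rw [show 2 * n - 1 - (n - 1) = n by omega] at a3
      have a4 := hτN (n - 1) (by omega)
      omega
    have hd : ∀ x, n ≤ x + (r + 1) → x + 2 < n → τ (x + 1) < τ x := by
      intro x h2 h3
      apply hdec x (by omega) _ (by omega)
      rw [(hB x (by omega)).2 (by omega), (hB (x + 1) (by omega)).2 (by omega)]
    have hlow : ∀ d x, x + d + 2 = n → n ≤ x + (r + 1) → n + 1 + d ≤ τ x := by
      intro d
      induction d with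
      | zero => intro x h2 h3; rw [show x = n - 2 by omega]; omega
      | succ d ih =>
        intro x h2 h3
        have a1 := ih (x + 1) (by omega) (by omega)
        have a2 := hd x h3 (by omega)
        omega
    have hup : ∀ d x, n + d = x + (r + 1) → x + 1 < n → τ x + d < n + (r + 1) := by
      intro d
      induction d with
      | zero => intro x h2 h3; have := hBm x (by omega) (by omega); omega
      | succ d ih =>
        intro x h2 h3
        obtain ⟨y, rfl⟩ : ∃ y, x = y + 1 := ⟨x - 1, by omega⟩
        have a1 := ih y (by omega) (by omega)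
        have a2 := hd y (by omega) (by omega)
        omega
    intro x h2 h3
    have a1 := hlow (n - 2 - x) x (by omega) h2
    have a2 := hup (x + (r + 1) - n) x (by omega) h3
    omega
  have hright : ∀ x, n < x → x < n + (r + 1) → τ x = 2 * n - 1 - x := by
    intro x h1 h2
    have a1 := hmir (2 * n - 1 - x) (by omega)
    rw [show 2 * n - 1 - (2 * n - 1 - x) = x by omega] at a1
    have a2 := hleft (2 * n - 1 - x) (by omega) (by omega)
    omega
  -- the middle
  have hmid : τ (n - 1) = n - 1 ∨ τ (n - 1) = n := by
    have a1 := hBm (n - 1) (by omega) (by omega)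
    by_contra hcon
    rcases Nat.lt_or_ge (τ (n - 1)) n with h | h
    · have a2 := hright (2 * n - 1 - τ (n - 1)) (by omega) (by omega)
      have a3 := hinj (2 * n - 1 - τ (n - 1)) (by omega) (n - 1) (by omega) (by omega)
      omega
    · have a2 := hleft (2 * n - 1 - τ (n - 1)) (by omega) (by omega)
      have a3 := hinj (2 * n - 1 - τ (n - 1)) (by omega) (n - 1) (by omega) (by omega)
      omega
  have hsum : ∑ x ∈ range n, (if n ≤ τ x then (1 : ZMod 2) else 0) =
      (r : ZMod 2) + (if n ≤ τ (n - 1) then 1 else 0) := by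
    have e1 : range n = range (n - (r + 1)) ∪ Ico (n - (r + 1)) (n - 1) ∪ {n - 1} := by
      ext x; simp only [mem_range, mem_union, mem_Ico, mem_singleton]; omega
    rw [e1, Finset.sum_union, Finset.sum_union, Finset.sum_singleton]
    · have e2 : ∑ x ∈ range (n - (r + 1)), (if n ≤ τ x then (1 : ZMod 2) else 0) = 0 := by
        apply Finset.sum_eq_zero
        intro x hx
        rw [mem_range] at hx
        rw [if_neg]
        intro h
        have a0 := hτN x (by omega)
        have a1 := hlev x (by omega)
        have a2 := hanti (2 * n - 1 - τ x) (τ x) (by omega) a0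
        rw [hsym _ a0, a1] at a2
        have a3 := hanti x (n - (r + 1)) (by omega) (by omega)
        rw [(hB (n - (r + 1)) (by omega)).2 (by omega)] at a3
        have a4 := (hB x (by omega)).1 (by omega)
        omega
      have e3 : ∑ x ∈ Ico (n - (r + 1)) (n - 1), (if n ≤ τ x then (1 : ZMod 2) else 0) = r := by
        have : ∀ x ∈ Ico (n - (r + 1)) (n - 1), (if n ≤ τ x then (1 : ZMod 2) else 0) = 1 := by
          intro x hx
          rw [mem_Ico] at hx
          rw [if_pos]
          rw [hleft x (by omega) (by omega)]; omega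
        rw [Finset.sum_congr rfl this]
        simp only [Finset.sum_const, Nat.card_Ico, nsmul_eq_mul, mul_one]
        congr 1; omega
      rw [e2, e3, zero_add]
    · rw [Finset.disjoint_left]; intro x; simp only [mem_range, mem_Ico]; omega
    · rw [Finset.disjoint_left]; intro x; simp only [mem_union, mem_range, mem_Ico, mem_singleton]
      omega
  rw [hsum] at hpar
  have hmid' : τ (n - 1) = if r % 2 = 0 then n - 1 else n := by
    split_ifs with h
    · rcases hmid with h1 | h1
      · exact h1
      · exfalso
        rw [h1, if_pos le_rfl] at hpar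
        have : (r : ZMod 2) = 0 := (ZMod.natCast_eq_zero_iff r 2).2 (Nat.dvd_of_mod_eq_zero h)
        rw [this] at hpar
        revert hpar; decide
    · rcases hmid with h1 | h1
      · exfalso
        rw [h1, if_neg (by omega), add_zero] at hpar
        have := (ZMod.natCast_eq_zero_iff r 2).1 hpar
        omega
      · exact h1
  have hmidr : τ n = if r % 2 = 0 then n else n - 1 := by
    have a1 := hmir (n - 1) (by omega)
    rw [show 2 * n - 1 - (n - 1) = n by omega] at a1
    rw [a1, hmid']
    split_ifs <;> omega
  intro y hy h0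
  have hyB := (hB y hy).1 h0
  by_cases h1 : y + 1 < n
  · rw [hleft y hyB.1 h1, if_neg (by omega)]
  by_cases h2 : n < y
  · rw [hright y h2 hyB.2, if_neg (by omega)]
  by_cases h3 : y = n
  · rw [h3, hmidr]
    split_ifs <;> omega
  · rw [show y = n - 1 by omega, hmid']
    split_ifs <;> omega

end Pool.Agent.Helper57.TM1
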