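import Pool.Agent.Helper57.TM1.TypeB

namespace Pool.Agent.Helper57.TM1

open Finset

namespace TC

def ψ (n : ℕ) (x : ℕ) : Fin n → ℤ := fun k =>
  -((if (k : ℕ) < x then 1 else 0) + (if 2 * n ≤ x + (k : ℕ) + 1 ∧ (k : ℕ) + 1 < n then 1 else 0))

def σ (n : ℕ) (j : Fin n) (x : ℕ) : ℕ :=
  if (j : ℕ) + 1 = n then (if x + 1 = n then n else if x = n then n - 1 else x)
  else (if x = (j : ℕ) then j + 1 else if x = (j : ℕ) + 1 then j else
    if x + j + 2 = 2 * n then x + 1 else if x + j + 1 = 2 * n then x - 1 else x)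

def p (n : ℕ) (j : Fin n) (x : ℕ) : ℤ :=
  if (j : ℕ) + 1 = n then (if x + 1 = n then 1 else if x = n then -1 else 0)
  else (if x = (j : ℕ) then 1 else if x = (j : ℕ) + 1 then -1 else
    if x + j + 2 = 2 * n then 1 else if x + j + 1 = 2 * n then -1 else 0)

theorem ψ_spec (n : ℕ) (x : ℕ) (k : Fin n) :
    (2 * n ≤ x + (k : ℕ) + 1 ∧ (k : ℕ) + 1 < n ∧ (k : ℕ) < x ∧ ψ n x k = -2) ∨
    ((x + (k : ℕ) + 1 < 2 * n ∨ (k : ℕ) + 1 = n) ∧ (k : ℕ) < x ∧ ψ n x k = -1) ∨
    (x ≤ (k : ℕ) ∧ ψ n x k = 0) := by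
  have hk := k.2
  unfold ψ
  split_ifs <;>
    first
    | exact Or.inl (by omega)
    | exact Or.inr (Or.inl (by omega))
    | exact Or.inr (Or.inr (by omega))

theorem σ_spec (n : ℕ) (j : Fin n) (x : ℕ) :
    ((j : ℕ) + 1 = n ∧ (x + 1 = n ∧ σ n j x = n ∧ p n j x = 1 ∨
      x = n ∧ σ n j x = n - 1 ∧ p n j x = -1 ∨
      x + 1 ≠ n ∧ x ≠ n ∧ σ n j x = x ∧ p n j x = 0)) ∨
    ((j : ℕ) + 1 < n ∧ (x = (j : ℕ) ∧ σ n j x = j + 1 ∧ p n j x = 1 ∨
      x = (j : ℕ) + 1 ∧ σ n j x = j ∧ p n j x = -1 ∨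
      x + j + 2 = 2 * n ∧ σ n j x = x + 1 ∧ p n j x = 1 ∨
      x + j + 1 = 2 * n ∧ σ n j x = x - 1 ∧ p n j x = -1 ∨
      x ≠ (j : ℕ) ∧ x ≠ (j : ℕ) + 1 ∧ x + j + 2 ≠ 2 * n ∧ x + j + 1 ≠ 2 * n ∧
        σ n j x = x ∧ p n j x = 0)) := by
  have hj := j.2
  unfold σ p
  split_ifs <;>
    first
    | exact Or.inl ⟨by omega, (Or.inl (by omega))⟩
    | exact Or.inl ⟨by omega, (Or.inr (Or.inl (by omega)))⟩
    | exact Or.inl ⟨by omega, (Or.inr (Or.inr (by omega)))⟩
    | exact Or.inr ⟨by omega, (Or.inl (by omega))⟩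
    | exact Or.inr ⟨by omega, (Or.inr (Or.inl (by omega)))⟩
    | exact Or.inr ⟨by omega, (Or.inr (Or.inr (Or.inl (by omega))))⟩
    | exact Or.inr ⟨by omega, (Or.inr (Or.inr (Or.inr (Or.inl (by omega)))))⟩
    | exact Or.inr ⟨by omega, (Or.inr (Or.inr (Or.inr (Or.inr (by omega)))))⟩

theorem M_spec (n : ℕ) (i j : Fin n) :
    ((i : ℕ) = j ∧ CartanMatrix.C n i j = 2) ∨
    ((j : ℕ) + 1 = i ∧ (i : ℕ) + 1 = n ∧ CartanMatrix.C n i j = -2) ∨
    ((j : ℕ) + 1 = i ∧ (i : ℕ) + 1 < n ∧ CartanMatrix.C n i j = -1) ∨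
    ((i : ℕ) + 1 = j ∧ CartanMatrix.C n i j = -1) ∨
    ((i : ℕ) ≠ j ∧ (i : ℕ) + 1 ≠ j ∧ (j : ℕ) + 1 ≠ i ∧ CartanMatrix.C n i j = 0) := by
  have hi := i.2
  have hj := j.2
  simp only [CartanMatrix.C, Matrix.of_apply, Fin.ext_iff]
  split_ifs <;>
    first
    | exact Or.inl (by omega)
    | exact Or.inr (Or.inl (by omega))
    | exact Or.inr (Or.inr (Or.inl (by omega)))
    | exact Or.inr (Or.inr (Or.inr (Or.inl (by omega))))
    | exact Or.inr (Or.inr (Or.inr (Or.inr (by omega))))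

theorem step (n : ℕ) (x : ℕ) (hx : x + 1 < 2 * n) :
    ∃ k : Fin n, ψ n x - ψ n (x + 1) = Pi.single k 1 ∧
      ((k : ℕ) = x ∧ x < n ∨ (k : ℕ) + x + 2 = 2 * n ∧ n ≤ x) := by
  by_cases h : x < n
  · refine ⟨⟨x, h⟩, ?_, Or.inl ⟨rfl, h⟩⟩
    ext k
    have := k.2
    have h1 := ψ_spec n x k
    have h2 := ψ_spec n (x + 1) k
    have h3 := single_spec (⟨x, h⟩ : Fin n) k
    simp only [Pi.sub_apply]
    simp only at h3
    omega
  · refine ⟨⟨2 * n - 2 - x, by omega⟩, ?_, Or.inr ⟨by simp only; omega, by omega⟩⟩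
    ext k
    have := k.2
    have h1 := ψ_spec n x k
    have h2 := ψ_spec n (x + 1) k
    have h3 := single_spec (⟨2 * n - 2 - x, by omega⟩ : Fin n) k
    simp only [Pi.sub_apply]
    simp only at h3
    omega

end TC

open TC in
/-- position model of type `C` -/
def modelC (n : ℕ) (hn : 2 ≤ n) : PosModel (CartanMatrix.C n) where
  N := 2 * n
  m := 0
  e := 0
  st := True
  mir := True
  ok x y := x ≠ y
  ψ := ψ n
  σ := σ n
  p := p n
  hM j := by simp [CartanMatrix.C]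
  hpair j x hx := by
    obtain ⟨k, hk, hk'⟩ := step n x hx
    rw [hk, pairing_single]
    have := k.2
    have := j.2
    have h1 := M_spec n k j
    have h2 := σ_spec n j x
    have h3 := σ_spec n j (x + 1)
    omega
  hσψ j x hx := by
    ext k
    have := k.2
    have := j.2
    have h1 := σ_spec n j x
    have h2 := ψ_spec n x k
    have h3 := ψ_spec n (σ n j x) k
    have h4 := mul_single_spec j k (p n j x)
    simp only [Pi.sub_apply, Pi.smul_apply, smul_eq_mul]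
    omega
  hσN j x hx := by
    have h1 := σ_spec n j x
    omega
  hσσ j x hx := by
    have h1 := σ_spec n j x
    have h2 := σ_spec n j (σ n j x)
    omega
  hσok j x y hx hy h := by
    have h1 := σ_spec n j x
    have h2 := σ_spec n j y
    omega
  hsimple j := by
    have := j.2
    refine ⟨j, j + 1, by omega, by omega, by omega, ?_⟩
    ext k
    have := k.2
    have h1 := ψ_spec n j k
    have h2 := ψ_spec n (j + 1) k
    have h3 := single_spec j k
    simp only [Pi.sub_apply]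
    omega
  hred x y hxy hy hok := by
    by_cases h : y = x + 1
    · left
      obtain ⟨k, hk, -⟩ := step n x (by omega)
      exact ⟨k, by rw [h]; exact hk⟩
    · right
      have key : ∀ (a : ℕ) (ha : a < n), (a + 1 = y ∧ y ≤ n) ∨ (a = x ∧ x + y = 2 * n ∧ n < y) ∨
          (a + y + 1 = 2 * n ∧ n < y ∧ x + y ≠ 2 * n) →
          (∃ j : Fin n, σ n j x < σ n j y ∧ σ n j y - σ n j x < y - x) := by
        intro a ha hcase
        refine ⟨⟨a, ha⟩, ?_⟩
        have h1 := σ_spec n ⟨a, ha⟩ x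
        have h2 := σ_spec n ⟨a, ha⟩ y
        simp only at h1 h2
        omega
      by_cases h1 : y ≤ n
      · exact key (y - 1) (by omega) (by omega)
      by_cases h4 : x + y = 2 * n
      · exact key x (by omega) (by omega)
      · exact key (2 * n - 1 - y) (by omega) (by omega)
  hoksym x y h := h.symm
  hokne x y h := h
  hpos x y h1 h2 h3 := by
    intro k
    have h4 := ψ_spec n x k
    have h5 := ψ_spec n y k
    simp only [Pi.sub_apply, Pi.zero_apply]
    omega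
  hneg x y h1 h2 h3 := by
    by_contra h
    by_cases hx : x < n
    · have h4 := h3 ⟨x, by omega⟩
      have h5 := ψ_spec n x ⟨x, by omega⟩
      have h6 := ψ_spec n y ⟨x, by omega⟩
      simp only [Pi.sub_apply, Pi.zero_apply] at h4 h5 h6
      omega
    · have h4 := h3 ⟨2 * n - 1 - y, by omega⟩
      have h5 := ψ_spec n x ⟨2 * n - 1 - y, by omega⟩
      have h6 := ψ_spec n y ⟨2 * n - 1 - y, by omega⟩
      simp only [Pi.sub_apply, Pi.zero_apply] at h4 h5 h6
      omega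
  hstep x hx _ := by
    obtain ⟨k, hk, -⟩ := step n x hx
    exact ⟨k, hk⟩
  hmψ _ x hx := by
    ext k
    have := k.2
    have h1 := ψ_spec n x k
    have h2 := ψ_spec n (2 * n - 1 - x) k
    have h3 := ψ_spec n 0 k
    have h4 := ψ_spec n (2 * n - 1) k
    simp only [Pi.add_apply]
    omega
  hmσ _ j x hx := by
    have h1 := σ_spec n j x
    have h2 := σ_spec n j (2 * n - 1 - x)
    omega
  hgood x y h1 h2 h3 := by omega
  hokmir _ x y h1 h2 h3 := by omega
  hle x y x' y' h1 h2 h3 h4 h5 h6 := by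
    have h3 := h3 trivial
    have h6 := h6 trivial
    unfold leP
    constructor
    · intro h
      have h7 := h ⟨x, by omega⟩
      have a1 := ψ_spec n x ⟨x, by omega⟩
      have a2 := ψ_spec n y ⟨x, by omega⟩
      have a3 := ψ_spec n x' ⟨x, by omega⟩
      have a4 := ψ_spec n y' ⟨x, by omega⟩
      simp only [Pi.sub_apply] at h7 a1 a2 a3 a4
      have h8 : x' ≤ x ∧ (x < y' ∨ 2 * n ≤ x + y' + 1) := by omega
      refine ⟨h8.1, ?_, by simp⟩
      show y ≤ y'
      by_contra hcon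
      by_cases hy' : y' < n
      · have h9 := h ⟨y', hy'⟩
        have b1 := ψ_spec n x ⟨y', hy'⟩
        have b2 := ψ_spec n y ⟨y', hy'⟩
        have b3 := ψ_spec n x' ⟨y', hy'⟩
        have b4 := ψ_spec n y' ⟨y', hy'⟩
        simp only [Pi.sub_apply] at h9 b1 b2 b3 b4
        clear h7 a1 a2 a3 a4
        omega
      · have h9 := h ⟨2 * n - 1 - y, by omega⟩
        have b1 := ψ_spec n x ⟨2 * n - 1 - y, by omega⟩
        have b2 := ψ_spec n y ⟨2 * n - 1 - y, by omega⟩
        have b3 := ψ_spec n x' ⟨2 * n - 1 - y, by omega⟩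
        have b4 := ψ_spec n y' ⟨2 * n - 1 - y, by omega⟩
        simp only [Pi.sub_apply] at h9 b1 b2 b3 b4
        clear h7 a1 a2 a3 a4
        omega
    · intro h k
      have := k.2
      have b1 := ψ_spec n x k
      have b2 := ψ_spec n y k
      have b3 := ψ_spec n x' k
      have b4 := ψ_spec n y' k
      simp only [Pi.sub_apply] at h ⊢
      have c1 : ψ n x k ≤ ψ n x' k := by clear b2 b4; omega
      have c2 : ψ n y' k ≤ ψ n y k := by clear b1 b3 c1; omega
      clear b1 b2 b3 b4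
      omega
  hm h := absurd rfl h
  hstm _ := trivial
  hem _ := by omega

end Pool.Agent.Helper57.TM1
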