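import Pool.Agent.Helper57.TM1.TypeA
import Pool.Agent.Helper57.TM1.TypeB
import Pool.Agent.Helper57.TM1.TypeC
import Pool.Agent.Helper57.TM1.DParity

namespace Pool.Agent.Helper57.TM1

open Finset

/-- the desired equality for a labelling and an element `w` -/
def EqAt {n : ℕ} (M : Matrix (Fin n) (Fin n) ℤ) (ℓ : Fin n → ℕ)
    (w : Module.End ℤ (Fin n → ℤ)) : Prop :=
  (idealPoly M ℓ).eval (-1) =
    ({I | I ∈ UpperIdeals M ℓ ∧ Delta1 M ℓ \ (w '' I) = I}.ncard : ℤ)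

theorem anti_of_step {n : ℕ} {M : Matrix (Fin n) (Fin n) ℤ} (P : PosModel M) (ℓ : Fin n → ℕ)
    (K : ℤ) (x : ℕ) (hx : x + 1 < P.N) (hm : x + 1 ≠ P.m) :
    P.lev ℓ K (x + 1) ≤ P.lev ℓ K x := by
  obtain ⟨k, hk⟩ := P.hstep x hx hm
  have h := P.lev_sub ℓ K x (x + 1)
  rw [hk, deg_single] at h
  have : (0 : ℤ) ≤ ℓ k := Int.natCast_nonneg _
  omega

theorem A_eq (n : ℕ) (hn : 1 ≤ n) (ℓ : Fin n → ℕ) (w : Module.End ℤ (Fin n → ℤ))
    (hw : IsLongest (CartanMatrix.A n) ℓ w) : EqAt (CartanMatrix.A n) ℓ w := by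
  apply (modelA n hn).main ℓ (-2 * deg ℓ ((modelA n hn).ψ n))
  · intro x hx
    exact anti_of_step _ ℓ _ x hx (by show x + 1 ≠ 0; omega)
  · intro h; exact h.elim
  · intro _ x hx
    unfold PosModel.lev
    have h1 : x < n + 1 := hx
    have h2 : 0 ≤ deg ℓ ((modelA n hn).ψ x - (modelA n hn).ψ n) := by
      by_cases hxn : x = n
      · rw [hxn, sub_self]; exact deg_nonneg _ _ le_rfl
      · exact deg_nonneg _ _ ((modelA n hn).hpos x n (by omega) (by show n < n + 1; omega)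
          (by show x ≠ n; exact hxn))
    rw [deg_sub] at h2
    omega
  · intro _ x hx
    unfold PosModel.lev
    intro h
    omega
  · exact hw
  · intro h; exact absurd rfl h

theorem B_eq (n : ℕ) (hn : 2 ≤ n) (ℓ : Fin n → ℕ) (w : Module.End ℤ (Fin n → ℤ))
    (hw : IsLongest (CartanMatrix.B n) ℓ w) : EqAt (CartanMatrix.B n) ℓ w := by
  have hend : (modelB n hn).ψ 0 + (modelB n hn).ψ ((modelB n hn).N - 1) =
      (-2 : ℤ) • (fun _ => (1 : ℤ)) := by
    ext k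
    have hk := k.2
    show TB.ψ n 0 k + TB.ψ n (2 * n + 1 - 1) k = -2 * 1
    simp only [TB.ψ]
    split_ifs <;> omega
  apply (modelB n hn).main ℓ (- deg ℓ ((modelB n hn).ψ 0 + (modelB n hn).ψ ((modelB n hn).N - 1)))
  · intro x hx
    exact anti_of_step _ ℓ _ x hx (by show x + 1 ≠ 0; omega)
  · intro _; ring
  · intro h; exact absurd trivial h
  · intro _ x hx
    unfold PosModel.lev
    rw [hend, deg_smul]
    omega
  · exact hw
  · intro h; exact absurd rfl h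

theorem C_eq (n : ℕ) (hn : 2 ≤ n) (ℓ : Fin n → ℕ) (w : Module.End ℤ (Fin n → ℤ))
    (hw : IsLongest (CartanMatrix.C n) ℓ w) : EqAt (CartanMatrix.C n) ℓ w := by
  apply (modelC n hn).main ℓ (- deg ℓ ((modelC n hn).ψ 0 + (modelC n hn).ψ ((modelC n hn).N - 1)))
  · intro x hx
    exact anti_of_step _ ℓ _ x hx (by show x + 1 ≠ 0; omega)
  · intro _; ring
  · intro h; exact absurd trivial h
  · intro h; exact absurd trivial h
  · exact hw
  · intro h; exact absurd rfl h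

theorem D_eq_aux (n : ℕ) (hn : 3 ≤ n) (ℓ : Fin n → ℕ)
    (hℓ : ℓ ⟨n - 2, by omega⟩ ≤ ℓ ⟨n - 1, by omega⟩) (w : Module.End ℤ (Fin n → ℤ))
    (hw : IsLongest (CartanMatrix.D n) ℓ w) : EqAt (CartanMatrix.D n) ℓ w := by
  set P := modelD n hn with hP
  have hN : P.N = 2 * n := rfl
  have hm : P.m = n := rfl
  set K : ℤ := - deg ℓ (P.ψ 0 + P.ψ (P.N - 1)) with hK
  have hanti : ∀ x, x + 1 < P.N → P.lev ℓ K (x + 1) ≤ P.lev ℓ K x := by
    intro x hx
    by_cases h : x + 1 = n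
    · have h1 := P.lev_sub ℓ K x (x + 1)
      have h2 : P.ψ x - P.ψ (x + 1) = Pi.single ⟨n - 1, by omega⟩ 1 -
          Pi.single ⟨n - 2, by omega⟩ 1 := TD.midstep' n hn x (x + 1) h h
      rw [h2, deg_sub, deg_single, deg_single] at h1
      have : (ℓ ⟨n - 2, by omega⟩ : ℤ) ≤ ℓ ⟨n - 1, by omega⟩ := by exact_mod_cast hℓ
      omega
    · exact anti_of_step _ ℓ _ x hx (by show x + 1 ≠ n; exact h)
  have hsym : ∀ x < 2 * n, P.lev ℓ K (2 * n - 1 - x) = - P.lev ℓ K x := by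
    intro x hx
    have h1 : P.ψ x + P.ψ (2 * n - 1 - x) = P.ψ 0 + P.ψ (P.N - 1) := P.hmψ trivial x hx
    unfold PosModel.lev
    rw [hK, ← h1, deg_add]
    ring
  apply P.main ℓ K hanti
  · intro _; rw [hK]; ring
  · intro h; exact absurd trivial h
  · intro h; exact absurd trivial h
  · exact hw
  · intro _ l hl hneg r hB hr
    rw [hm] at hr hB ⊢
    rw [hN] at hB ⊢
    have hanti' := anti_le P.N (P.lev ℓ K) hanti
    apply D_formula n hn (P.lev ℓ K) (P.tau l) hanti' hsym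
      (fun x hx => P.tau_lt l x hx) (fun x hx y hy h => P.tau_inj l x y hx hy h)
      (fun x hx => P.tau_mir trivial l x hx) (fun x hx => P.tau_lev ℓ K l hl x hx)
    · intro x hx h1 h2
      obtain ⟨k, hk⟩ := P.hstep x hx h2
      have h3 := P.lev_sub ℓ K x (x + 1)
      rw [hk, deg_single, h1, sub_self] at h3
      have h4 : ℓ k = 0 := by omega
      have h5 := hneg k h4
      rw [← hk, P.wp_sub l x (x + 1) (by omega) hx] at h5
      have h6 := P.hneg _ _ (P.tau_lt l x (by omega)) (P.tau_lt l (x + 1) hx) h5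
      have h7 : P.tau l (x + 1) ≠ P.tau l x := fun h => by
        have := P.tau_inj l _ _ hx (by omega) h
        omega
      omega
    · intro h1
      have hk : P.ψ (n - 2) - P.ψ n = Pi.single ⟨n - 1, by omega⟩ 1 := TD.laststep n hn
      have h3 := P.lev_sub ℓ K (n - 2) n
      rw [hk, deg_single, h1, sub_self] at h3
      have h4 : ℓ ⟨n - 1, by omega⟩ = 0 := by omega
      have h5 := hneg _ h4
      rw [← hk, P.wp_sub l (n - 2) n (by omega) (by omega)] at h5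
      have h6 := P.hneg _ _ (P.tau_lt l (n - 2) (by omega)) (P.tau_lt l n (by omega)) h5
      have h7 : P.tau l n ≠ P.tau l (n - 2) := fun h => by
        have := P.tau_inj l _ _ (by omega) (by omega) h
        omega
      omega
    · exact parity_sum n hn l
    · exact hB
    · exact hr

/-! ### Transport along a diagram automorphism -/

section Transport

variable {n : ℕ} (M : Matrix (Fin n) (Fin n) ℤ) (π : Fin n → Fin n)
  (hπ : ∀ i, π (π i) = i) (hMπ : ∀ i j, M (π i) (π j) = M i j)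

/-- coordinate permutation -/
def tr : (Fin n → ℤ) →ₗ[ℤ] (Fin n → ℤ) := LinearMap.funLeft ℤ ℤ π

theorem tr_apply (c : Fin n → ℤ) (i : Fin n) : tr π c i = c (π i) := rfl

include hπ in
theorem tr_tr (c : Fin n → ℤ) : tr π (tr π c) = c := by
  ext i; rw [tr_apply, tr_apply, hπ]

include hπ in
theorem tr_single (j : Fin n) : tr π (Pi.single j 1) = Pi.single (π j) 1 := by
  ext i
  rw [tr_apply, Pi.single_apply, Pi.single_apply]
  have : π i = j ↔ i = π j := by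
    constructor
    · rintro rfl; rw [hπ]
    · rintro rfl; rw [hπ]
  simp only [this]

include hπ in
theorem sum_reindex (f : Fin n → ℤ) : ∑ i, f (π i) = ∑ i, f i :=
  Equiv.sum_comp (Function.Involutive.toPerm π hπ) f

include hπ hMπ in
theorem tr_sRefl (j : Fin n) (c : Fin n → ℤ) :
    tr π (sRefl M j c) = sRefl M (π j) (tr π c) := by
  rw [sRefl_apply, sRefl_apply, map_sub, map_smul, tr_single π hπ]
  congr 2
  show ∑ i, c i * M i j = ∑ i, c (π i) * M i (π j)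
  rw [← sum_reindex π hπ (fun i => c i * M i j)]
  apply Finset.sum_congr rfl
  intro i _
  rw [← hMπ (π i) j, hπ]

include hπ hMπ in
theorem tr_wp (l : List (Fin n)) (c : Fin n → ℤ) :
    tr π (wp M l c) = wp M (l.map π) (tr π c) := by
  induction l with
  | nil => rfl
  | cons j l ih =>
    rw [List.map_cons, wp_cons, wp_cons]
    show tr π (sRefl M j (wp M l c)) = sRefl M (π j) (wp M (l.map π) (tr π c))
    rw [tr_sRefl M π hπ hMπ, ih]

include hπ hMπ in
theorem tr_root {γ : Fin n → ℤ} (hγ : γ ∈ rootSet M) : tr π γ ∈ rootSet M := by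
  obtain ⟨w, hw, j, rfl⟩ := hγ
  obtain ⟨l, -, rfl⟩ := (mem_weyl_iff M _ _).1 hw
  rw [tr_wp M π hπ hMπ, tr_single π hπ]
  exact ⟨wp M (l.map π), wp_mem M _ _ (fun _ _ => Set.mem_univ _), π j, rfl⟩

include hπ in
theorem tr_deg (ℓ : Fin n → ℕ) (c : Fin n → ℤ) : deg (ℓ ∘ π) (tr π c) = deg ℓ c := by
  unfold deg
  exact sum_reindex π hπ (fun i => c i * (ℓ i : ℤ))

theorem tr_le_iff (hπ : ∀ i, π (π i) = i) (a b : Fin n → ℤ) : tr π a ≤ tr π b ↔ a ≤ b := by
  constructor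
  · intro h i
    have := h (π i)
    rwa [tr_apply, tr_apply, hπ] at this
  · intro h i; exact h (π i)

include hπ hMπ in
theorem transport_eq (hM : ∀ j, M j j = 2) (hfin : (rootSet M).Finite) (ℓ : Fin n → ℕ)
    (hall : ∀ w, IsLongest M (ℓ ∘ π) w → EqAt M (ℓ ∘ π) w)
    (w : Module.End ℤ (Fin n → ℤ)) (hw : IsLongest M ℓ w) : EqAt M ℓ w := by
  classical
  obtain ⟨hwJ, hneg⟩ := hw
  obtain ⟨l, hl, rfl⟩ := (mem_weyl_iff M _ _).1 hwJ
  have hl' : ∀ j ∈ l.map π, j ∈ {j | (ℓ ∘ π) j = 0} := by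
    intro j hj
    obtain ⟨i, hi, rfl⟩ := List.mem_map.1 hj
    show ℓ (π (π i)) = 0
    rw [hπ]; exact hl i hi
  have hw' : IsLongest M (ℓ ∘ π) (wp M (l.map π)) := by
    refine ⟨wp_mem M _ _ hl', ?_⟩
    intro j hj
    have h1 := hneg (π j) hj
    have h2 : wp M (l.map π) (Pi.single j 1) = tr π (wp M l (Pi.single (π j) 1)) := by
      rw [tr_wp M π hπ hMπ, tr_single π hπ, hπ]
    rw [h2]
    have h3 := (tr_le_iff π hπ _ 0).2 h1
    rwa [map_zero] at h3
  have h := hall _ hw'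
  unfold EqAt at h ⊢
  have hf1 : (Delta1 M ℓ).Finite := hfin.subset (fun γ h => h.1)
  have hf2 : (Delta1 M (ℓ ∘ π)).Finite := hfin.subset (fun γ h => h.1)
  rw [idealPoly_eval M _ hf2, selfdual_ncard M hM _ hf2 _ (wp_mem M _ _ hl')] at h
  rw [idealPoly_eval M _ hf1, selfdual_ncard M hM _ hf1 _ (wp_mem M _ _ hl)]
  have himg : hf2.toFinset = hf1.toFinset.image (tr π) := by
    ext γ
    rw [Set.Finite.mem_toFinset, mem_image]
    constructor
    · rintro ⟨h1, h2⟩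
      refine ⟨tr π γ, ?_, tr_tr π hπ γ⟩
      rw [Set.Finite.mem_toFinset]
      refine ⟨tr_root M π hπ hMπ h1, ?_⟩
      rw [← tr_deg π hπ ℓ, tr_tr π hπ]; exact h2
    · rintro ⟨δ, hδ, rfl⟩
      rw [Set.Finite.mem_toFinset] at hδ
      exact ⟨tr_root M π hπ hMπ hδ.1, by rw [tr_deg π hπ]; exact hδ.2⟩
  have hinj : ∀ p ∈ hf1.toFinset, ∀ q ∈ hf1.toFinset, tr π p = tr π q → p = q := by
    intro p _ q _ hpq
    rw [← tr_tr π hπ p, hpq, tr_tr π hπ]
  have hle : ∀ p ∈ hf1.toFinset, ∀ q ∈ hf1.toFinset, (p ≤ q ↔ tr π p ≤ tr π q) :=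
    fun p _ q _ => (tr_le_iff π hπ p q).symm
  rw [himg, Mm_image (· ≤ ·) (· ≤ ·) (tr π) hf1.toFinset hinj hle,
    SD_image (· ≤ ·) (· ≤ ·) (tr π) hf1.toFinset (wp M l) (wp M (l.map π)) hinj hle] at h
  · exact h
  · intro p hp
    rw [Set.Finite.mem_toFinset] at hp ⊢
    exact weyl_Delta1 M ℓ _ (wp_mem M _ _ hl) hp
  · intro p _
    exact (tr_wp M π hπ hMπ l p).symm

end Transport

/-- the exchange of the last two nodes -/
def swapD (n : ℕ) (hn : 3 ≤ n) (i : Fin n) : Fin n :=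
  if (i : ℕ) + 1 = n then ⟨n - 2, by omega⟩ else if (i : ℕ) + 2 = n then ⟨n - 1, by omega⟩ else i

theorem swapD_val (n : ℕ) (hn : 3 ≤ n) (i : Fin n) : ((swapD n hn i : Fin n) : ℕ) =
    if (i : ℕ) + 1 = n then n - 2 else if (i : ℕ) + 2 = n then n - 1 else i := by
  unfold swapD; split_ifs <;> rfl

theorem swapD_spec (n : ℕ) (hn : 3 ≤ n) (i : Fin n) :
    ((i : ℕ) + 1 = n ∧ ((swapD n hn i : Fin n) : ℕ) = n - 2) ∨
    ((i : ℕ) + 2 = n ∧ ((swapD n hn i : Fin n) : ℕ) = n - 1) ∨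
    ((i : ℕ) + 1 ≠ n ∧ (i : ℕ) + 2 ≠ n ∧ ((swapD n hn i : Fin n) : ℕ) = i) := by
  rw [swapD_val]
  split_ifs with h1 h2
  · exact Or.inl ⟨h1, rfl⟩
  · exact Or.inr (Or.inl ⟨h2, rfl⟩)
  · exact Or.inr (Or.inr ⟨h1, h2, rfl⟩)

theorem swapD_swapD (n : ℕ) (hn : 3 ≤ n) (i : Fin n) : swapD n hn (swapD n hn i) = i := by
  apply Fin.ext
  have hi := i.2
  have h1 := swapD_val n hn i
  rw [swapD_val]
  split_ifs at h1 ⊢ <;> omega

theorem swapD_D (n : ℕ) (hn : 3 ≤ n) (i j : Fin n) :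
    CartanMatrix.D n (swapD n hn i) (swapD n hn j) = CartanMatrix.D n i j := by
  have hi := i.2
  have hj := j.2
  have h1 := swapD_spec n hn i
  have h2 := swapD_spec n hn j
  have h3 := TD.M_spec n hn i j
  have h4 := TD.M_spec n hn (swapD n hn i) (swapD n hn j)
  generalize CartanMatrix.D n (swapD n hn i) (swapD n hn j) = u at *
  generalize CartanMatrix.D n i j = v at *
  generalize ((swapD n hn i : Fin n) : ℕ) = a at *
  generalize ((swapD n hn j : Fin n) : ℕ) = b at *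
  generalize (i : ℕ) = i at *
  generalize (j : ℕ) = j at *
  rcases h1 with ⟨c1, rfl⟩ | ⟨c1, rfl⟩ | ⟨c1, c1', rfl⟩ <;>
  rcases h2 with ⟨c2, rfl⟩ | ⟨c2, rfl⟩ | ⟨c2, c2', rfl⟩ <;> omega

theorem D_eq (n : ℕ) (hn : 3 ≤ n) (ℓ : Fin n → ℕ) (w : Module.End ℤ (Fin n → ℤ))
    (hw : IsLongest (CartanMatrix.D n) ℓ w) : EqAt (CartanMatrix.D n) ℓ w := by
  by_cases hℓ : ℓ ⟨n - 2, by omega⟩ ≤ ℓ ⟨n - 1, by omega⟩
  · exact D_eq_aux n hn ℓ hℓ w hw
  · apply transport_eq (CartanMatrix.D n) (swapD n hn) (swapD_swapD n hn) (swapD_D n hn)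
      (modelD n hn).hM (modelD n hn).finite ℓ _ w hw
    intro w' hw'
    apply D_eq_aux n hn _ _ w' hw'
    have h1 : swapD n hn ⟨n - 2, by omega⟩ = ⟨n - 1, by omega⟩ := by
      apply Fin.ext; rw [swapD_val]; simp only; split_ifs <;> omega
    have h2 : swapD n hn ⟨n - 1, by omega⟩ = ⟨n - 2, by omega⟩ := by
      apply Fin.ext; rw [swapD_val]; simp only; split_ifs <;> omega
    show ℓ (swapD n hn ⟨n - 2, by omega⟩) ≤ ℓ (swapD n hn ⟨n - 1, by omega⟩)
    rw [h1, h2]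
    omega

end Pool.Agent.Helper57.TM1
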