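import Mathlib

/-!
Combinatorics of upper sets of finite sets with a relation `le`:
signed count `Mm`, self-dual count `SD`, and recursions for both.
-/

namespace Pool.Agent.Helper57.TM1

open Finset Classical

variable {α : Type*}

/-- upper subsets of `S` -/
noncomputable def UI (le : α → α → Prop) (S : Finset α) : Finset (Finset α) :=
  S.powerset.filter (fun I => ∀ p ∈ I, ∀ q ∈ S, le p q → q ∈ I)

/-- signed count -/
noncomputable def Mm (le : α → α → Prop) (S : Finset α) : ℤ := ∑ I ∈ UI le S, (-1 : ℤ) ^ I.card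

/-- self-dual upper subsets of `S` -/
noncomputable def SDs (le : α → α → Prop) (c : α → α) (S : Finset α) : Finset (Finset α) :=
  (UI le S).filter (fun I => ∀ p ∈ S, (c p ∈ I ↔ p ∉ I))

/-- number of self-dual upper subsets -/
noncomputable def SD (le : α → α → Prop) (c : α → α) (S : Finset α) : ℕ := (SDs le c S).card

theorem mem_UI {le : α → α → Prop} {S I : Finset α} :
    I ∈ UI le S ↔ I ⊆ S ∧ ∀ p ∈ I, ∀ q ∈ S, le p q → q ∈ I := by
  simp [UI]

theorem mem_SDs {le : α → α → Prop} {c : α → α} {S I : Finset α} :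
    I ∈ SDs le c S ↔ (I ⊆ S ∧ ∀ p ∈ I, ∀ q ∈ S, le p q → q ∈ I) ∧
      ∀ p ∈ S, (c p ∈ I ↔ p ∉ I) := by
  simp [SDs, mem_UI]

theorem UI_empty (le : α → α → Prop) : UI le (∅ : Finset α) = {∅} := by
  ext I; simp only [mem_UI, Finset.mem_singleton, Finset.subset_empty]
  constructor
  · rintro ⟨h, -⟩; exact h
  · rintro rfl; simp

theorem Mm_empty (le : α → α → Prop) : Mm le (∅ : Finset α) = 1 := by
  simp [Mm, UI_empty]

theorem SD_empty (le : α → α → Prop) (c : α → α) : SD le c (∅ : Finset α) = 1 := by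
  simp [SD, SDs, UI_empty]

theorem SD_congr {le le' : α → α → Prop} {c c' : α → α} {S : Finset α}
    (hle : ∀ p ∈ S, ∀ q ∈ S, (le p q ↔ le' p q)) (hc : ∀ p ∈ S, c p = c' p) :
    SD le c S = SD le' c' S := by
  unfold SD
  congr 1
  ext I
  simp only [mem_SDs]
  constructor
  · rintro ⟨⟨h1, h2⟩, h3⟩
    refine ⟨⟨h1, fun p hp q hq hpq => h2 p hp q hq ((hle p (h1 hp) q hq).2 hpq)⟩, fun p hp => ?_⟩
    rw [← hc p hp]; exact h3 p hp
  · rintro ⟨⟨h1, h2⟩, h3⟩
    refine ⟨⟨h1, fun p hp q hq hpq => h2 p hp q hq ((hle p (h1 hp) q hq).1 hpq)⟩, fun p hp => ?_⟩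
    rw [hc p hp]; exact h3 p hp

theorem Mm_congr {le le' : α → α → Prop} {S : Finset α}
    (hle : ∀ p ∈ S, ∀ q ∈ S, (le p q ↔ le' p q)) :
    Mm le S = Mm le' S := by
  unfold Mm
  congr 1
  ext I
  simp only [mem_UI]
  constructor
  · rintro ⟨h1, h2⟩
    exact ⟨h1, fun p hp q hq hpq => h2 p hp q hq ((hle p (h1 hp) q hq).2 hpq)⟩
  · rintro ⟨h1, h2⟩
    exact ⟨h1, fun p hp q hq hpq => h2 p hp q hq ((hle p (h1 hp) q hq).1 hpq)⟩

/-- Fundamental recursion for the signed count. -/
theorem Mm_rec (le : α → α → Prop) (hr : ∀ a, le a a)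
    (ht : ∀ a b c, le a b → le b c → le a c) (S : Finset α) (p : α) (hp : p ∈ S) :
    Mm le S = Mm le (S.filter (fun q => ¬ le q p)) +
      (-1) ^ (S.filter (fun q => le p q)).card * Mm le (S.filter (fun q => ¬ le p q)) := by
  unfold Mm
  rw [← Finset.sum_filter_add_sum_filter_not (UI le S) (fun I => p ∉ I)]
  congr 1
  · apply Finset.sum_congr _ (fun _ _ => rfl)
    ext I
    simp only [Finset.mem_filter, mem_UI]
    constructor
    · rintro ⟨⟨h1, h2⟩, h3⟩
      refine ⟨fun q hq => ?_, fun q hq q' hq' hle => ?_⟩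
      · exact Finset.mem_filter.2 ⟨h1 hq, fun hle => h3 (h2 q hq p hp hle)⟩
      · exact h2 q hq q' hq'.1 hle
    · rintro ⟨h1, h2⟩
      refine ⟨⟨fun q hq => (Finset.mem_filter.1 (h1 hq)).1, fun q hq q' hq' hle => ?_⟩, fun h => ?_⟩
      · exact h2 q hq q' ⟨hq', fun h => (Finset.mem_filter.1 (h1 hq)).2 (ht _ _ _ hle h)⟩ hle
      · exact (Finset.mem_filter.1 (h1 h)).2 (hr p)
  · rw [Finset.mul_sum]
    refine Finset.sum_bij' (fun I _ => I.filter (fun q => ¬ le p q))
      (fun J _ => J ∪ S.filter (fun q => le p q)) ?_ ?_ ?_ ?_ ?_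
    · intro I hI
      simp only [Finset.mem_filter, mem_UI, not_not] at hI ⊢
      obtain ⟨⟨h1, h2⟩, h3⟩ := hI
      refine ⟨fun q hq => ?_, fun q hq q' hq' hle => ?_⟩
      · simp only [Finset.mem_filter] at hq ⊢
        exact ⟨h1 hq.1, hq.2⟩
      · exact ⟨h2 q hq.1 q' hq'.1 hle, hq'.2⟩
    · intro J hJ
      simp only [Finset.mem_filter, mem_UI, not_not] at hJ ⊢
      obtain ⟨h1, h2⟩ := hJ
      refine ⟨⟨?_, fun q hq q' hq' hle => ?_⟩, ?_⟩
      · apply Finset.union_subset (h1.trans (Finset.filter_subset _ _)) (Finset.filter_subset _ _)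
      · simp only [Finset.mem_union, Finset.mem_filter] at hq ⊢
        by_cases h : le p q'
        · exact Or.inr ⟨hq', h⟩
        · rcases hq with hq | hq
          · exact Or.inl (h2 q hq q' ⟨hq', h⟩ hle)
          · exact absurd (ht _ _ _ hq.2 hle) h
      · simp only [Finset.mem_union, Finset.mem_filter]
        exact Or.inr ⟨hp, hr p⟩
    · intro I hI
      simp only [Finset.mem_filter, mem_UI, not_not] at hI
      obtain ⟨⟨h1, h2⟩, h3⟩ := hI
      ext q
      simp only [Finset.mem_union, Finset.mem_filter]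
      constructor
      · rintro (h | h)
        · exact h.1
        · exact h2 p h3 q h.1 h.2
      · intro h
        by_cases hh : le p q
        · exact Or.inr ⟨h1 h, hh⟩
        · exact Or.inl ⟨h, hh⟩
    · intro J hJ
      simp only [Finset.mem_filter, mem_UI, not_not] at hJ
      obtain ⟨h1, h2⟩ := hJ
      ext q
      simp only [Finset.mem_union, Finset.mem_filter]
      constructor
      · rintro ⟨h | h, h'⟩
        · exact h
        · exact absurd h.2 h'
      · intro h
        exact ⟨Or.inl h, (Finset.mem_filter.1 (h1 h)).2⟩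
    · intro I hI
      simp only [Finset.mem_filter, mem_UI, not_not] at hI
      obtain ⟨⟨h1, h2⟩, h3⟩ := hI
      rw [← pow_add]
      congr 1
      have : I.card = (I.filter (fun q => le p q)).card + (I.filter (fun q => ¬ le p q)).card :=
        (Finset.card_filter_add_card_filter_not _).symm
      rw [this]
      congr 2
      ext q
      simp only [Finset.mem_filter]
      constructor
      · rintro ⟨h, h'⟩; exact ⟨h1 h, h'⟩
      · rintro ⟨h, h'⟩; exact ⟨h2 p h3 q h h', h'⟩

/-- `c` acts on `S` as an order-reversing involution. -/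
structure Rev (le : α → α → Prop) (c : α → α) (S : Finset α) : Prop where
  maps : ∀ p ∈ S, c p ∈ S
  inv : ∀ p ∈ S, c (c p) = p
  rev : ∀ p ∈ S, ∀ q ∈ S, le p q → le (c q) (c p)

theorem SD_half (le : α → α → Prop) (hr : ∀ a, le a a)
    (ht : ∀ a b c, le a b → le b c → le a c) (c : α → α) (S : Finset α)
    (hc : Rev le c S) (p : α) (hp : p ∈ S) :
    ((SDs le c S).filter (fun I => p ∉ I)).card =
      if le (c p) p then 0 else
        SD le c (S.filter (fun q => ¬ le q p ∧ ¬ le (c p) q)) := by
  split_ifs with hcp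
  · rw [Finset.card_eq_zero, Finset.filter_eq_empty_iff]
    intro I hI
    rw [mem_SDs] at hI
    rw [not_not]
    by_contra h
    exact h (hI.1.2 (c p) ((hI.2 p hp).2 h) p hp hcp)
  · unfold SD
    refine Finset.card_bij' (fun I _ => I.filter (fun q => ¬ le (c p) q))
      (fun J _ => J ∪ S.filter (fun q => le (c p) q)) ?_ ?_ ?_ ?_
    · intro I hI
      simp only [Finset.mem_filter, mem_SDs] at hI ⊢
      obtain ⟨⟨⟨h1, h2⟩, h3⟩, h4⟩ := hI
      refine ⟨⟨fun q hq => ?_, fun q hq q' hq' hle => ?_⟩, fun q hq => ?_⟩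
      · simp only [Finset.mem_filter] at hq ⊢
        exact ⟨h1 hq.1, fun hle => h4 (h2 q hq.1 p hp hle), hq.2⟩
      · exact ⟨h2 q hq.1 q' hq'.1 hle, hq'.2.2⟩
      · have h5 : ¬ le (c p) (c q) := by
          intro h
          have := hc.rev (c p) (hc.maps p hp) (c q) (hc.maps q hq.1) h
          rw [hc.inv p hp, hc.inv q hq.1] at this
          exact hq.2.1 this
        have h6 := h3 q hq.1
        constructor
        · rintro ⟨h, -⟩ ⟨h', -⟩
          exact (h6.1 h) h'
        · intro h
          refine ⟨h6.2 (fun h' => h ⟨h', hq.2.2⟩), h5⟩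
    · intro J hJ
      simp only [Finset.mem_filter, mem_SDs] at hJ ⊢
      obtain ⟨⟨h1, h2⟩, h3⟩ := hJ
      refine ⟨⟨⟨?_, fun q hq q' hq' hle => ?_⟩, fun q hq => ?_⟩, ?_⟩
      · apply Finset.union_subset (h1.trans (Finset.filter_subset _ _)) (Finset.filter_subset _ _)
      · simp only [Finset.mem_union, Finset.mem_filter] at hq ⊢
        by_cases h : le (c p) q'
        · exact Or.inr ⟨hq', h⟩
        · rcases hq with hq | hq
          · refine Or.inl (h2 q hq q' ⟨hq', fun h' => ?_, h⟩ hle)
            exact (Finset.mem_filter.1 (h1 hq)).2.1 (ht _ _ _ hle h')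
          · exact absurd (ht _ _ _ hq.2 hle) h
      · simp only [Finset.mem_union, Finset.mem_filter]
        have hcq := hc.maps q hq
        by_cases ha : le q p
        · -- c q ≥ c p, q not in
          have h5 : le (c p) (c q) := hc.rev q hq p hp ha
          constructor
          · intro _
            rintro (h | h)
            · exact (Finset.mem_filter.1 (h1 h)).2.1 ha
            · exact hcp (ht _ _ _ h.2 ha)
          · intro _; exact Or.inr ⟨hcq, h5⟩
        · by_cases hb : le (c p) q
          · have h5 : le (c q) p := by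
              have := hc.rev (c p) (hc.maps p hp) q hq hb
              rwa [hc.inv p hp] at this
            constructor
            · rintro (h | h)
              · exact absurd h5 (Finset.mem_filter.1 (h1 h)).2.1
              · exact absurd (ht _ _ _ h.2 h5) hcp
            · intro h
              exact absurd (Or.inr ⟨hq, hb⟩) h
          · have h5 : ¬ le (c p) (c q) := by
              intro h
              have := hc.rev (c p) (hc.maps p hp) (c q) hcq h
              rw [hc.inv p hp, hc.inv q hq] at this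
              exact ha this
            have h6 := h3 q ⟨hq, ha, hb⟩
            constructor
            · rintro (h | h)
              · rintro (h' | h')
                · exact h6.1 h h'
                · exact hb h'.2
              · exact absurd h.2 h5
            · intro h
              exact Or.inl (h6.2 (fun h' => h (Or.inl h')))
      · simp only [Finset.mem_union, Finset.mem_filter]
        rintro (h | h)
        · exact (Finset.mem_filter.1 (h1 h)).2.1 (hr p)
        · exact hcp h.2
    · intro I hI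
      simp only [Finset.mem_filter, mem_SDs] at hI
      obtain ⟨⟨⟨h1, h2⟩, h3⟩, h4⟩ := hI
      ext q
      simp only [Finset.mem_union, Finset.mem_filter]
      constructor
      · rintro (h | h)
        · exact h.1
        · exact h2 (c p) ((h3 p hp).2 h4) q h.1 h.2
      · intro h
        by_cases hh : le (c p) q
        · exact Or.inr ⟨h1 h, hh⟩
        · exact Or.inl ⟨h, hh⟩
    · intro J hJ
      simp only [mem_SDs] at hJ
      obtain ⟨⟨h1, h2⟩, h3⟩ := hJ
      ext q
      simp only [Finset.mem_union, Finset.mem_filter]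
      constructor
      · rintro ⟨h | h, h'⟩
        · exact h
        · exact absurd h.2 h'
      · intro h
        exact ⟨Or.inl h, (Finset.mem_filter.1 (h1 h)).2.2⟩

/-- Fundamental recursion for the self-dual count. -/
theorem SD_rec (le : α → α → Prop) (hr : ∀ a, le a a)
    (ht : ∀ a b c, le a b → le b c → le a c) (c : α → α) (S : Finset α)
    (hc : Rev le c S) (p : α) (hp : p ∈ S) :
    SD le c S = (if le (c p) p then 0 else
        SD le c (S.filter (fun q => ¬ le q p ∧ ¬ le (c p) q))) +
      (if le p (c p) then 0 else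
        SD le c (S.filter (fun q => ¬ le q (c p) ∧ ¬ le p q))) := by
  have h1 := SD_half le hr ht c S hc p hp
  have h2 := SD_half le hr ht c S hc (c p) (hc.maps p hp)
  rw [hc.inv p hp] at h2
  rw [← h1, ← h2]
  have h3 : (SDs le c S).filter (fun I => c p ∉ I) = (SDs le c S).filter (fun I => ¬ (p ∉ I)) := by
    apply Finset.filter_congr
    intro I hI
    rw [mem_SDs] at hI
    have := hI.2 p hp
    tauto
  rw [h3, Finset.card_filter_add_card_filter_not]
  rfl

theorem SD_fixed (le : α → α → Prop) (c : α → α) (S : Finset α) (p : α) (hp : p ∈ S)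
    (h : c p = p) : SD le c S = 0 := by
  unfold SD
  rw [Finset.card_eq_zero, Finset.eq_empty_iff_forall_notMem]
  intro I hI
  rw [mem_SDs] at hI
  have := hI.2 p hp
  rw [h] at this
  tauto

/-- Multiplicativity of the signed count. -/
theorem Mm_union [DecidableEq α] (le : α → α → Prop) (S T : Finset α) (hd : Disjoint S T)
    (h1 : ∀ p ∈ S, ∀ q ∈ T, ¬ le p q) (h2 : ∀ p ∈ T, ∀ q ∈ S, ¬ le p q) :
    Mm le (S ∪ T) = Mm le S * Mm le T := by
  unfold Mm
  rw [Finset.sum_mul_sum, ← Finset.sum_product']
  rw [Finset.disjoint_left] at hd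
  refine Finset.sum_bij' (fun I _ => (I ∩ S, I ∩ T)) (fun J _ => J.1 ∪ J.2) ?_ ?_ ?_ ?_ ?_
  · intro I hI
    simp only [Finset.mem_product, mem_UI] at hI ⊢
    obtain ⟨ha, hb⟩ := hI
    refine ⟨⟨Finset.inter_subset_right, fun p hp q hq hle => ?_⟩,
      ⟨Finset.inter_subset_right, fun p hp q hq hle => ?_⟩⟩
    · simp only [Finset.mem_inter] at hp ⊢
      exact ⟨hb p hp.1 q (Finset.mem_union_left _ hq) hle, hq⟩
    · simp only [Finset.mem_inter] at hp ⊢
      exact ⟨hb p hp.1 q (Finset.mem_union_right _ hq) hle, hq⟩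
  · intro J hJ
    simp only [Finset.mem_product, mem_UI] at hJ ⊢
    obtain ⟨⟨ha, hb⟩, ⟨hc, hd'⟩⟩ := hJ
    refine ⟨Finset.union_subset_union ha hc, fun p hp q hq hle => ?_⟩
    simp only [Finset.mem_union] at hp hq ⊢
    rcases hp with hp | hp <;> rcases hq with hq | hq
    · exact Or.inl (hb p hp q hq hle)
    · exact absurd hle (h1 p (ha hp) q hq)
    · exact absurd hle (h2 p (hc hp) q hq)
    · exact Or.inr (hd' p hp q hq hle)
  · intro I hI
    simp only [mem_UI] at hI
    ext q
    simp only [Finset.mem_union, Finset.mem_inter]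
    constructor
    · rintro (h | h) <;> exact h.1
    · intro h
      rcases Finset.mem_union.1 (hI.1 h) with h' | h'
      · exact Or.inl ⟨h, h'⟩
      · exact Or.inr ⟨h, h'⟩
  · intro J hJ
    simp only [Finset.mem_product, mem_UI] at hJ
    obtain ⟨⟨ha, hb⟩, ⟨hc, hd'⟩⟩ := hJ
    ext q
    · simp only [Finset.mem_union, Finset.mem_inter]
      constructor
      · rintro ⟨h | h, h'⟩
        · exact h
        · exact absurd (hc h) (hd h')
      · intro h; exact ⟨Or.inl h, ha h⟩
    · simp only [Finset.mem_union, Finset.mem_inter]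
      constructor
      · rintro ⟨h | h, h'⟩
        · exact absurd h' (hd (ha h))
        · exact h
      · intro h; exact ⟨Or.inr h, hc h⟩
  · intro I hI
    simp only [mem_UI] at hI
    rw [← pow_add, ← Finset.card_union_of_disjoint]
    · congr 2
      ext q
      simp only [Finset.mem_union, Finset.mem_inter]
      constructor
      · intro h
        rcases Finset.mem_union.1 (hI.1 h) with h' | h'
        · exact Or.inl ⟨h, h'⟩
        · exact Or.inr ⟨h, h'⟩
      · rintro (h | h) <;> exact h.1
    · rw [Finset.disjoint_left]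
      intro q hq hq'
      simp only [Finset.mem_inter] at hq hq'
      exact hd hq.2 hq'.2

/-- Multiplicativity of the self-dual count. -/
theorem SD_union [DecidableEq α] (le : α → α → Prop) (c : α → α) (S T : Finset α) (hd : Disjoint S T)
    (h1 : ∀ p ∈ S, ∀ q ∈ T, ¬ le p q) (h2 : ∀ p ∈ T, ∀ q ∈ S, ¬ le p q)
    (hcS : ∀ p ∈ S, c p ∈ S) (hcT : ∀ p ∈ T, c p ∈ T) :
    SD le c (S ∪ T) = SD le c S * SD le c T := by
  unfold SD
  rw [← Finset.card_product]
  rw [Finset.disjoint_left] at hd
  refine Finset.card_bij' (fun I _ => (I ∩ S, I ∩ T)) (fun J _ => J.1 ∪ J.2) ?_ ?_ ?_ ?_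
  · intro I hI
    simp only [Finset.mem_product, mem_SDs] at hI ⊢
    obtain ⟨⟨ha, hb⟩, hc⟩ := hI
    refine ⟨⟨⟨Finset.inter_subset_right, fun p hp q hq hle => ?_⟩, fun p hp => ?_⟩,
      ⟨⟨Finset.inter_subset_right, fun p hp q hq hle => ?_⟩, fun p hp => ?_⟩⟩
    · simp only [Finset.mem_inter] at hp ⊢
      exact ⟨hb p hp.1 q (Finset.mem_union_left _ hq) hle, hq⟩
    · have := hc p (Finset.mem_union_left _ hp)
      have h3 := hcS p hp
      simp only [Finset.mem_inter]
      tauto
    · simp only [Finset.mem_inter] at hp ⊢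
      exact ⟨hb p hp.1 q (Finset.mem_union_right _ hq) hle, hq⟩
    · have := hc p (Finset.mem_union_right _ hp)
      have h3 := hcT p hp
      simp only [Finset.mem_inter]
      tauto
  · intro J hJ
    simp only [Finset.mem_product, mem_SDs] at hJ ⊢
    obtain ⟨⟨⟨ha, hb⟩, he⟩, ⟨⟨hc, hd'⟩, hf⟩⟩ := hJ
    refine ⟨⟨Finset.union_subset_union ha hc, fun p hp q hq hle => ?_⟩, fun p hp => ?_⟩
    · simp only [Finset.mem_union] at hp hq ⊢
      rcases hp with hp | hp <;> rcases hq with hq | hq
      · exact Or.inl (hb p hp q hq hle)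
      · exact absurd hle (h1 p (ha hp) q hq)
      · exact absurd hle (h2 p (hc hp) q hq)
      · exact Or.inr (hd' p hp q hq hle)
    · simp only [Finset.mem_union] at hp ⊢
      rcases hp with hp | hp
      · have h3 := hcS p hp
        have h4 : c p ∉ J.2 := fun h => hd h3 (hc h)
        have h5 : p ∉ J.2 := fun h => hd hp (hc h)
        have := he p hp
        tauto
      · have h3 := hcT p hp
        have h4 : c p ∉ J.1 := fun h => hd (ha h) h3
        have h5 : p ∉ J.1 := fun h => hd (ha h) hp
        have := hf p hp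
        tauto
  · intro I hI
    simp only [mem_SDs] at hI
    ext q
    simp only [Finset.mem_union, Finset.mem_inter]
    constructor
    · rintro (h | h) <;> exact h.1
    · intro h
      rcases Finset.mem_union.1 (hI.1.1 h) with h' | h'
      · exact Or.inl ⟨h, h'⟩
      · exact Or.inr ⟨h, h'⟩
  · intro J hJ
    simp only [Finset.mem_product, mem_SDs] at hJ
    obtain ⟨⟨⟨ha, hb⟩, he⟩, ⟨⟨hc, hd'⟩, hf⟩⟩ := hJ
    ext q
    · simp only [Finset.mem_union, Finset.mem_inter]
      constructor
      · rintro ⟨h | h, h'⟩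
        · exact h
        · exact absurd (hc h) (hd h')
      · intro h; exact ⟨Or.inl h, ha h⟩
    · simp only [Finset.mem_union, Finset.mem_inter]
      constructor
      · rintro ⟨h | h, h'⟩
        · exact absurd h' (hd (ha h))
        · exact h
      · intro h; exact ⟨Or.inr h, hc h⟩

/-- Splitting along an invariant `g`. -/
theorem split_eq {β : Type*} [DecidableEq β] (le : α → α → Prop) (c : α → α) (g : α → β) :
    ∀ (m : ℕ) (S : Finset α), S.card ≤ m → (∀ p ∈ S, c p ∈ S) →
    (∀ p ∈ S, ∀ q ∈ S, le p q → g p = g q) → (∀ p ∈ S, g (c p) = g p) →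
    (∀ v, Mm le (S.filter (fun p => g p = v)) = SD le c (S.filter (fun p => g p = v))) →
    Mm le S = SD le c S := by
  intro m
  induction m with
  | zero =>
    intro S hS _ _ _ _
    have : S = ∅ := Finset.card_eq_zero.1 (Nat.le_zero.1 hS)
    subst this
    simp [Mm_empty, SD_empty]
  | succ m ih =>
    intro S hS hc hg hgc hv
    rcases Finset.eq_empty_or_nonempty S with rfl | ⟨p, hp⟩
    · simp [Mm_empty, SD_empty]
    · have hS' : S = S.filter (fun q => g q = g p) ∪ S.filter (fun q => ¬ g q = g p) :=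
        (Finset.filter_union_filter_not_eq _ _).symm
      have hdis : Disjoint (S.filter (fun q => g q = g p)) (S.filter (fun q => ¬ g q = g p)) :=
        Finset.disjoint_filter_filter_not _ _ _
      have ha : ∀ a ∈ S.filter (fun q => g q = g p), ∀ b ∈ S.filter (fun q => ¬ g q = g p),
          ¬ le a b := by
        intro a ha b hb hle
        simp only [Finset.mem_filter] at ha hb
        exact hb.2 ((hg a ha.1 b hb.1 hle).symm.trans ha.2)
      have hb : ∀ a ∈ S.filter (fun q => ¬ g q = g p), ∀ b ∈ S.filter (fun q => g q = g p),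
          ¬ le a b := by
        intro a ha b hb hle
        simp only [Finset.mem_filter] at ha hb
        exact ha.2 ((hg a ha.1 b hb.1 hle).trans hb.2)
      have hc1 : ∀ a ∈ S.filter (fun q => g q = g p), c a ∈ S.filter (fun q => g q = g p) := by
        intro a ha
        simp only [Finset.mem_filter] at ha ⊢
        exact ⟨hc a ha.1, (hgc a ha.1).trans ha.2⟩
      have hc2 : ∀ a ∈ S.filter (fun q => ¬ g q = g p), c a ∈ S.filter (fun q => ¬ g q = g p) := by
        intro a ha
        simp only [Finset.mem_filter] at ha ⊢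
        exact ⟨hc a ha.1, fun h => ha.2 ((hgc a ha.1).symm.trans h)⟩
      rw [hS', Mm_union le _ _ hdis ha hb, SD_union le c _ _ hdis ha hb hc1 hc2, hv (g p)]
      push_cast
      congr 1
      apply ih _ _ hc2
      · intro a ha b hb; exact hg a (Finset.mem_filter.1 ha).1 b (Finset.mem_filter.1 hb).1
      · intro a ha; exact hgc a (Finset.mem_filter.1 ha).1
      · intro v
        rw [Finset.filter_filter]
        by_cases hvp : v = g p
        · have : S.filter (fun q => ¬ g q = g p ∧ g q = v) = ∅ := by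
            rw [Finset.filter_eq_empty_iff]
            rintro q _ ⟨h, h'⟩
            exact h (h'.trans hvp)
          rw [this, Mm_empty, SD_empty]; rfl
        · have : S.filter (fun q => ¬ g q = g p ∧ g q = v) = S.filter (fun q => g q = v) := by
            apply Finset.filter_congr
            intro q _
            constructor
            · exact fun h => h.2
            · intro h; exact ⟨fun h' => hvp (h.symm.trans h'), h⟩
          rw [this]
          exact hv v
      · have hlt : (S.filter (fun q => ¬ g q = g p)).card < S.card := by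
          apply Finset.card_lt_card
          refine ⟨Finset.filter_subset _ _, fun h => ?_⟩
          exact (Finset.mem_filter.1 (h hp)).2 rfl
        omega

/-- Transport along an injective map. -/
theorem Mm_image {β : Type*} [DecidableEq β] (le : α → α → Prop) (le' : β → β → Prop) (φ : α → β) (S : Finset α)
    (hinj : ∀ p ∈ S, ∀ q ∈ S, φ p = φ q → p = q)
    (hle : ∀ p ∈ S, ∀ q ∈ S, (le p q ↔ le' (φ p) (φ q))) :
    Mm le' (S.image φ) = Mm le S := by
  unfold Mm
  symm
  refine Finset.sum_bij (fun I _ => I.image φ) ?_ ?_ ?_ ?_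
  · intro I hI
    rw [mem_UI] at hI ⊢
    refine ⟨Finset.image_subset_image hI.1, fun p hp q hq h => ?_⟩
    obtain ⟨p', hp', rfl⟩ := Finset.mem_image.1 hp
    obtain ⟨q', hq', rfl⟩ := Finset.mem_image.1 hq
    exact Finset.mem_image_of_mem _ (hI.2 p' hp' q' hq' ((hle p' (hI.1 hp') q' hq').2 h))
  · intro I hI J hJ h
    rw [mem_UI] at hI hJ
    ext x
    constructor
    · intro hx
      have : φ x ∈ J.image φ := by rw [← h]; exact Finset.mem_image_of_mem _ hx
      obtain ⟨y, hy, hyx⟩ := Finset.mem_image.1 this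
      rw [← hinj y (hJ.1 hy) x (hI.1 hx) hyx]; exact hy
    · intro hx
      have : φ x ∈ I.image φ := by rw [h]; exact Finset.mem_image_of_mem _ hx
      obtain ⟨y, hy, hyx⟩ := Finset.mem_image.1 this
      rw [← hinj y (hI.1 hy) x (hJ.1 hx) hyx]; exact hy
  · intro J hJ
    rw [mem_UI] at hJ
    refine ⟨S.filter (fun x => φ x ∈ J), ?_, ?_⟩
    · rw [mem_UI]
      refine ⟨Finset.filter_subset _ _, fun p hp q hq h => ?_⟩
      rw [Finset.mem_filter] at hp ⊢
      exact ⟨hq, hJ.2 _ hp.2 _ (Finset.mem_image_of_mem _ hq) ((hle p hp.1 q hq).1 h)⟩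
    · ext y
      simp only [Finset.mem_image, Finset.mem_filter]
      constructor
      · rintro ⟨x, ⟨_, h⟩, rfl⟩; exact h
      · intro h
        obtain ⟨x, hx, rfl⟩ := Finset.mem_image.1 (hJ.1 h)
        exact ⟨x, ⟨hx, h⟩, rfl⟩
  · intro I hI
    rw [mem_UI] at hI
    rw [Finset.card_image_of_injOn]
    intro x hx y hy h
    exact hinj x (hI.1 hx) y (hI.1 hy) h

theorem SD_image {β : Type*} [DecidableEq β] (le : α → α → Prop) (le' : β → β → Prop) (φ : α → β) (S : Finset α)
    (c : α → α) (c' : β → β)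
    (hinj : ∀ p ∈ S, ∀ q ∈ S, φ p = φ q → p = q)
    (hle : ∀ p ∈ S, ∀ q ∈ S, (le p q ↔ le' (φ p) (φ q)))
    (hcS : ∀ p ∈ S, c p ∈ S)
    (hc : ∀ p ∈ S, c' (φ p) = φ (c p)) :
    SD le' c' (S.image φ) = SD le c S := by
  unfold SD
  symm
  have key : ∀ I : Finset α, I ⊆ S → ∀ x ∈ S, (φ x ∈ I.image φ ↔ x ∈ I) := by
    intro I hI x hx
    constructor
    · intro h
      obtain ⟨y, hy, hyx⟩ := Finset.mem_image.1 h
      rw [← hinj y (hI hy) x hx hyx]; exact hy
    · intro h; exact Finset.mem_image_of_mem _ h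
  refine Finset.card_bij (fun I _ => I.image φ) ?_ ?_ ?_
  · intro I hI
    rw [mem_SDs] at hI ⊢
    refine ⟨⟨Finset.image_subset_image hI.1.1, fun p hp q hq h => ?_⟩, fun p hp => ?_⟩
    · obtain ⟨p', hp', rfl⟩ := Finset.mem_image.1 hp
      obtain ⟨q', hq', rfl⟩ := Finset.mem_image.1 hq
      exact Finset.mem_image_of_mem _ (hI.1.2 p' hp' q' hq' ((hle p' (hI.1.1 hp') q' hq').2 h))
    · obtain ⟨p', hp', rfl⟩ := Finset.mem_image.1 hp
      rw [hc p' hp', key I hI.1.1 _ (hcS p' hp'), key I hI.1.1 _ hp']
      exact hI.2 p' hp'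
  · intro I hI J hJ h
    rw [mem_SDs] at hI hJ
    ext x
    constructor
    · intro hx
      have : φ x ∈ J.image φ := by rw [← h]; exact Finset.mem_image_of_mem _ hx
      exact (key J hJ.1.1 x (hI.1.1 hx)).1 this
    · intro hx
      have : φ x ∈ I.image φ := by rw [h]; exact Finset.mem_image_of_mem _ hx
      exact (key I hI.1.1 x (hJ.1.1 hx)).1 this
  · intro J hJ
    rw [mem_SDs] at hJ
    refine ⟨S.filter (fun x => φ x ∈ J), ?_, ?_⟩
    · rw [mem_SDs]
      refine ⟨⟨Finset.filter_subset _ _, fun p hp q hq h => ?_⟩, fun p hp => ?_⟩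
      · rw [Finset.mem_filter] at hp ⊢
        exact ⟨hq, hJ.1.2 _ hp.2 _ (Finset.mem_image_of_mem _ hq) ((hle p hp.1 q hq).1 h)⟩
      · have := hJ.2 (φ p) (Finset.mem_image_of_mem _ hp)
        rw [hc p hp] at this
        simp only [Finset.mem_filter, hcS p hp, hp, true_and]
        exact this
    · ext y
      simp only [Finset.mem_image, Finset.mem_filter]
      constructor
      · rintro ⟨x, ⟨_, h⟩, rfl⟩; exact h
      · intro h
        obtain ⟨x, hx, rfl⟩ := Finset.mem_image.1 (hJ.1.1 h)
        exact ⟨x, ⟨hx, h⟩, rfl⟩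

end Pool.Agent.Helper57.TM1
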