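import Mathlib

/-!
Definitions for the `t = -1` phenomenon.  Vectors `Fin n → ℤ` are coordinates with respect to the
simple roots; the simple root `α_j` is `Pi.single j 1`; `M i j = ⟨α_i, α_j^∨⟩`.
-/

namespace Pool.Agent.Helper57.TM1

variable {n : ℕ}

/-- The simple reflection `s_j : c ↦ c - ⟨c, α_j^∨⟩ α_j`, in coordinates with respect to the
simple roots (so the simple root `α_j` is `Pi.single j 1`). -/
def sRefl (M : Matrix (Fin n) (Fin n) ℤ) (j : Fin n) : Module.End ℤ (Fin n → ℤ) where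
  toFun c := c - (∑ i, c i * M i j) • (Pi.single j 1 : Fin n → ℤ)
  map_add' a b := by simp [add_mul, Finset.sum_add_distrib, add_smul]; abel
  map_smul' r a := by
    have h : ∑ i, (r • a) i * M i j = r * ∑ i, a i * M i j := by
      simp [Finset.mul_sum, mul_assoc]
    rw [h, mul_smul, RingHom.id_apply, smul_sub]

/-- The subgroup generated by the simple reflections `s_j`, `j ∈ J` (the `s_j` are involutions,
so the submonoid they generate is a group). -/
def weyl (M : Matrix (Fin n) (Fin n) ℤ) (J : Set (Fin n)) :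
    Submonoid (Module.End ℤ (Fin n → ℤ)) :=
  Submonoid.closure (sRefl M '' J)

/-- The root system: the orbit of the simple roots under the Weyl group. -/
def rootSet (M : Matrix (Fin n) (Fin n) ℤ) : Set (Fin n → ℤ) :=
  {γ | ∃ w ∈ weyl M Set.univ, ∃ j, γ = w (Pi.single j 1)}

/-- The degree of a vector with respect to the labelling `ℓ` of the simple roots. -/
def deg (ℓ : Fin n → ℕ) (γ : Fin n → ℤ) : ℤ := ∑ i, γ i * (ℓ i : ℤ)

/-- `Δ(1)`: the roots of degree one. -/
def Delta1 (M : Matrix (Fin n) (Fin n) ℤ) (ℓ : Fin n → ℕ) : Set (Fin n → ℤ) :=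
  {γ | γ ∈ rootSet M ∧ deg ℓ γ = 1}

/-- The upper ideals of `Δ(1)`; the order is the coordinatewise order, i.e. `γ ≤ γ'` iff `γ' - γ`
is a nonnegative integer combination of simple roots. -/
def UpperIdeals (M : Matrix (Fin n) (Fin n) ℤ) (ℓ : Fin n → ℕ) : Set (Set (Fin n → ℤ)) :=
  {I | I ⊆ Delta1 M ℓ ∧ ∀ γ ∈ I, ∀ γ' ∈ Delta1 M ℓ, γ ≤ γ' → γ' ∈ I}

/-- The polynomial `∑_I t^{#I}` over the upper ideals of `Δ(1)`. -/
noncomputable def idealPoly (M : Matrix (Fin n) (Fin n) ℤ) (ℓ : Fin n → ℕ) : Polynomial ℤ :=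
  ∑ᶠ I ∈ UpperIdeals M ℓ, (Polynomial.X : Polynomial ℤ) ^ I.ncard

/-- `w` is the longest element of `W(0)`, the group generated by the `s_j` with `ℓ j = 0`:
it lies in `W(0)` and maps every simple root of degree `0` to a negative root. -/
def IsLongest (M : Matrix (Fin n) (Fin n) ℤ) (ℓ : Fin n → ℕ)
    (w : Module.End ℤ (Fin n → ℤ)) : Prop :=
  w ∈ weyl M {j | ℓ j = 0} ∧ ∀ j, ℓ j = 0 → w (Pi.single j 1) ≤ 0

end Pool.Agent.Helper57.TM1
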