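import Pool.Agent.Helper57.TM1.Calc

/-!
Correctness of the computable functions and the general theorem for exceptional types.
-/

namespace Pool.Agent.Helper57.TM1

open Finset

theorem sumL_eq (n : ℕ) (f : ℕ → ℤ) : ∑ i : Fin n, f i = sumL n f := by
  induction n with
  | zero => simp [sumL]
  | succ n ih => rw [Fin.sum_univ_castSucc]; simp only [Fin.val_castSucc, Fin.val_last]; rw [ih]; rfl

/-- vector with given hexadecimal digits -/
def dec (n : ℕ) (a : ℕ) : Fin n → ℤ := fun i => (dig a i : ℤ)

def encZ {n : ℕ} (v : Fin n → ℤ) : ℤ := ∑ i : Fin n, v i * 16 ^ (i : ℕ)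

theorem encZ_sub {n : ℕ} (a b : Fin n → ℤ) : encZ (a - b) = encZ a - encZ b := by
  simp [encZ, sub_mul, Finset.sum_sub_distrib]
theorem encZ_smul {n : ℕ} (r : ℤ) (a : Fin n → ℤ) : encZ (r • a) = r * encZ a := by
  simp [encZ, Finset.mul_sum, mul_assoc]
theorem encZ_add {n : ℕ} (a b : Fin n → ℤ) : encZ (a + b) = encZ a + encZ b := by
  simp [encZ, add_mul, Finset.sum_add_distrib]
theorem encZ_zero {n : ℕ} : encZ (0 : Fin n → ℤ) = 0 := by
  simp [encZ]
theorem encZ_sum {n : ℕ} {ι : Type*} (s : Finset ι) (f : ι → Fin n → ℤ) :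
    encZ (∑ i ∈ s, f i) = ∑ i ∈ s, encZ (f i) := by
  classical
  induction s using Finset.induction_on with
  | empty => simp [encZ_zero]
  | insert a s ha ih => rw [Finset.sum_insert ha, Finset.sum_insert ha, encZ_add, ih]
theorem encZ_nonneg {n : ℕ} (a : Fin n → ℤ) (h : 0 ≤ a) : 0 ≤ encZ a :=
  Finset.sum_nonneg (fun i _ => mul_nonneg (h i) (by positivity))
theorem encZ_single {n : ℕ} (i : Fin n) : encZ (Pi.single i 1 : Fin n → ℤ) = 16 ^ (i : ℕ) := by
  simp [encZ, Pi.single_apply]

theorem dec_nonneg (n a : ℕ) : 0 ≤ dec n a := fun i => by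
  show (0 : ℤ) ≤ (dig a i : ℤ)
  exact Int.natCast_nonneg _

/-- bundle of kernel-checked facts about a list of codes of positive roots -/
structure ExcData (n : ℕ) (M : Matrix (Fin n) (Fin n) ℤ) where
  MN : ℕ → ℕ → ℤ
  R : List ℕ
  H : ℕ
  hMN : ∀ i j : Fin n, M i j = MN i j
  hM : ∀ j, M j j = 2
  hsorted : R.Pairwise (fun a b => b < a)
  henc : ∀ a ∈ R, sumL n (fun i => (dig a i : ℤ) * 16 ^ i) = a
  hpos : ∀ a ∈ R, 0 < a
  hsimple : ∀ j < n, 16 ^ j ∈ R ∧ ∀ i < n, dig (16 ^ j) i = if i = j then 1 else 0
  hclo : ∀ a ∈ R, ∀ j < n, a = 16 ^ j ∨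
    (((a : ℤ) - sumL n (fun i => (dig a i : ℤ) * MN i j) * 16 ^ j).toNat ∈ R ∧
      ∀ i < n, (dig ((a : ℤ) - sumL n (fun i => (dig a i : ℤ) * MN i j) * 16 ^ j).toNat i : ℤ) =
        dig a i - if i = j then sumL n (fun i => (dig a i : ℤ) * MN i j) else 0)
  hreach : ∀ a ∈ R, (∃ j < n, a = 16 ^ j) ∨
    (∃ j < n, 0 < sumL n (fun i => (dig a i : ℤ) * MN i j))
  hleb : ∀ a ∈ R, ∀ b ∈ R, (leb H a b = true ↔ ∀ i < n, dig a i ≤ dig b i)
  hZ : ∀ Z : List Bool, Z.length = n → chkZ n H MN R Z = true

namespace ExcData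

variable {n : ℕ} {M : Matrix (Fin n) (Fin n) ℤ} (E : ExcData n M)

theorem enc_dec (a : ℕ) (ha : a ∈ E.R) : encZ (dec n a) = a := by
  rw [← E.henc a ha, ← sumL_eq]; rfl

include E in
theorem dec_simple (j : Fin n) : dec n (16 ^ (j : ℕ)) = Pi.single j 1 := by
  ext i
  have h := (E.hsimple j j.2).2 i i.2
  show (dig (16 ^ (j : ℕ)) i : ℤ) = _
  rw [h, Pi.single_apply]
  simp only [Fin.ext_iff]
  split_ifs <;> rfl

theorem pairing_dec (j : Fin n) (a : ℕ) :
    pairing M j (dec n a) = sumL n (fun i => (dig a i : ℤ) * E.MN i j) := by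
  show ∑ i, dec n a i * M i j = _
  rw [← sumL_eq]
  apply Finset.sum_congr rfl
  intro i _
  rw [E.hMN]; rfl

theorem sRefl_dec (j : Fin n) (a : ℕ) (ha : a ∈ E.R) :
    a = 16 ^ (j : ℕ) ∨
    ∃ b ∈ E.R, sRefl M j (dec n a) = dec n b ∧
      (b : ℤ) = ((a : ℤ) - sumL n (fun i => (dig a i : ℤ) * E.MN i j) * 16 ^ (j : ℕ)) := by
  rcases E.hclo a ha j j.2 with h | ⟨h1, h2⟩
  · exact Or.inl h
  · refine Or.inr ⟨_, h1, ?_, ?_⟩
    · ext i
      have h3 := h2 i i.2
      rw [sRefl_apply, E.pairing_dec]
      show (dig a i : ℤ) - _ * (Pi.single j 1 : Fin n → ℤ) i = (dig _ i : ℤ)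
      rw [h3, Pi.single_apply]
      simp only [Fin.ext_iff]
      split_ifs <;> simp
    · have := E.hpos _ h1
      omega

theorem root_cases {γ : Fin n → ℤ} (hγ : γ ∈ rootSet M) :
    ∃ a ∈ E.R, γ = dec n a ∨ γ = - dec n a := by
  obtain ⟨w, hw, j, rfl⟩ := hγ
  refine Submonoid.closure_induction_left (s := sRefl M '' Set.univ)
    (motive := fun w _ => ∃ a ∈ E.R, w (Pi.single j 1) = dec n a ∨
      w (Pi.single j 1) = - dec n a) ?_ ?_ hw
  · exact ⟨16 ^ (j : ℕ), (E.hsimple j j.2).1, Or.inl (E.dec_simple j).symm⟩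
  · rintro _ ⟨i, -, rfl⟩ v _ ⟨a, ha, h⟩
    have hv : (sRefl M i * v) (Pi.single j 1) = sRefl M i (v (Pi.single j 1)) := rfl
    rw [hv]
    rcases E.sRefl_dec i a ha with h1 | ⟨b, hb, h2, -⟩
    · refine ⟨a, ha, ?_⟩
      have h3 : dec n a = Pi.single i 1 := by rw [h1]; exact E.dec_simple i
      have h4 : sRefl M i (dec n a) = - dec n a := by rw [h3]; exact sRefl_single M E.hM i
      rcases h with h | h
      · right; rw [h, h4]
      · left; rw [h, map_neg, h4, neg_neg]
    · refine ⟨b, hb, ?_⟩
      rcases h with h | h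
      · left; rw [h, h2]
      · right; rw [h, map_neg, h2]

theorem dec_root : ∀ (m a : ℕ), a ≤ m → a ∈ E.R → dec n a ∈ rootSet M := by
  intro m
  induction m with
  | zero => intro a ha h; have := E.hpos a h; omega
  | succ m ih =>
    intro a ham ha
    rcases E.hreach a ha with ⟨j, hj, rfl⟩ | ⟨j, hj, h⟩
    · rw [E.dec_simple ⟨j, hj⟩]; exact single_mem_rootSet M _
    · rcases E.sRefl_dec ⟨j, hj⟩ a ha with h1 | ⟨b, hb, h2, h3⟩
      · rw [h1, E.dec_simple ⟨j, hj⟩]; exact single_mem_rootSet M _
      · have h4 : (0 : ℤ) < sumL n (fun i => (dig a i : ℤ) * E.MN i j) * 16 ^ j := by positivity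
        have h5 : b < a := by
          simp only at h3
          omega
        have h6 := ih b (by omega) hb
        have h7 : dec n a = sRefl M ⟨j, hj⟩ (dec n b) := by
          rw [← h2, sRefl_sRefl M E.hM]
        rw [h7]
        exact sRefl_mem_rootSet M _ h6

include E in
theorem signCoh : SignCoh M := by
  intro γ hγ
  obtain ⟨a, _, h | h⟩ := E.root_cases hγ
  · left; rw [h]; exact dec_nonneg n a
  · right; rw [h]; exact neg_nonpos.2 (dec_nonneg n a)

include E in
theorem finite : (rootSet M).Finite := by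
  classical
  apply Set.Finite.subset (E.R.toFinset.image (dec n) ∪
    E.R.toFinset.image (fun a => - dec n a)).finite_toSet
  intro γ hγ
  obtain ⟨a, ha, h | h⟩ := E.root_cases hγ
  · rw [mem_coe, mem_union, mem_image]; left; exact ⟨a, List.mem_toFinset.2 ha, h.symm⟩
  · rw [mem_coe, mem_union, mem_image, mem_image]; right; exact ⟨a, List.mem_toFinset.2 ha, h.symm⟩

end ExcData

theorem getD_map_range {α : Type*} (n : ℕ) (f : ℕ → α) (i : ℕ) (hi : i < n) (d : α) :
    ((List.range n).map f).getD i d = f i := by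
  simp [List.getD, hi]

theorem greedy_inv {n : ℕ} (M : Matrix (Fin n) (Fin n) ℤ) (MN : ℕ → ℕ → ℤ)
    (hMN : ∀ i j : Fin n, M i j = MN i j) (Z : List Bool) :
    ∀ (f : ℕ) (W : List ℤ) (l : List (Fin n)), (∀ j ∈ l, Z.getD (j : ℕ) false = true) →
      (∀ i : Fin n, W.getD i 0 = encZ (wp M l (Pi.single i 1))) →
      ∃ l' : List (Fin n), (∀ j ∈ l', Z.getD (j : ℕ) false = true) ∧
        ∀ i : Fin n, (greedyW n MN Z f W).getD i 0 = encZ (wp M l' (Pi.single i 1)) := by
  intro f
  induction f with
  | zero => intro W l h1 h2; exact ⟨l, h1, h2⟩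
  | succ f ih =>
    intro W l h1 h2
    unfold greedyW
    cases hf : (List.range n).find? (fun j => Z.getD j false && decide (0 < W.getD j 0)) with
    | none => exact ⟨l, h1, h2⟩
    | some j =>
      have hj : j < n := List.mem_range.1 (List.mem_of_find?_eq_some hf)
      have hj2 := List.find?_some hf
      simp only [Bool.and_eq_true] at hj2
      apply ih (upd n MN j W) (l ++ [⟨j, hj⟩])
      · intro i hi
        rcases List.mem_append.1 hi with hi | hi
        · exact h1 i hi
        · rw [List.mem_singleton.1 hi]; exact hj2.1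
      · intro i
        unfold upd
        rw [getD_map_range n _ _ i.2, wp_append, wp_singleton]
        show _ = encZ (wp M l (sRefl M ⟨j, hj⟩ (Pi.single i 1)))
        rw [sRefl_apply, pairing_single, map_sub, map_smul, encZ_sub, encZ_smul, ← h2 i,
          ← h2 ⟨j, hj⟩, hMN]

/-! ### list versions of the counts -/

theorem Mlist_eq (H : ℕ) (le : ℕ → ℕ → Prop) (hr : ∀ a, le a a)
    (ht : ∀ a b c, le a b → le b c → le a c) (R : List ℕ)
    (hleb : ∀ a ∈ R, ∀ b ∈ R, (leb H a b = true ↔ le a b)) :
    ∀ (f : ℕ) (l : List ℕ), l.length ≤ f → (∀ a ∈ l, a ∈ R) → l.Nodup →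
      l.Pairwise (fun a b => ¬ le a b) → Mm le l.toFinset = Mlist H f l := by
  classical
  intro f
  induction f with
  | zero =>
    intro l hl _ _ _
    have : l = [] := List.length_eq_zero_iff.1 (Nat.le_zero.1 hl)
    subst this
    simp [Mm_empty, Mlist]
  | succ f ih =>
    intro l hl hR hnd hpw
    rcases l with _ | ⟨p, l⟩
    · simp [Mm_empty, Mlist]
    · have hp : p ∈ (p :: l).toFinset := by simp
      have hpR := hR p List.mem_cons_self
      have hlR : ∀ a ∈ l, a ∈ R := fun a ha => hR a (List.mem_cons_of_mem _ ha)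
      rw [List.nodup_cons] at hnd
      rw [List.pairwise_cons] at hpw
      rw [List.length_cons] at hl
      rw [Mm_rec le hr ht _ p hp]
      have h1 : (p :: l).toFinset.filter (fun q => ¬ le q p) =
          (l.filter (fun q => !leb H q p)).toFinset := by
        ext q
        simp only [Finset.mem_filter, List.mem_toFinset, List.mem_cons, List.mem_filter,
          Bool.not_eq_true']
        constructor
        · rintro ⟨rfl | hq, h⟩
          · exact absurd (hr q) h
          · refine ⟨hq, ?_⟩
            rw [← Bool.not_eq_true, hleb q (hlR q hq) p hpR]; exact h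
        · rintro ⟨hq, h⟩
          rw [← Bool.not_eq_true, hleb q (hlR q hq) p hpR] at h
          exact ⟨Or.inr hq, h⟩
      have h2 : (p :: l).toFinset.filter (fun q => le p q) = {p} := by
        ext q
        simp only [Finset.mem_filter, List.mem_toFinset, List.mem_cons, Finset.mem_singleton]
        constructor
        · rintro ⟨h | hq, h⟩
          · exact ‹q = p›
          · exact absurd h (hpw.1 q hq)
        · rintro rfl; exact ⟨Or.inl rfl, hr _⟩
      have h3 : (p :: l).toFinset.filter (fun q => ¬ le p q) = l.toFinset := by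
        ext q
        simp only [Finset.mem_filter, List.mem_toFinset, List.mem_cons]
        constructor
        · rintro ⟨rfl | hq, h⟩
          · exact absurd (hr q) h
          · exact hq
        · intro hq; exact ⟨Or.inr hq, hpw.1 q hq⟩
      rw [h1, h2, h3, ih _ ((List.length_filter_le _ _).trans (by omega))
        (fun a ha => hlR a (List.mem_of_mem_filter ha)) (hnd.2.filter _) (hpw.2.filter _),
        ih l (by omega) hlR hnd.2 hpw.2]
      simp [Mlist]
      ring

theorem SDlist_eq (H : ℕ) (le : ℕ → ℕ → Prop) (hr : ∀ a, le a a)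
    (ht : ∀ a b c, le a b → le b c → le a c) (R : List ℕ)
    (hleb : ∀ a ∈ R, ∀ b ∈ R, (leb H a b = true ↔ le a b)) (c : ℕ → ℕ) :
    ∀ (f : ℕ) (l : List ℕ), l.length ≤ f → (∀ a ∈ l, a ∈ R) → l.Nodup →
      l.Pairwise (fun a b => ¬ le a b) → Rev le c l.toFinset →
      SD le c l.toFinset = SDlist H f (l.map (fun a => (a, c a))) := by
  classical
  intro f
  induction f with
  | zero =>
    intro l hl _ _ _ _
    have : l = [] := List.length_eq_zero_iff.1 (Nat.le_zero.1 hl)
    subst this
    simp [SD_empty, SDlist]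
  | succ f ih =>
    intro l hl hR hnd hpw hrev
    rcases l with _ | ⟨p, l⟩
    · simp [SD_empty, SDlist]
    · have hp : p ∈ (p :: l).toFinset := by simp
      have hpR := hR p List.mem_cons_self
      have hlR : ∀ a ∈ l, a ∈ R := fun a ha => hR a (List.mem_cons_of_mem _ ha)
      have hnd' := hnd
      have hpw' := hpw
      rw [List.nodup_cons] at hnd
      rw [List.pairwise_cons] at hpw
      rw [List.length_cons] at hl
      rw [List.map_cons]
      unfold SDlist
      by_cases hpq : p = c p
      · rw [if_pos (by rw [← hpq]; exact Nat.beq_refl p)]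
        exact SD_fixed le c _ p hp hpq.symm
      · have hbeq : ¬ Nat.beq p (c p) = true := fun h => hpq (Nat.eq_of_beq_eq_true h)
        rw [if_neg hbeq]
        have hq : c p ∈ (p :: l).toFinset := hrev.maps p hp
        have hql : c p ∈ l := by
          rcases List.mem_cons.1 (List.mem_toFinset.1 hq) with h | h
          · exact absurd h.symm hpq
          · exact h
        have hqR := hlR _ hql
        rw [SD_rec le hr ht c _ hrev p hp]
        have hnle : ¬ le p (c p) := hpw.1 _ hql
        rw [if_neg hnle]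
        have hmin : ∀ x ∈ (p :: l).toFinset, le x (c p) → x = c p := by
          intro x hx hle
          have h1 := hrev.rev x hx (c p) hq hle
          rw [hrev.inv p hp] at h1
          have h2 : c x = p := by
            rcases List.mem_cons.1 (List.mem_toFinset.1 (hrev.maps x hx)) with h | h
            · exact h
            · exact absurd h1 (hpw.1 _ h)
          rw [← h2, hrev.inv x hx]
        have hmax : ∀ x ∈ (p :: l).toFinset, le p x → x = p := by
          intro x hx hle
          rcases List.mem_cons.1 (List.mem_toFinset.1 hx) with h | h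
          · exact h
          · exact absurd hle (hpw.1 _ h)
        have e1 : (leb H (c p) p = true) ↔ le (c p) p := hleb _ hqR _ hpR
        have e2 : (l.map (fun a => (a, c a))).filter
            (fun x => !leb H x.1 p && !leb H (c p) x.1) =
            (l.filter (fun x => !leb H x p && !leb H (c p) x)).map (fun a => (a, c a)) := by
          rw [List.filter_map]; rfl
        have e3 : (l.map (fun a => (a, c a))).filter (fun x => !Nat.beq x.1 (c p)) =
            (l.filter (fun x => !Nat.beq x (c p))).map (fun a => (a, c a)) := by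
          rw [List.filter_map]; rfl
        have s1 : (p :: l).toFinset.filter (fun q => ¬ le q p ∧ ¬ le (c p) q) =
            (l.filter (fun x => !leb H x p && !leb H (c p) x)).toFinset := by
          ext q
          simp only [Finset.mem_filter, List.mem_toFinset, List.mem_cons, List.mem_filter,
            Bool.and_eq_true, Bool.not_eq_true']
          constructor
          · rintro ⟨rfl | hq', h, h'⟩
            · exact absurd (hr q) h
            · refine ⟨hq', ?_, ?_⟩
              · rw [← Bool.not_eq_true, hleb q (hlR q hq') p hpR]; exact h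
              · rw [← Bool.not_eq_true, hleb _ hqR q (hlR q hq')]; exact h'
          · rintro ⟨hq', h, h'⟩
            rw [← Bool.not_eq_true, hleb q (hlR q hq') p hpR] at h
            rw [← Bool.not_eq_true, hleb _ hqR q (hlR q hq')] at h'
            exact ⟨Or.inr hq', h, h'⟩
        have s2 : (p :: l).toFinset.filter (fun q => ¬ le q (c p) ∧ ¬ le p q) =
            (l.filter (fun x => !Nat.beq x (c p))).toFinset := by
          ext q
          simp only [Finset.mem_filter, List.mem_toFinset, List.mem_cons, List.mem_filter,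
            Bool.not_eq_true']
          constructor
          · rintro ⟨rfl | hq', h, h'⟩
            · exact absurd (hr q) h'
            · refine ⟨hq', ?_⟩
              rw [← Bool.not_eq_true]
              intro hb
              have := Nat.eq_of_beq_eq_true hb
              exact h (this ▸ hr _)
          · rintro ⟨hq', h⟩
            rw [← Bool.not_eq_true] at h
            refine ⟨Or.inr hq', ?_, hpw.1 _ hq'⟩
            intro hle
            have := hmin q (by simp [hq']) hle
            exact h (this ▸ Nat.beq_refl _)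
        have rev1 : Rev le c ((p :: l).toFinset.filter (fun q => ¬ le q p ∧ ¬ le (c p) q)) := by
          refine ⟨fun x hx => ?_, fun x hx => hrev.inv x (Finset.mem_filter.1 hx).1,
            fun x hx y hy h => hrev.rev x (Finset.mem_filter.1 hx).1 y (Finset.mem_filter.1 hy).1 h⟩
          rw [Finset.mem_filter] at hx ⊢
          obtain ⟨h1, h2, h3⟩ := hx
          refine ⟨hrev.maps x h1, ?_, ?_⟩
          · intro h4
            have h5 := hrev.rev (c x) (hrev.maps x h1) p hp h4
            rw [hrev.inv x h1] at h5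
            exact h3 h5
          · intro h4
            have h5 := hrev.rev (c p) hq (c x) (hrev.maps x h1) h4
            rw [hrev.inv x h1, hrev.inv p hp] at h5
            exact h2 h5
        have rev2 : Rev le c ((p :: l).toFinset.filter (fun q => ¬ le q (c p) ∧ ¬ le p q)) := by
          refine ⟨fun x hx => ?_, fun x hx => hrev.inv x (Finset.mem_filter.1 hx).1,
            fun x hx y hy h => hrev.rev x (Finset.mem_filter.1 hx).1 y (Finset.mem_filter.1 hy).1 h⟩
          rw [Finset.mem_filter] at hx ⊢
          obtain ⟨h1, h2, h3⟩ := hx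
          refine ⟨hrev.maps x h1, ?_, ?_⟩
          · intro h4
            have h5 := hmin (c x) (hrev.maps x h1) h4
            have h6 : x = p := by
              have h7 := hrev.inv x h1
              rw [h5, hrev.inv p hp] at h7
              exact h7.symm
            exact h3 (h6 ▸ hr _)
          · intro h4
            have h5 := hmax (c x) (hrev.maps x h1) h4
            have h6 : x = c p := by
              have h7 := hrev.inv x h1
              rw [h5] at h7
              exact h7.symm
            exact h2 (h6 ▸ hr _)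
        rw [s1] at rev1
        rw [s2] at rev2
        rw [e2, e3, s1, s2, ih _ ((List.length_filter_le _ _).trans (by omega))
          (fun a ha => hlR a (List.mem_of_mem_filter ha)) (hnd.2.filter _) (hpw.2.filter _) rev1,
          ih _ ((List.length_filter_le _ _).trans (by omega))
          (fun a ha => hlR a (List.mem_of_mem_filter ha)) (hnd.2.filter _) (hpw.2.filter _) rev2]
        simp only [e1]

theorem mem_allZ : ∀ l : List Bool, l ∈ allZ l.length := by
  intro l
  induction l with
  | nil => simp [allZ]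
  | cons b l ih =>
    rw [List.length_cons]
    unfold allZ
    rw [List.mem_append, List.mem_map, List.mem_map]
    cases b
    · exact Or.inl ⟨l, ih, rfl⟩
    · exact Or.inr ⟨l, ih, rfl⟩

/-- nonnegative integers with sum `1` -/
theorem sum_eq_one_cases {n : ℕ} (f : Fin n → ℤ) (h0 : ∀ i, 0 ≤ f i) (h1 : ∑ i, f i = 1) :
    ∃ β, f β = 1 ∧ ∀ i, i ≠ β → f i = 0 := by
  classical
  have hex : ∃ β, 1 ≤ f β := by
    by_contra hcon
    push Not at hcon
    have : ∑ i, f i ≤ 0 := Finset.sum_nonpos (fun i _ => by have := hcon i; omega)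
    omega
  obtain ⟨β, hβ⟩ := hex
  have h2 := Finset.add_sum_erase Finset.univ f (Finset.mem_univ β)
  rw [h1] at h2
  have h3 : 0 ≤ ∑ i ∈ Finset.univ.erase β, f i := Finset.sum_nonneg (fun i _ => h0 i)
  have h4 : ∑ i ∈ Finset.univ.erase β, f i = 0 := by omega
  have h5 : f β = 1 := by omega
  refine ⟨β, h5, fun i hi => ?_⟩
  exact (Finset.sum_eq_zero_iff_of_nonneg (fun i _ => h0 i)).1 h4 i
    (Finset.mem_erase.2 ⟨hi, Finset.mem_univ _⟩)

/-- the longest element is an involution -/
theorem longest_invol {n : ℕ} (M : Matrix (Fin n) (Fin n) ℤ) (hM : ∀ j, M j j = 2)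
    (hfin : (rootSet M).Finite) (hsc : SignCoh M) (J : Set (Fin n))
    (w : Module.End ℤ (Fin n → ℤ)) (hw : w ∈ weyl M J)
    (h : ∀ j ∈ J, w (Pi.single j 1) ≤ 0) : w * w = 1 := by
  obtain ⟨u, hu, h1, h2⟩ := exists_inv M hM J w hw
  have hu' : ∀ j ∈ J, u (Pi.single j 1) ≤ 0 := by
    intro j hj
    refine (hsc _ (weyl_mem_rootSet M hu (single_mem_rootSet M j))).resolve_left (fun hpos => ?_)
    have h3 : w (u (Pi.single j 1)) ≤ 0 := by
      apply longest_neg M J w h _ hpos
      intro i hi
      rw [weyl_supp M J u hu _ i hi]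
      have : i ≠ j := fun h => hi (h ▸ hj)
      simp [this]
    have h4 : w (u (Pi.single j 1)) = Pi.single j 1 := by
      show (w * u) (Pi.single j 1) = _
      rw [h2]; rfl
    rw [h4] at h3
    have := h3 j
    simp at this
  have h3 := longest_unique M hM hfin hsc J w u hw hu h hu'
  rw [← h3] at h1; exact h1

theorem term_eq {n : ℕ} (ℓ : Fin n → ℕ) (p q : Fin n → ℤ) (hp : deg ℓ p = deg ℓ q)
    (hle : p ≤ q) : ∀ i, (q i - p i) * (ℓ i : ℤ) = 0 := by
  have h1 : ∑ i, (q i - p i) * (ℓ i : ℤ) = 0 := by
    have : ∑ i, (q i - p i) * (ℓ i : ℤ) = deg ℓ q - deg ℓ p := by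
      rw [← deg_sub]; rfl
    rw [this, hp, sub_self]
  intro i
  exact (Finset.sum_eq_zero_iff_of_nonneg (fun i _ => mul_nonneg (sub_nonneg.2 (hle i))
    (Int.natCast_nonneg _))).1 h1 i (Finset.mem_univ i)

namespace ExcData

variable {n : ℕ} {M : Matrix (Fin n) (Fin n) ℤ} (E : ExcData n M)

include E in
theorem main (ℓ : Fin n → ℕ) (w : Module.End ℤ (Fin n → ℤ)) (hw : IsLongest M ℓ w) :
    (idealPoly M ℓ).eval (-1) =
      ({I | I ∈ UpperIdeals M ℓ ∧ Delta1 M ℓ \ (w '' I) = I}.ncard : ℤ) := by
  classical
  obtain ⟨hwJ, hwneg⟩ := hw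
  have hfin := E.finite
  have hsc := E.signCoh
  set J : Set (Fin n) := {j | ℓ j = 0} with hJ
  -- the list of zero labels
  set Z : List Bool := List.ofFn (fun j : Fin n => decide (ℓ j = 0)) with hZdef
  have hZlen : Z.length = n := by simp [hZdef]
  have hZget : ∀ j : Fin n, Z.getD (j : ℕ) false = decide (ℓ j = 0) := by
    intro j
    simp [hZdef, List.getD, j.2]
  have hchk := E.hZ Z hZlen
  unfold chkZ at hchk
  rw [Bool.and_eq_true, List.all_eq_true, List.all_eq_true] at hchk
  obtain ⟨hchk1, hchk2⟩ := hchk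
  set W := greedyW n E.MN Z E.R.length (W0 n) with hW
  obtain ⟨l, hl, hWl⟩ := greedy_inv M E.MN E.hMN Z E.R.length (W0 n) [] (by simp) (by
    intro i
    unfold W0
    rw [getD_map_range n _ _ i.2, wp_nil]
    show _ = encZ (Pi.single i 1)
    rw [encZ_single])
  have hl' : ∀ j ∈ l, j ∈ J := by
    intro j hj
    have h1 := hl j hj
    rw [hZget] at h1
    exact of_decide_eq_true h1
  have hwl : wp M l = w := by
    apply longest_unique M E.hM hfin hsc J _ _ (wp_mem M J l hl') hwJ _ hwneg
    intro j hj
    have h1 := hchk1 j (List.mem_range.2 j.2)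
    rw [hZget, decide_eq_true (show ℓ j = 0 from hj)] at h1
    simp only [Bool.not_true, Bool.false_or] at h1
    have h2 := of_decide_eq_true h1
    rw [hWl j] at h2
    refine (hsc _ (weyl_mem_rootSet M (wp_mem M J l hl')
      (single_mem_rootSet M j))).resolve_left (fun hpos => ?_)
    have := encZ_nonneg _ hpos
    omega
  subst hwl
  have hinvol := longest_invol M E.hM hfin hsc J _ hwJ hwneg
  -- the finite model
  set S : Finset ℕ := E.R.toFinset.filter (fun a => deg ℓ (dec n a) = 1) with hS
  have hmemS : ∀ a, a ∈ S ↔ a ∈ E.R ∧ deg ℓ (dec n a) = 1 := by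
    intro a; rw [hS, Finset.mem_filter, List.mem_toFinset]
  have hinj : ∀ a ∈ E.R, ∀ b ∈ E.R, dec n a = dec n b → a = b := by
    intro a ha b hb h
    have h1 := E.enc_dec a ha
    rw [h, E.enc_dec b hb] at h1
    exact_mod_cast h1.symm
  have hDelta : ∀ γ, γ ∈ Delta1 M ℓ ↔ ∃ a ∈ S, dec n a = γ := by
    intro γ
    constructor
    · rintro ⟨h1, h2⟩
      obtain ⟨a, ha, h | h⟩ := E.root_cases h1
      · exact ⟨a, (hmemS a).2 ⟨ha, by rw [← h]; exact h2⟩, h.symm⟩
      · exfalso
        rw [h, deg_neg] at h2
        have := deg_nonneg ℓ _ (dec_nonneg n a)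
        omega
    · rintro ⟨a, ha, rfl⟩
      rw [hmemS] at ha
      exact ⟨E.dec_root a a le_rfl ha.1, ha.2⟩
  have hencw : ∀ a, encZ (wp M l (dec n a)) = sumL n (fun i => (dig a i : ℤ) * W.getD i 0) := by
    intro a
    have h1 : dec n a = ∑ i, dec n a i • (Pi.single i 1 : Fin n → ℤ) := eq_sum_single _
    conv_lhs => rw [h1]
    rw [map_sum, encZ_sum, ← sumL_eq]
    apply Finset.sum_congr rfl
    intro i _
    rw [map_smul, encZ_smul, ← hWl i]; rfl
  have hcw : ∀ a ∈ S, cW n W a ∈ S ∧ dec n (cW n W a) = wp M l (dec n a) := by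
    intro a ha
    have h1 : wp M l (dec n a) ∈ Delta1 M ℓ :=
      weyl_Delta1 M ℓ _ hwJ ((hDelta _).2 ⟨a, ha, rfl⟩)
    obtain ⟨b, hb, hb'⟩ := (hDelta _).1 h1
    have h2 := hencw a
    rw [← hb', E.enc_dec b ((hmemS b).1 hb).1] at h2
    have h3 : cW n W a = b := by
      unfold cW
      rw [← h2]; simp
    rw [h3]
    exact ⟨hb, hb'⟩
  set le : ℕ → ℕ → Prop := fun a b => dec n a ≤ dec n b with hle
  have hr : ∀ a, le a a := fun a => le_refl (dec n a)
  have ht : ∀ a b c, le a b → le b c → le a c := fun a b c h1 h2 => le_trans h1 h2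
  have hRev : Rev le (cW n W) S := by
    refine ⟨fun p hp => (hcw p hp).1, fun p hp => ?_, fun p hp q hq h => ?_⟩
    · apply hinj _ ((hmemS _).1 (hcw _ (hcw p hp).1).1).1 _ ((hmemS _).1 hp).1
      rw [(hcw _ (hcw p hp).1).2, (hcw p hp).2]
      show (wp M l * wp M l) (dec n p) = _
      rw [hinvol]; rfl
    · show dec n (cW n W q) ≤ dec n (cW n W p)
      rw [(hcw p hp).2, (hcw q hq).2]
      have h1 := term_eq ℓ (dec n p) (dec n q)
        (by rw [((hmemS _).1 hp).2, ((hmemS _).1 hq).2]) h
      have h2 : wp M l (dec n q - dec n p) ≤ 0 := by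
        apply longest_neg M J _ hwneg _ (sub_nonneg.2 h)
        intro i hi
        have h3 := h1 i
        have h4 : (ℓ i : ℤ) ≠ 0 := by
          intro h5
          exact hi (by exact_mod_cast h5)
        rcases mul_eq_zero.1 h3 with h5 | h5
        · exact h5
        · exact absurd h5 h4
      rw [map_sub] at h2
      exact sub_nonpos.1 h2
  have hleb' : ∀ a ∈ E.R, ∀ b ∈ E.R, (leb E.H a b = true ↔ le a b) := by
    intro a ha b hb
    rw [E.hleb a ha b hb]
    constructor
    · intro h i
      show (dig a i : ℤ) ≤ (dig b i : ℤ)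
      exact_mod_cast h i i.2
    · intro h i hi
      have h1 : (dig a i : ℤ) ≤ (dig b i : ℤ) := h ⟨i, hi⟩
      exact_mod_cast h1
  apply transfer M E.hM ℓ (hfin.subset (fun γ h => h.1)) _ hwJ S (dec n) (cW n W) le hDelta
    (fun p hp q hq h => hinj p ((hmemS p).1 hp).1 q ((hmemS q).1 hq).1 h)
    (fun p _ q _ => Iff.rfl) (fun p hp => (hcw p hp).1) (fun p hp => (hcw p hp).2.symm)
  -- the main equality
  set g : ℕ → ℤ := fun a => ∑ i : Fin n, ((i : ℕ) : ℤ) * (dec n a i * (ℓ i : ℤ)) with hg
  apply split_eq le (cW n W) g _ S le_rfl (fun p hp => (hcw p hp).1)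
  · intro p hp q hq h
    have h1 := term_eq ℓ (dec n p) (dec n q)
        (by rw [((hmemS _).1 hp).2, ((hmemS _).1 hq).2]) h
    apply Finset.sum_congr rfl
    intro i _
    have h2 := h1 i
    rw [sub_mul] at h2
    rw [show dec n p i * (ℓ i : ℤ) = dec n q i * (ℓ i : ℤ) by omega]
  · intro p hp
    apply Finset.sum_congr rfl
    intro i _
    rw [(hcw p hp).2]
    by_cases hi : i ∈ J
    · have : (ℓ i : ℤ) = 0 := by exact_mod_cast (show ℓ i = 0 from hi)
      rw [this]; simp
    · rw [weyl_supp M J _ hwJ _ i hi]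
  · intro v
    rcases Finset.eq_empty_or_nonempty (S.filter (fun p => g p = v)) with he | ⟨a, ha⟩
    · rw [he, Mm_empty, SD_empty]; rfl
    · rw [Finset.mem_filter, hmemS] at ha
      obtain ⟨⟨haR, hadeg⟩, hav⟩ := ha
      obtain ⟨β, hβ1, hβ0⟩ := sum_eq_one_cases (fun i => dec n a i * (ℓ i : ℤ))
        (fun i => mul_nonneg (dec_nonneg n a i) (Int.natCast_nonneg _)) hadeg
      have hgval : ∀ b : ℕ, ∀ γ : Fin n, (dec n b γ * (ℓ γ : ℤ) = 1) →
          (∀ i, i ≠ γ → dec n b i * (ℓ i : ℤ) = 0) → g b = ((γ : ℕ) : ℤ) := by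
        intro b γ h1 h2
        show ∑ i : Fin n, ((i : ℕ) : ℤ) * (dec n b i * (ℓ i : ℤ)) = _
        rw [Finset.sum_eq_single γ]
        · rw [h1, mul_one]
        · intro i _ hi; rw [h2 i hi, mul_zero]
        · intro h; exact absurd (Finset.mem_univ _) h
      have hvβ : v = ((β : ℕ) : ℤ) := by rw [← hav]; exact hgval a β hβ1 hβ0
      have hβl : ℓ β = 1 := by
        have h1 : (dig a β : ℤ) * (ℓ β : ℤ) = 1 := hβ1
        have h2 : dig a β * ℓ β = 1 := by exact_mod_cast h1
        exact Nat.eq_one_of_mul_eq_one_left h2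
      have hZβ : Z.getD (β : ℕ) false = false := by rw [hZget, hβl]; rfl
      have hc := hchk2 β (List.mem_range.2 β.2)
      rw [hZβ, Bool.false_or] at hc
      unfold chkβ at hc
      have hc' := of_decide_eq_true hc
      -- identify the filter with the list
      have hset : S.filter (fun p => g p = v) = (PZ n E.R Z β).toFinset := by
        ext b
        rw [Finset.mem_filter, hmemS, List.mem_toFinset]
        unfold PZ
        rw [List.mem_filter, List.all_eq_true]
        constructor
        · rintro ⟨⟨h1, h2⟩, h3⟩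
          refine ⟨h1, ?_⟩
          obtain ⟨γ, hγ1, hγ0⟩ := sum_eq_one_cases (fun i => dec n b i * (ℓ i : ℤ))
            (fun i => mul_nonneg (dec_nonneg n b i) (Int.natCast_nonneg _)) h2
          have h4 : g b = ((γ : ℕ) : ℤ) := hgval b γ hγ1 hγ0
          have h5 : γ = β := by
            apply Fin.ext
            have : ((γ : ℕ) : ℤ) = ((β : ℕ) : ℤ) := by rw [← h4, ← hvβ]; exact h3
            exact_mod_cast this
          subst h5
          intro i hi
          rw [List.mem_range] at hi
          have h6 := hZget ⟨i, hi⟩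
          simp only at h6
          rw [h6]
          by_cases h7 : ℓ ⟨i, hi⟩ = 0
          · rw [decide_eq_true h7]; rfl
          · rw [decide_eq_false h7, Bool.false_or]
            by_cases h8 : i = (γ : ℕ)
            · subst h8
              have h9 : (dig b γ : ℤ) * (ℓ γ : ℤ) = 1 := hγ1
              rw [hβl] at h9
              have h10 : dig b γ = 1 := by
                have : (dig b γ : ℤ) = 1 := by simpa using h9
                exact_mod_cast this
              rw [h10]
              simp
            · have h9 : (dig b i : ℤ) * (ℓ ⟨i, hi⟩ : ℤ) = 0 :=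
                hγ0 ⟨i, hi⟩ (fun h => h8 (by rw [← h]))
              have h10 : dig b i = 0 := by
                have h11 : dig b i * ℓ ⟨i, hi⟩ = 0 := by exact_mod_cast h9
                rcases Nat.mul_eq_zero.1 h11 with h12 | h12
                · exact h12
                · exact absurd h12 h7
              rw [h10]
              have h12 : Nat.beq i (γ : ℕ) = false := by
                rw [← Bool.not_eq_true]; exact fun h => h8 (Nat.eq_of_beq_eq_true h)
              rw [h12]; rfl
        · rintro ⟨h1, h2⟩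
          have h3 : ∀ i : Fin n, ℓ i ≠ 0 → dig b i = if i = β then 1 else 0 := by
            intro i hi
            have h4 := h2 i (List.mem_range.2 i.2)
            rw [hZget, decide_eq_false hi, Bool.false_or] at h4
            have h5 := Nat.eq_of_beq_eq_true h4
            rw [h5]
            by_cases h6 : i = β
            · subst h6; simp
            · have h7 : Nat.beq (i : ℕ) (β : ℕ) = false := by
                rw [← Bool.not_eq_true]
                exact fun h => h6 (Fin.ext (Nat.eq_of_beq_eq_true h))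
              rw [h7, if_neg h6]; rfl
          have hb1 : dec n b β * (ℓ β : ℤ) = 1 := by
            show (dig b β : ℤ) * (ℓ β : ℤ) = 1
            rw [h3 β (by omega), if_pos rfl, hβl]; rfl
          have hb0 : ∀ i, i ≠ β → dec n b i * (ℓ i : ℤ) = 0 := by
            intro i hi
            show (dig b i : ℤ) * (ℓ i : ℤ) = 0
            by_cases h4 : ℓ i = 0
            · rw [h4]; simp
            · rw [h3 i h4, if_neg hi]; simp
          refine ⟨⟨h1, ?_⟩, ?_⟩
          · show ∑ i, dec n b i * (ℓ i : ℤ) = 1
            rw [Finset.sum_eq_single β]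
            · exact hb1
            · intro i _ hi; exact hb0 i hi
            · intro h; exact absurd (Finset.mem_univ _) h
          · rw [hvβ]; exact hgval b β hb1 hb0
      have hsubR : ∀ a ∈ PZ n E.R Z β, a ∈ E.R := fun a ha => List.mem_of_mem_filter ha
      have hpw : (PZ n E.R Z β).Pairwise (fun a b => ¬ le a b) := by
        apply List.Pairwise.filter
        have h1 := E.hsorted
        apply List.Pairwise.imp_of_mem _ h1
        intro a b ha hb hlt hle'
        have h2 := encZ_nonneg _ (sub_nonneg.2 hle')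
        rw [encZ_sub, E.enc_dec b hb, E.enc_dec a ha] at h2
        omega
      have hnd : (PZ n E.R Z β).Nodup := by
        apply List.Nodup.filter
        exact E.hsorted.imp (fun h => by omega)
      have hrevF : Rev le (cW n W) (PZ n E.R Z β).toFinset := by
        rw [← hset]
        refine ⟨fun x hx => ?_, fun x hx => hRev.inv x (Finset.mem_filter.1 hx).1,
          fun x hx y hy h => hRev.rev x (Finset.mem_filter.1 hx).1 y (Finset.mem_filter.1 hy).1 h⟩
        rw [Finset.mem_filter] at hx ⊢
        refine ⟨hRev.maps x hx.1, ?_⟩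
        rw [← hx.2]
        apply Finset.sum_congr rfl
        intro i _
        rw [(hcw x hx.1).2]
        by_cases hi : i ∈ J
        · have : (ℓ i : ℤ) = 0 := by exact_mod_cast (show ℓ i = 0 from hi)
          rw [this]; simp
        · rw [weyl_supp M J _ hwJ _ i hi]
      have hlen : (PZ n E.R Z β).length ≤ E.R.length := List.length_filter_le _ _
      rw [hset, Mlist_eq E.H le hr ht E.R hleb' _ _ hlen hsubR hnd hpw,
        SDlist_eq E.H le hr ht E.R hleb' (cW n W) _ _ hlen hsubR hnd hpw hrevF]
      exact hc'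

end ExcData

end Pool.Agent.Helper57.TM1
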