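import Pool.Agent.Helper57.TM1.Blocks

/-!
The combinatorial statement for the classical types in terms of positions and levels.
-/

namespace Pool.Agent.Helper57.TM1

open Finset Classical

theorem anti_le (N : ℕ) (lev : ℕ → ℤ) (hanti : ∀ x, x + 1 < N → lev (x + 1) ≤ lev x) :
    ∀ x y, x ≤ y → y < N → lev y ≤ lev x := by
  intro x y hxy
  induction y, hxy using Nat.le_induction with
  | base => intro _; exact le_rfl
  | succ y hxy ih => intro h; exact (hanti y h).trans (ih (by omega))

theorem exists_cut (N : ℕ) (P : ℕ → Prop) (hP : ∀ x, x + 1 < N → P (x + 1) → P x) :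
    ∃ a ≤ N, ∀ x < N, (P x ↔ x < a) := by
  induction N with
  | zero => exact ⟨0, le_rfl, fun x hx => absurd hx (Nat.not_lt_zero x)⟩
  | succ N ih =>
    obtain ⟨a, ha, h⟩ := ih (fun x hx => hP x (by omega))
    by_cases hN : P N
    · refine ⟨N + 1, le_rfl, fun x hx => ⟨fun _ => hx, fun _ => ?_⟩⟩
      have : ∀ d x, x + d = N → P x := by
        intro d
        induction d with
        | zero => intro x hx; rw [← show x = N by omega] at hN; exact hN
        | succ d ihd => intro x hx; exact hP x (by omega) (ihd (x + 1) (by omega))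
      exact this (N - x) x (by omega)
    · refine ⟨a, by omega, fun x hx => ?_⟩
      by_cases hxN : x = N
      · subst hxN
        exact ⟨fun h' => absurd h' hN, fun h' => absurd h' (by omega)⟩
      · exact h x (by omega)

theorem level_interval (N : ℕ) (lev : ℕ → ℤ) (hanti : ∀ x, x + 1 < N → lev (x + 1) ≤ lev x)
    (v : ℤ) : ∃ a b, a ≤ b ∧ b ≤ N ∧ ∀ x < N, (lev x = v ↔ a ≤ x ∧ x < b) := by
  obtain ⟨a, ha, h1⟩ := exists_cut N (fun x => v < lev x)
    (fun x hx h => lt_of_lt_of_le h (hanti x hx))
  obtain ⟨b, hb, h2⟩ := exists_cut N (fun x => v ≤ lev x)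
    (fun x hx h => le_trans h (hanti x hx))
  refine ⟨a, max a b, le_max_left _ _, max_le ha hb, fun x hx => ?_⟩
  have h1 := h1 x hx
  have h2 := h2 x hx
  constructor
  · intro h
    have h3 := mt h1.2 (by omega)
    have h4 := h2.1 (by omega)
    exact ⟨by omega, lt_max_of_lt_right h4⟩
  · rintro ⟨h3, h4⟩
    have h5 := mt h1.1 (by omega)
    have h6 := h2.2 (by rcases lt_max_iff.1 h4 with h | h <;> omega)
    omega

theorem rev_formula (a b : ℕ) (f : ℕ → ℕ) (hf : ∀ x, a ≤ x → x < b → a ≤ f x ∧ f x < b)
    (hd : ∀ x, a ≤ x → x + 1 < b → f (x + 1) < f x) :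
    ∀ x, a ≤ x → x < b → f x = a + b - 1 - x := by
  have h1 : ∀ d x, x = a + d → x < b → f x + d < b := by
    intro d
    induction d with
    | zero => intro x hx hb; have := hf x (by omega) hb; omega
    | succ d ih =>
      intro x hx hb
      obtain ⟨y, rfl⟩ : ∃ y, x = y + 1 := ⟨x - 1, by omega⟩
      have := ih y (by omega) (by omega)
      have := hd y (by omega) hb
      omega
  have h2 : ∀ d x, x + d + 1 = b → a ≤ x → a + d ≤ f x := by
    intro d
    induction d with
    | zero => intro x hx ha; have := hf x ha (by omega); omega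
    | succ d ih =>
      intro x hx ha
      have := ih (x + 1) (by omega) (by omega)
      have := hd x ha (by omega)
      omega
  intro x ha hb
  have h3 := h1 (x - a) x (by omega) hb
  have h4 := h2 (b - 1 - x) x (by omega) ha
  omega

/-- the set of pairs of positions describing the roots of degree one -/
noncomputable def posS (N e : ℕ) (st : Prop) (lev : ℕ → ℤ) : Finset (ℕ × ℕ) :=
  (range N ×ˢ range N).filter (fun p => lev p.1 = lev p.2 + 2 ∧
    (0 ≤ lev p.2 ∨ (st ∧ lev p.2 = -1 ∧ p.1 + p.2 + e + 1 ≤ N)))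

theorem mem_posS (N e : ℕ) (st : Prop) (lev : ℕ → ℤ) (p : ℕ × ℕ) :
    p ∈ posS N e st lev ↔ (p.1 < N ∧ p.2 < N) ∧ lev p.1 = lev p.2 + 2 ∧
    (0 ≤ lev p.2 ∨ (st ∧ lev p.2 = -1 ∧ p.1 + p.2 + e + 1 ≤ N)) := by
  unfold posS; rw [mem_filter, mem_product, mem_range, mem_range]

/-- the action on pairs -/
noncomputable def posC (N : ℕ) (lev : ℕ → ℤ) (τ : ℕ → ℕ) (p : ℕ × ℕ) : ℕ × ℕ :=
  if 0 ≤ lev p.2 then (τ p.1, τ p.2) else (N - 1 - τ p.2, N - 1 - τ p.1)

theorem pos_main (N m e : ℕ) (st : Prop) (lev : ℕ → ℤ) (τ : ℕ → ℕ)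
    (hanti : ∀ x, x + 1 < N → lev (x + 1) ≤ lev x)
    (hτN : ∀ x < N, τ x < N) (hlev : ∀ x < N, lev (τ x) = lev x)
    (hdec : ∀ x, x + 1 < N → lev x = lev (x + 1) → x + 1 ≠ m → τ (x + 1) < τ x)
    (hst : st → (∀ x < N, lev (N - 1 - x) = - lev x) ∧ (∀ x < N, τ (N - 1 - x) = N - 1 - τ x))
    (hQ : m ≠ 0 → N = 2 * m ∧ (∀ x < N, lev (N - 1 - x) = - lev x) ∧
      ∀ r, (∀ x < N, (lev x = 0 ↔ m ≤ x + (r + 1) ∧ x < m + (r + 1))) → r + 1 ≤ m → 
        ∀ y < N, lev y = 0 → τ y = if r % 2 = 0 ∧ (y + 1 = m ∨ y = m) then y else 2 * m - 1 - y) :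
    (∀ p ∈ posS N e st lev, posC N lev τ p ∈ posS N e st lev) ∧
    Mm (leP m) (posS N e st lev) = SD (leP m) (posC N lev τ) (posS N e st lev) := by
  have hanti' := anti_le N lev hanti
  have hmid : m ≠ 0 → lev (m - 1) = lev m → lev m = 0 := by
    intro h1 h2
    obtain ⟨h3, h4, -⟩ := hQ h1
    have h5 := h4 m (by omega)
    rw [show N - 1 - m = m - 1 by omega] at h5
    omega
  -- reversal formula on an interval not meeting the middle
  have hrevI : ∀ v a b, a ≤ b → b ≤ N → (∀ x < N, (lev x = v ↔ a ≤ x ∧ x < b)) →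
      ¬ (a < m ∧ m < b) → ∀ x, a ≤ x → x < b → τ x = a + b - 1 - x := by
    intro v a b hab hbN hI hm
    apply rev_formula
    · intro x h1 h2
      have h3 := hlev x (by omega)
      rw [(hI x (by omega)).2 ⟨h1, h2⟩] at h3
      exact (hI (τ x) (hτN x (by omega))).1 h3
    · intro x h1 h2
      apply hdec x (by omega) _ (by omega)
      rw [(hI x (by omega)).2 ⟨h1, by omega⟩, (hI (x + 1) (by omega)).2 ⟨by omega, h2⟩]
  have hcS : ∀ p ∈ posS N e st lev, posC N lev τ p ∈ posS N e st lev ∧
      lev (posC N lev τ p).2 = lev p.2 := by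
    intro p hp
    rw [mem_posS] at hp
    rw [mem_posS]
    unfold posC
    obtain ⟨⟨h1, h2⟩, h3, h4⟩ := hp
    split_ifs with h5
    · simp only [hlev _ h1, hlev _ h2]
      exact ⟨⟨⟨hτN _ h1, hτN _ h2⟩, h3, Or.inl h5⟩, trivial⟩
    · obtain ⟨hs, h6, h7⟩ := h4.resolve_left h5
      obtain ⟨h8, h9⟩ := hst hs
      have h10 := hτN _ h1
      have h11 := hτN _ h2
      have h12 : lev (N - 1 - τ p.1) = - lev p.1 := by rw [h8 _ h10, hlev _ h1]
      have h13 : lev (N - 1 - τ p.2) = - lev p.2 := by rw [h8 _ h11, hlev _ h2]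
      simp only [h12, h13]
      refine ⟨⟨⟨by omega, by omega⟩, by omega, Or.inr ⟨hs, by omega, ?_⟩⟩, by omega⟩
      -- x + y + e + 1 ≤ N  : use the reversal formula on level 1
      obtain ⟨a, b, hab, hbN, hI⟩ := level_interval N lev hanti 1
      have hnm : ¬ (a < m ∧ m < b) := by
        rintro ⟨k1, k2⟩
        have k3 := (hI (m - 1) (by omega)).2 ⟨by omega, by omega⟩
        have k4 := (hI m (by omega)).2 ⟨by omega, by omega⟩
        have := hmid (by omega) (by omega)
        omega
      have hr := hrevI 1 a b hab hbN hI hnm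
      have k1 := (hI p.1 h1).1 (by omega)
      have k2 := (hI (N - 1 - p.2) (by omega)).1 (by rw [h8 _ h2]; omega)
      have k3 := hr p.1 k1.1 k1.2
      have k4 := hr (N - 1 - p.2) k2.1 k2.2
      rw [h9 _ h2] at k4
      omega
  refine ⟨fun p hp => (hcS p hp).1, ?_⟩
  apply split_eq (leP m) (posC N lev τ) (fun p => lev p.2) _ _ le_rfl (fun p hp => (hcS p hp).1)
  · intro p hp q hq hle
    rw [mem_posS] at hp hq
    unfold leP at hle
    have h1 := hanti' q.1 p.1 hle.1 hp.1.1
    have h2 := hanti' p.2 q.2 hle.2.1 hq.1.2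
    show lev p.2 = lev q.2
    omega
  · intro p hp; exact (hcS p hp).2
  · intro v
    by_cases hv0 : 0 ≤ v
    · obtain ⟨a, a', haa, haN, hIa⟩ := level_interval N lev hanti (v + 2)
      obtain ⟨b, b', hbb, hbN, hIb⟩ := level_interval N lev hanti v
      obtain ⟨k, rfl⟩ : ∃ k, a' = a + k := ⟨a' - a, by omega⟩
      obtain ⟨l, rfl⟩ : ∃ l, b' = b + l := ⟨b' - b, by omega⟩
      have hS : (posS N e st lev).filter (fun p => lev p.2 = v) =
          Ico a (a + k) ×ˢ Ico b (b + l) := by
        ext p
        rw [mem_filter, mem_posS, mem_product, mem_Ico, mem_Ico]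
        constructor
        · rintro ⟨⟨⟨h1, h2⟩, h3, -⟩, h5⟩
          exact ⟨(hIa _ h1).1 (by omega), (hIb _ h2).1 h5⟩
        · rintro ⟨h1, h2⟩
          have h3 := (hIa p.1 (by omega)).2 h1
          have h4 := (hIb p.2 (by omega)).2 h2
          exact ⟨⟨⟨by omega, by omega⟩, by omega, Or.inl (by omega)⟩, h4⟩
      have hnma : ¬ (a < m ∧ m < a + k) := by
        rintro ⟨k1, k2⟩
        have k3 := (hIa (m - 1) (by omega)).2 ⟨by omega, by omega⟩
        have k4 := (hIa m (by omega)).2 ⟨by omega, by omega⟩
        have := hmid (by omega) (by omega)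
        omega
      have hra := hrevI _ a (a + k) haa haN hIa hnma
      have hcv : ∀ p ∈ Ico a (a + k) ×ˢ Ico b (b + l),
          posC N lev τ p = (2 * a + k - 1 - p.1, τ p.2) := by
        intro p hp
        rw [mem_product, mem_Ico, mem_Ico] at hp
        have h1 := (hIb p.2 (by omega)).2 hp.2
        unfold posC
        rw [if_pos (by omega), hra p.1 hp.1.1 hp.1.2]
        congr 1; omega
      rw [hS]
      by_cases hnmb : b < m ∧ m < b + l
      · -- the Q block
        have k3 := (hIb (m - 1) (by omega)).2 ⟨by omega, by omega⟩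
        have k4 := (hIb m (by omega)).2 ⟨by omega, by omega⟩
        have hv : v = 0 := by rw [← k4]; exact hmid (by omega) (by omega)
        subst hv
        obtain ⟨hN2, hsym, hQ'⟩ := hQ (by omega)
        -- symmetric interval
        have s1 : b + (b + l) = N := by
          have j1 := (hIb b (by omega)).2 ⟨by omega, by omega⟩
          have j2 := (hIb (b + l - 1) (by omega)).2 ⟨by omega, by omega⟩
          have j3 := hsym b (by omega)
          have j4 := hsym (b + l - 1) (by omega)
          have j5 := (hIb (N - 1 - b) (by omega)).1 (by omega)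
          have j6 := (hIb (N - 1 - (b + l - 1)) (by omega)).1 (by omega)
          omega
        obtain ⟨r, hr⟩ : ∃ r, l = 2 * (r + 1) := ⟨m - b - 1, by omega⟩
        subst hr
        have hmb : m = b + r + 1 := by omega
        have hform := hQ' r (fun x hx => by rw [hIb x hx]; omega) (by omega)
        rw [Q_M m r k a b hmb, Q_SD (r % 2) m (2 * a + k - 1) _ _ r k a b le_rfl hmb rfl]
        · unfold Uq
          split_ifs <;> rfl
        · intro p hp
          rw [hcv p hp]
          rw [mem_product, mem_Ico, mem_Ico] at hp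
          rw [hform p.2 (by omega) ((hIb p.2 (by omega)).2 hp.2)]
          rfl
      · have hrb := hrevI _ b (b + l) hbb hbN hIb hnmb
        rw [grid_M m _ _ _ _ _ le_rfl hnmb, grid_SD m _ _ _ _ _ _ le_rfl hnmb]
        intro p hp
        rw [hcv p hp]
        rw [mem_product, mem_Ico, mem_Ico] at hp
        rw [hrb p.2 hp.2.1 hp.2.2]
        congr 1; omega
    · by_cases hv1 : v = -1 ∧ st
      · obtain ⟨rfl, hs⟩ := hv1
        obtain ⟨hsym, hτs⟩ := hst hs
        obtain ⟨a, a', haa, haN, hI⟩ := level_interval N lev hanti 1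
        have hnm : ¬ (a < m ∧ m < a') := by
          rintro ⟨k1, k2⟩
          have k3 := (hI (m - 1) (by omega)).2 ⟨by omega, by omega⟩
          have k4 := (hI m (by omega)).2 ⟨by omega, by omega⟩
          have := hmid (by omega) (by omega)
          omega
        have hr := hrevI 1 a a' haa haN hI hnm
        have hS : ∀ p, p ∈ (posS N e st lev).filter (fun p => lev p.2 = -1) ↔
            a ≤ p.1 ∧ p.1 < a' ∧ N ≤ p.2 + a' ∧ p.2 + a < N ∧ p.1 + p.2 + e + 1 ≤ N := by
          intro p
          rw [mem_filter, mem_posS]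
          constructor
          · rintro ⟨⟨⟨h1, h2⟩, h3, h4⟩, h5⟩
            have h6 := h4.resolve_left (by omega)
            have h7 := (hI _ h1).1 (by omega)
            have h8 := (hI (N - 1 - p.2) (by omega)).1 (by rw [hsym _ h2]; omega)
            omega
          · rintro ⟨h1, h2, h3, h4, h5⟩
            have h6 := (hI p.1 (by omega)).2 ⟨h1, h2⟩
            have h7 := (hI (N - 1 - p.2) (by omega)).2 (by omega)
            rw [hsym _ (by omega)] at h7
            exact ⟨⟨⟨by omega, by omega⟩, by omega, Or.inr ⟨hs, by omega, h5⟩⟩, by omega⟩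
        by_cases hsz : a + e + 1 ≤ a'
        · obtain ⟨t, rfl⟩ : ∃ t, a' = a + e + 1 + t := ⟨a' - (a + e + 1), by omega⟩
          have hS' : (posS N e st lev).filter (fun p => lev p.2 = -1) =
              stair a (N - (a + e + 1 + t)) t := by
            ext p; rw [hS, mem_stair]; omega
          have hmle : m ≤ N - (a + e + 1 + t) := by
            by_cases hm0 : m = 0
            · omega
            · obtain ⟨hN2, -, -⟩ := hQ hm0
              by_contra hcon
              have k1 := (hI (a + e + t) (by omega)).2 ⟨by omega, by omega⟩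
              have k2 := hsym (a + e + t) (by omega)
              have k3 := hanti' (N - 1 - (a + e + t)) (a + e + t) (by omega) (by omega)
              omega
          rw [hS', stair_M m t a _ hmle, SD_fixed (leP m) _ _ (a, N - (a + e + 1 + t))]
          · rfl
          · rw [mem_stair]; simp only; omega
          · have k1 := (hI (a + e + t) (by omega)).2 ⟨by omega, by omega⟩
            have k2 := hsym (a + e + t) (by omega)
            have k3 : N - 1 - (a + e + t) = N - (a + e + 1 + t) := by omega
            unfold posC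
            simp only
            rw [← k3, if_neg (by omega), hτs _ (by omega), hr a (by omega) (by omega),
              hr (a + e + t) (by omega) (by omega)]
            ext <;> simp <;> omega
        · have hS' : (posS N e st lev).filter (fun p => lev p.2 = -1) = ∅ := by
            rw [Finset.eq_empty_iff_forall_notMem]; intro p; rw [hS]; omega
          rw [hS', Mm_empty, SD_empty]; rfl
      · have hS' : (posS N e st lev).filter (fun p => lev p.2 = v) = ∅ := by
          rw [Finset.eq_empty_iff_forall_notMem]; intro p hp; rw [mem_filter, mem_posS] at hp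
          obtain ⟨⟨-, -, h4⟩, h5⟩ := hp
          have := h4.resolve_left (by omega)
          exact hv1 ⟨by omega, this.1⟩
        rw [hS', Mm_empty, SD_empty]; rfl

end Pool.Agent.Helper57.TM1
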