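import Pool.Agent.Helper57.TM1.Root
import Pool.Agent.Helper57.TM1.Positions

/-!
Position models of the classical root systems and the general theorem for them.
-/

namespace Pool.Agent.Helper57.TM1

open Finset Classical

variable {n : ℕ}

/-- A position model for the root system of a Cartan matrix. -/
structure PosModel (M : Matrix (Fin n) (Fin n) ℤ) where
  N : ℕ
  m : ℕ
  e : ℕ
  st : Prop
  mir : Prop
  ok : ℕ → ℕ → Prop
  ψ : ℕ → Fin n → ℤ
  σ : Fin n → ℕ → ℕ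
  p : Fin n → ℕ → ℤ
  hM : ∀ j, M j j = 2
  hpair : ∀ j x, x + 1 < N → pairing M j (ψ x - ψ (x + 1)) = p j x - p j (x + 1)
  hσψ : ∀ j x, x < N → ψ (σ j x) = ψ x - p j x • (Pi.single j 1 : Fin n → ℤ)
  hσN : ∀ j x, x < N → σ j x < N
  hσσ : ∀ j x, x < N → σ j (σ j x) = x
  hσok : ∀ j x y, x < N → y < N → ok x y → ok (σ j x) (σ j y)
  hsimple : ∀ j, ∃ x y, x < N ∧ y < N ∧ ok x y ∧ ψ x - ψ y = Pi.single j 1
  hred : ∀ x y, x < y → y < N → ok x y → (∃ j, ψ x - ψ y = Pi.single j 1) ∨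
    (∃ j, σ j x < σ j y ∧ σ j y - σ j x < y - x)
  hoksym : ∀ x y, ok x y → ok y x
  hokne : ∀ x y, ok x y → x ≠ y
  hpos : ∀ x y, x < y → y < N → ok x y → 0 ≤ ψ x - ψ y
  hneg : ∀ x y, x < N → y < N → ψ x - ψ y ≤ 0 → y ≤ x
  hstep : ∀ x, x + 1 < N → x + 1 ≠ m → ∃ k, ψ x - ψ (x + 1) = Pi.single k 1
  hmψ : mir → ∀ x < N, ψ x + ψ (N - 1 - x) = ψ 0 + ψ (N - 1)
  hmσ : mir → ∀ j, ∀ x < N, σ j (N - 1 - x) = N - 1 - σ j x
  hgood : ∀ x y, x < y → y < N → (mir → x + y + e + 1 ≤ N) → ok x y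
  hokmir : mir → ∀ x y, x < N → y < N → ok x y → 
    x + y + e + 1 ≤ N ∨ (N - 1 - x) + (N - 1 - y) + e + 1 ≤ N
  hle : ∀ x y x' y', x < y → y < N → (mir → x + y + e + 1 ≤ N) → x' < y' → y' < N →
    (mir → x' + y' + e + 1 ≤ N) → (ψ x - ψ y ≤ ψ x' - ψ y' ↔ leP m (x, y) (x', y'))
  hm : m ≠ 0 → N = 2 * m ∧ mir
  hstm : st → mir
  hem : mir → 0 < N ∧ e ≤ 1

namespace PosModel

variable {M : Matrix (Fin n) (Fin n) ℤ} (P : PosModel M)

theorem pair_sub (j : Fin n) : ∀ x y, x ≤ y → y < P.N →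
    pairing M j (P.ψ x - P.ψ y) = P.p j x - P.p j y := by
  intro x y hxy
  induction y, hxy using Nat.le_induction with
  | base => intro _; simp
  | succ y hxy ih =>
    intro hy
    have h1 := ih (by omega)
    have h2 := P.hpair j y hy
    have h3 : P.ψ x - P.ψ (y + 1) = (P.ψ x - P.ψ y) + (P.ψ y - P.ψ (y + 1)) := by abel
    rw [h3, map_add, h1, h2]; ring

theorem pair_sub' (j : Fin n) (x y : ℕ) (hx : x < P.N) (hy : y < P.N) :
    pairing M j (P.ψ x - P.ψ y) = P.p j x - P.p j y := by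
  rcases le_total x y with h | h
  · exact P.pair_sub j x y h hy
  · rw [← neg_sub, map_neg, P.pair_sub j y x h hx]; ring

theorem refl_sub (j : Fin n) (x y : ℕ) (hx : x < P.N) (hy : y < P.N) :
    sRefl M j (P.ψ x - P.ψ y) = P.ψ (P.σ j x) - P.ψ (P.σ j y) := by
  rw [sRefl_apply, P.pair_sub' j x y hx hy, P.hσψ j x hx, P.hσψ j y hy, sub_smul]
  abel

theorem reach : ∀ (d x y : ℕ), y - x ≤ d → x < y → y < P.N → P.ok x y →
    P.ψ x - P.ψ y ∈ rootSet M := by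
  intro d
  induction d with
  | zero => intro x y h1 h2; omega
  | succ d ih =>
    intro x y h1 h2 h3 h4
    rcases P.hred x y h2 h3 h4 with ⟨j, hj⟩ | ⟨j, h5, h6⟩
    · rw [hj]; exact single_mem_rootSet M j
    · have hx : x < P.N := by omega
      have h7 := ih (P.σ j x) (P.σ j y) (by omega) h5 (P.hσN j y h3) (P.hσok j x y hx h3 h4)
      have h8 : P.ψ x - P.ψ y = sRefl M j (P.ψ (P.σ j x) - P.ψ (P.σ j y)) := by
        rw [P.refl_sub j _ _ (P.hσN j x hx) (P.hσN j y h3), P.hσσ j x hx, P.hσσ j y h3]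
      rw [h8]
      exact sRefl_mem_rootSet M j h7

theorem mem_rootSet (γ : Fin n → ℤ) :
    γ ∈ rootSet M ↔ ∃ x y, x < P.N ∧ y < P.N ∧ P.ok x y ∧ γ = P.ψ x - P.ψ y := by
  constructor
  · rintro ⟨w, hw, j, rfl⟩
    refine Submonoid.closure_induction_left (s := sRefl M '' Set.univ)
      (motive := fun w _ => ∃ x y, x < P.N ∧ y < P.N ∧ P.ok x y ∧
        w (Pi.single j 1) = P.ψ x - P.ψ y) ?_ ?_ hw
    · obtain ⟨x, y, h1, h2, h3, h4⟩ := P.hsimple j
      exact ⟨x, y, h1, h2, h3, h4.symm⟩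
    · rintro _ ⟨i, -, rfl⟩ v _ ⟨x, y, h1, h2, h3, h4⟩
      refine ⟨P.σ i x, P.σ i y, P.hσN i x h1, P.hσN i y h2, P.hσok i x y h1 h2 h3, ?_⟩
      show sRefl M i (v (Pi.single j 1)) = _
      rw [h4, P.refl_sub i x y h1 h2]
  · rintro ⟨x, y, h1, h2, h3, rfl⟩
    rcases Nat.lt_or_ge x y with h | h
    · exact P.reach _ x y le_rfl h h2 h3
    · have hne := P.hokne x y h3
      have h4 := P.reach _ y x le_rfl (by omega) h1 (P.hoksym _ _ h3)
      have h5 := neg_mem_rootSet M P.hM h4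
      rwa [neg_sub] at h5

include P in
theorem finite : (rootSet M).Finite := by
  apply Set.Finite.subset ((range P.N ×ˢ range P.N).image
    (fun p => P.ψ p.1 - P.ψ p.2)).finite_toSet
  intro γ hγ
  obtain ⟨x, y, h1, h2, -, rfl⟩ := (P.mem_rootSet γ).1 hγ
  rw [mem_coe, mem_image]
  exact ⟨(x, y), by simp [h1, h2], rfl⟩

include P in
theorem signCoh : SignCoh M := by
  intro γ hγ
  obtain ⟨x, y, h1, h2, h3, rfl⟩ := (P.mem_rootSet γ).1 hγ
  have hne := P.hokne x y h3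
  rcases Nat.lt_or_ge x y with h | h
  · exact Or.inl (P.hpos x y h h2 h3)
  · right
    have := P.hpos y x (by omega) h1 (P.hoksym _ _ h3)
    rw [← neg_sub]
    exact neg_nonpos.2 this

/-- the permutation of positions attached to a word -/
def tau : List (Fin n) → ℕ → ℕ
  | [], x => x
  | j :: l, x => P.σ j (tau l x)

theorem tau_lt (l : List (Fin n)) (x : ℕ) (hx : x < P.N) : P.tau l x < P.N := by
  induction l with
  | nil => exact hx
  | cons j l ih => exact P.hσN j _ ih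

theorem tau_inj (l : List (Fin n)) (x y : ℕ) (hx : x < P.N) (hy : y < P.N)
    (h : P.tau l x = P.tau l y) : x = y := by
  induction l with
  | nil => exact h
  | cons j l ih =>
    apply ih
    have h1 : P.σ j (P.σ j (P.tau l x)) = P.σ j (P.σ j (P.tau l y)) := congrArg _ h
    rwa [P.hσσ j _ (P.tau_lt l x hx), P.hσσ j _ (P.tau_lt l y hy)] at h1

theorem tau_mir (hm : P.mir) (l : List (Fin n)) (x : ℕ) (hx : x < P.N) :
    P.tau l (P.N - 1 - x) = P.N - 1 - P.tau l x := by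
  induction l with
  | nil => rfl
  | cons j l ih =>
    show P.σ j (P.tau l (P.N - 1 - x)) = _
    rw [ih, P.hmσ hm j _ (P.tau_lt l x hx)]; rfl

theorem wp_sub (l : List (Fin n)) (x y : ℕ) (hx : x < P.N) (hy : y < P.N) :
    wp M l (P.ψ x - P.ψ y) = P.ψ (P.tau l x) - P.ψ (P.tau l y) := by
  induction l with
  | nil => rfl
  | cons j l ih =>
    rw [wp_cons]
    show sRefl M j (wp M l (P.ψ x - P.ψ y)) = _
    rw [ih, P.refl_sub j _ _ (P.tau_lt l x hx) (P.tau_lt l y hy)]; rfl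

/-- (doubled) level of a position -/
def lev (ℓ : Fin n → ℕ) (K : ℤ) (x : ℕ) : ℤ := K + 2 * deg ℓ (P.ψ x)

theorem tau_lev (ℓ : Fin n → ℕ) (K : ℤ) (l : List (Fin n)) (hl : ∀ j ∈ l, ℓ j = 0) (x : ℕ)
    (hx : x < P.N) : P.lev ℓ K (P.tau l x) = P.lev ℓ K x := by
  induction l with
  | nil => rfl
  | cons j l ih =>
    rw [← ih (fun i hi => hl i (List.mem_cons_of_mem _ hi))]
    show P.lev ℓ K (P.σ j (P.tau l x)) = _
    unfold lev
    rw [P.hσψ j _ (P.tau_lt l x hx), deg_sub, deg_smul, deg_single, hl j List.mem_cons_self]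
    simp

theorem lev_sub (ℓ : Fin n → ℕ) (K : ℤ) (x y : ℕ) :
    P.lev ℓ K x - P.lev ℓ K y = 2 * deg ℓ (P.ψ x - P.ψ y) := by
  unfold lev; rw [deg_sub]; ring

theorem main (ℓ : Fin n → ℕ) (K : ℤ)
    (hanti : ∀ x, x + 1 < P.N → P.lev ℓ K (x + 1) ≤ P.lev ℓ K x)
    (hK : P.mir → 2 * K = - 2 * deg ℓ (P.ψ 0 + P.ψ (P.N - 1)))
    (hA : ¬ P.mir → ∀ x < P.N, 0 ≤ P.lev ℓ K x)
    (hnost : ¬ P.st → ∀ x < P.N, P.lev ℓ K x ≠ -1)
    (w : Module.End ℤ (Fin n → ℤ)) (hw : IsLongest M ℓ w)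
    (hQ : P.m ≠ 0 → ∀ l : List (Fin n), (∀ j ∈ l, ℓ j = 0) →
      (∀ j, ℓ j = 0 → wp M l (Pi.single j 1) ≤ 0) →
      ∀ r, (∀ x < P.N, (P.lev ℓ K x = 0 ↔ P.m ≤ x + (r + 1) ∧ x < P.m + (r + 1))) →
        r + 1 ≤ P.m → ∀ y < P.N, P.lev ℓ K y = 0 →
          P.tau l y = if r % 2 = 0 ∧ (y + 1 = P.m ∨ y = P.m) then y else 2 * P.m - 1 - y) :
    (idealPoly M ℓ).eval (-1) =
      ({I | I ∈ UpperIdeals M ℓ ∧ Delta1 M ℓ \ (w '' I) = I}.ncard : ℤ) := by
  obtain ⟨hwJ, hneg⟩ := hw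
  obtain ⟨l, hl, rfl⟩ := (mem_weyl_iff M _ _).1 hwJ
  have hl' : ∀ j ∈ l, ℓ j = 0 := hl
  have hmirlev : P.mir → ∀ x < P.N, P.lev ℓ K (P.N - 1 - x) = - P.lev ℓ K x := by
    intro hm x hx
    have h1 := P.hmψ hm x hx
    have h2 := hK hm
    unfold lev
    rw [← h1, deg_add] at h2
    linarith
  have hanti' := anti_le P.N (P.lev ℓ K) hanti
  have hdec : ∀ x, x + 1 < P.N → P.lev ℓ K x = P.lev ℓ K (x + 1) → x + 1 ≠ P.m →
      P.tau l (x + 1) < P.tau l x := by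
    intro x hx h1 h2
    obtain ⟨k, hk⟩ := P.hstep x hx h2
    have h3 := P.lev_sub ℓ K x (x + 1)
    rw [hk, deg_single, h1, sub_self] at h3
    have h4 : ℓ k = 0 := by omega
    have h5 := hneg k h4
    rw [← hk, P.wp_sub l x (x + 1) (by omega) hx] at h5
    have h6 := P.hneg _ _ (P.tau_lt l x (by omega)) (P.tau_lt l (x + 1) hx) h5
    have h7 : P.tau l (x + 1) ≠ P.tau l x := fun h => by
      have := P.tau_inj l _ _ hx (by omega) h
      omega
    omega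
  have hpm := pos_main P.N P.m P.e P.st (P.lev ℓ K) (P.tau l) hanti
    (fun x hx => P.tau_lt l x hx) (fun x hx => P.tau_lev ℓ K l hl' x hx) hdec
    (fun hs => ⟨hmirlev (P.hstm hs), fun x hx => P.tau_mir (P.hstm hs) l x hx⟩)
    (fun hm => ⟨(P.hm hm).1, hmirlev (P.hm hm).2, hQ hm l hl' hneg⟩)
  -- properties of elements of posS
  have hgoodS : ∀ p ∈ posS P.N P.e P.st (P.lev ℓ K), p.1 < p.2 ∧ p.2 < P.N ∧
      (P.mir → p.1 + p.2 + P.e + 1 ≤ P.N) := by
    intro p hp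
    rw [mem_posS] at hp
    obtain ⟨⟨h1, h2⟩, h3, h4⟩ := hp
    refine ⟨?_, h2, ?_⟩
    · by_contra h
      have := hanti' p.2 p.1 (by omega) h1
      omega
    · intro hm
      rcases h4 with h4 | h4
      · have h5 := hmirlev hm p.2 h2
        have h6 := (P.hem hm).2
        by_contra h
        have h7 := hanti' (P.N - 1 - p.2) p.1 (by omega) h1
        omega
      · exact h4.2.2
  apply transfer M P.hM ℓ (P.finite.subset (fun γ h => h.1)) (wp M l) hwJ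
    (posS P.N P.e P.st (P.lev ℓ K)) (fun p => P.ψ p.1 - P.ψ p.2)
    (posC P.N (P.lev ℓ K) (P.tau l)) (leP P.m) ?_ ?_ ?_ hpm.1 ?_ hpm.2
  · intro γ
    constructor
    · rintro ⟨h1, h2⟩
      obtain ⟨x, y, hx, hy, hok, rfl⟩ := (P.mem_rootSet γ).1 h1
      have h3 := P.lev_sub ℓ K x y
      rw [h2] at h3
      by_cases hm : P.mir
      · have hx' := hmirlev hm x hx
        have hy' := hmirlev hm y hy
        have hmψ : P.ψ (P.N - 1 - y) - P.ψ (P.N - 1 - x) = P.ψ x - P.ψ y := by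
          have e1 := P.hmψ hm x hx
          have e2 := P.hmψ hm y hy
          have e3 : P.ψ (P.N - 1 - y) = P.ψ 0 + P.ψ (P.N - 1) - P.ψ y := by rw [← e2]; abel
          have e4 : P.ψ (P.N - 1 - x) = P.ψ 0 + P.ψ (P.N - 1) - P.ψ x := by rw [← e1]; abel
          rw [e3, e4]; abel
        by_cases h4 : 0 ≤ P.lev ℓ K y
        · exact ⟨(x, y), (mem_posS _ _ _ _ _).2 ⟨⟨hx, hy⟩, by simp only; omega, Or.inl h4⟩, rfl⟩
        · by_cases h5 : P.lev ℓ K y = -1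
          · have hst : P.st := by
              by_contra h; exact hnost h y hy h5
            rcases P.hokmir hm x y hx hy hok with h6 | h6
            · exact ⟨(x, y), (mem_posS _ _ _ _ _).2 ⟨⟨hx, hy⟩, by simp only; omega,
                Or.inr ⟨hst, h5, h6⟩⟩, rfl⟩
            · refine ⟨(P.N - 1 - y, P.N - 1 - x), (mem_posS _ _ _ _ _).2 ⟨⟨?_, ?_⟩, ?_, ?_⟩, hmψ⟩
              · simp only; omega
              · simp only; omega
              · simp only; omega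
              · right; refine ⟨hst, ?_, ?_⟩ <;> simp only <;> omega
          · refine ⟨(P.N - 1 - y, P.N - 1 - x), (mem_posS _ _ _ _ _).2 ⟨⟨?_, ?_⟩, ?_, ?_⟩, hmψ⟩
            · simp only; omega
            · simp only; omega
            · simp only; omega
            · left; simp only; omega
      · exact ⟨(x, y), (mem_posS _ _ _ _ _).2 ⟨⟨hx, hy⟩, by simp only; omega,
          Or.inl (hA hm y hy)⟩, rfl⟩
    · rintro ⟨p, hp, rfl⟩
      obtain ⟨h1, h2, h3⟩ := hgoodS p hp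
      rw [mem_posS] at hp
      refine ⟨(P.mem_rootSet _).2 ⟨p.1, p.2, hp.1.1, h2, P.hgood _ _ h1 h2 h3, rfl⟩, ?_⟩
      have h4 := P.lev_sub ℓ K p.1 p.2
      show deg ℓ (P.ψ p.1 - P.ψ p.2) = 1
      omega
  · intro p hp q hq h
    obtain ⟨h1, h2, h3⟩ := hgoodS p hp
    obtain ⟨h1', h2', h3'⟩ := hgoodS q hq
    have a1 := (P.hle p.1 p.2 q.1 q.2 h1 h2 h3 h1' h2' h3').1 (le_of_eq h)
    have a2 := (P.hle q.1 q.2 p.1 p.2 h1' h2' h3' h1 h2 h3).1 (le_of_eq h.symm)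
    unfold leP at a1 a2
    simp only at a1 a2
    ext
    · omega
    · omega
  · intro p hp q hq
    obtain ⟨h1, h2, h3⟩ := hgoodS p hp
    obtain ⟨h1', h2', h3'⟩ := hgoodS q hq
    exact (P.hle p.1 p.2 q.1 q.2 h1 h2 h3 h1' h2' h3').symm
  · intro p hp
    rw [mem_posS] at hp
    obtain ⟨⟨h1, h2⟩, h3, h4⟩ := hp
    show wp M l (P.ψ p.1 - P.ψ p.2) = _
    rw [P.wp_sub l _ _ h1 h2]
    unfold posC
    split_ifs with h5
    · rfl
    · obtain ⟨hs, h6, h7⟩ := h4.resolve_left h5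
      have hm := P.hstm hs
      have e1 := P.hmψ hm _ (P.tau_lt l _ h1)
      have e2 := P.hmψ hm _ (P.tau_lt l _ h2)
      have e3 : P.ψ (P.N - 1 - P.tau l p.2) = P.ψ 0 + P.ψ (P.N - 1) - P.ψ (P.tau l p.2) := by
        rw [← e2]; abel
      have e4 : P.ψ (P.N - 1 - P.tau l p.1) = P.ψ 0 + P.ψ (P.N - 1) - P.ψ (P.tau l p.1) := by
        rw [← e1]; abel
      simp only
      rw [e3, e4]; abel

end PosModel

end Pool.Agent.Helper57.TM1
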