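import Pool.Agent.Helper57.TM1.Comb
import Pool.Agent.Helper57.TM1.Defs

/-!
Root systems in simple-root coordinates: definitions and the basic theory of the longest
element of a parabolic subgroup.
-/

namespace Pool.Agent.Helper57.TM1

variable {n : ℕ}

/-- `⟨c, α_j^∨⟩ = ∑ i, c i * M i j` where `M i j = ⟨α_i, α_j^∨⟩` is the Cartan matrix. -/
def pairing (M : Matrix (Fin n) (Fin n) ℤ) (j : Fin n) : (Fin n → ℤ) →ₗ[ℤ] ℤ where
  toFun c := ∑ i, c i * M i j
  map_add' a b := by simp [add_mul, Finset.sum_add_distrib]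
  map_smul' r a := by simp [Finset.mul_sum, mul_assoc]

theorem sRefl_apply (M : Matrix (Fin n) (Fin n) ℤ) (j : Fin n) (c : Fin n → ℤ) :
    sRefl M j c = c - (pairing M j c) • (Pi.single j 1 : Fin n → ℤ) := rfl

theorem sRefl_eq (M : Matrix (Fin n) (Fin n) ℤ) (j : Fin n) :
    sRefl M j = Module.preReflection (Pi.single j 1 : Fin n → ℤ) (pairing M j) := by
  apply LinearMap.ext; intro c
  rw [sRefl_apply, Module.preReflection_apply]

theorem pairing_single (M : Matrix (Fin n) (Fin n) ℤ) (i j : Fin n) :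
    pairing M j (Pi.single i 1) = M i j := by
  simp [pairing, Pi.single_apply]

theorem sRefl_apply_ne (M : Matrix (Fin n) (Fin n) ℤ) (j i : Fin n) (h : i ≠ j) (c : Fin n → ℤ) :
    sRefl M j c i = c i := by
  rw [sRefl_apply]; simp [h]

theorem sRefl_single (M : Matrix (Fin n) (Fin n) ℤ) (hM : ∀ j, M j j = 2) (j : Fin n) :
    sRefl M j (Pi.single j 1) = - Pi.single j 1 := by
  rw [sRefl_apply, pairing_single, hM, two_smul]; abel

theorem sRefl_sRefl (M : Matrix (Fin n) (Fin n) ℤ) (hM : ∀ j, M j j = 2) (j : Fin n)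
    (c : Fin n → ℤ) : sRefl M j (sRefl M j c) = c := by
  rw [sRefl_apply M j c, map_sub, map_smul, sRefl_single M hM, sRefl_apply]
  simp

theorem sRefl_mul_self (M : Matrix (Fin n) (Fin n) ℤ) (hM : ∀ j, M j j = 2) (j : Fin n) :
    sRefl M j * sRefl M j = 1 := by
  apply LinearMap.ext; intro c; exact sRefl_sRefl M hM j c

/-- product of simple reflections along a word -/
def wp (M : Matrix (Fin n) (Fin n) ℤ) (l : List (Fin n)) : Module.End ℤ (Fin n → ℤ) :=
  (l.map (sRefl M)).prod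

theorem wp_nil (M : Matrix (Fin n) (Fin n) ℤ) : wp M [] = 1 := rfl
theorem wp_cons (M : Matrix (Fin n) (Fin n) ℤ) (j : Fin n) (l : List (Fin n)) :
    wp M (j :: l) = sRefl M j * wp M l := by simp [wp]
theorem wp_append (M : Matrix (Fin n) (Fin n) ℤ) (l l' : List (Fin n)) :
    wp M (l ++ l') = wp M l * wp M l' := by simp [wp]
theorem wp_singleton (M : Matrix (Fin n) (Fin n) ℤ) (j : Fin n) :
    wp M [j] = sRefl M j := by simp [wp]

theorem mem_weyl_iff (M : Matrix (Fin n) (Fin n) ℤ) (J : Set (Fin n))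
    (w : Module.End ℤ (Fin n → ℤ)) :
    w ∈ weyl M J ↔ ∃ l : List (Fin n), (∀ j ∈ l, j ∈ J) ∧ wp M l = w := by
  constructor
  · intro h
    refine Submonoid.closure_induction_left (s := sRefl M '' J)
      (motive := fun w _ => ∃ l : List (Fin n), (∀ j ∈ l, j ∈ J) ∧ wp M l = w)
      ⟨[], by simp, rfl⟩ ?_ h
    rintro _ ⟨j, hj, rfl⟩ y _ ⟨l, hl, rfl⟩
    refine ⟨j :: l, ?_, wp_cons M j l⟩
    intro i hi
    rcases List.mem_cons.1 hi with rfl | hi
    · exact hj
    · exact hl i hi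
  · rintro ⟨l, hl, rfl⟩
    apply Submonoid.list_prod_mem
    intro x hx
    obtain ⟨j, hj, rfl⟩ := List.mem_map.1 hx
    exact Submonoid.subset_closure ⟨j, hl j hj, rfl⟩

theorem wp_mem (M : Matrix (Fin n) (Fin n) ℤ) (J : Set (Fin n)) (l : List (Fin n))
    (hl : ∀ j ∈ l, j ∈ J) : wp M l ∈ weyl M J := (mem_weyl_iff M J _).2 ⟨l, hl, rfl⟩

theorem sRefl_mem (M : Matrix (Fin n) (Fin n) ℤ) (J : Set (Fin n)) (j : Fin n) (hj : j ∈ J) :
    sRefl M j ∈ weyl M J := Submonoid.subset_closure ⟨j, hj, rfl⟩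

theorem weyl_mono (M : Matrix (Fin n) (Fin n) ℤ) {J K : Set (Fin n)} (h : J ⊆ K) :
    weyl M J ≤ weyl M K := Submonoid.closure_mono (Set.image_mono h)

theorem exists_inv (M : Matrix (Fin n) (Fin n) ℤ) (hM : ∀ j, M j j = 2) (J : Set (Fin n))
    (w : Module.End ℤ (Fin n → ℤ)) (hw : w ∈ weyl M J) :
    ∃ v ∈ weyl M J, v * w = 1 ∧ w * v = 1 := by
  refine Submonoid.closure_induction_left (s := sRefl M '' J)
    (motive := fun w _ => ∃ v ∈ weyl M J, v * w = 1 ∧ w * v = 1)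
    ⟨1, one_mem _, by simp, by simp⟩ ?_ hw
  rintro _ ⟨j, hj, rfl⟩ y _ ⟨v, hv, h1, h2⟩
  refine ⟨v * sRefl M j, mul_mem hv (sRefl_mem M J j hj), ?_, ?_⟩
  · rw [mul_assoc, ← mul_assoc (sRefl M j), sRefl_mul_self M hM, one_mul, h1]
  · rw [mul_assoc, ← mul_assoc y, h2, one_mul, sRefl_mul_self M hM]

theorem weyl_injective (M : Matrix (Fin n) (Fin n) ℤ) (hM : ∀ j, M j j = 2) (J : Set (Fin n))
    (w : Module.End ℤ (Fin n → ℤ)) (hw : w ∈ weyl M J) : Function.Injective w := by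
  obtain ⟨v, -, h, -⟩ := exists_inv M hM J w hw
  intro a b hab
  have h1 : (v * w) a = (v * w) b := by
    show v (w a) = v (w b)
    rw [hab]
  rw [h] at h1; exact h1

theorem single_mem_rootSet (M : Matrix (Fin n) (Fin n) ℤ) (j : Fin n) :
    (Pi.single j 1 : Fin n → ℤ) ∈ rootSet M := ⟨1, one_mem _, j, rfl⟩

theorem weyl_mem_rootSet (M : Matrix (Fin n) (Fin n) ℤ) {J : Set (Fin n)}
    {w : Module.End ℤ (Fin n → ℤ)} (hw : w ∈ weyl M J) {γ : Fin n → ℤ} (hγ : γ ∈ rootSet M) :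
    w γ ∈ rootSet M := by
  obtain ⟨v, hv, j, rfl⟩ := hγ
  exact ⟨w * v, mul_mem (weyl_mono M (Set.subset_univ J) hw) hv, j, rfl⟩

theorem sRefl_mem_rootSet (M : Matrix (Fin n) (Fin n) ℤ) (j : Fin n) {γ : Fin n → ℤ}
    (hγ : γ ∈ rootSet M) : sRefl M j γ ∈ rootSet M :=
  weyl_mem_rootSet M (sRefl_mem M Set.univ j (Set.mem_univ j)) hγ

theorem neg_mem_rootSet (M : Matrix (Fin n) (Fin n) ℤ) (hM : ∀ j, M j j = 2) {γ : Fin n → ℤ}
    (hγ : γ ∈ rootSet M) : -γ ∈ rootSet M := by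
  obtain ⟨v, hv, j, rfl⟩ := hγ
  refine ⟨v * sRefl M j, mul_mem hv (sRefl_mem M _ j (Set.mem_univ j)), j, ?_⟩
  show _ = v (sRefl M j (Pi.single j 1))
  rw [sRefl_single M hM, map_neg]

theorem rootSet_ne_zero (M : Matrix (Fin n) (Fin n) ℤ) (hM : ∀ j, M j j = 2) {γ : Fin n → ℤ}
    (hγ : γ ∈ rootSet M) : γ ≠ 0 := by
  obtain ⟨v, hv, j, rfl⟩ := hγ
  intro h
  have h1 := weyl_injective M hM _ v hv (a₁ := Pi.single j 1) (a₂ := 0) (by rw [h, map_zero])
  have h2 := congrFun h1 j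
  simp at h2

theorem root_primitive (M : Matrix (Fin n) (Fin n) ℤ) (hM : ∀ j, M j j = 2) {γ : Fin n → ℤ}
    (hγ : γ ∈ rootSet M) (j : Fin n) (c : ℤ) (h : γ = c • (Pi.single j 1 : Fin n → ℤ)) :
    c = 1 ∨ c = -1 := by
  obtain ⟨w, hw, k, rfl⟩ := hγ
  obtain ⟨v, hv, h1, -⟩ := exists_inv M hM _ w hw
  have h2 : v (w (Pi.single k 1)) = Pi.single k 1 := by
    show (v * w) (Pi.single k 1) = _
    rw [h1]; rfl
  rw [h, map_smul] at h2
  have h3 := congrFun h2 k
  simp only [Pi.smul_apply, smul_eq_mul, Pi.single_eq_same] at h3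
  exact Int.eq_one_or_neg_one_of_mul_eq_one h3

/-- sign-coherence of the root set -/
def SignCoh (M : Matrix (Fin n) (Fin n) ℤ) : Prop := ∀ γ ∈ rootSet M, 0 ≤ γ ∨ γ ≤ 0

theorem pos_sRefl (M : Matrix (Fin n) (Fin n) ℤ) (hM : ∀ j, M j j = 2) (hsc : SignCoh M)
    (j : Fin n) {γ : Fin n → ℤ} (hγ : γ ∈ rootSet M) (h0 : 0 ≤ γ) (hne : γ ≠ Pi.single j 1) :
    0 ≤ sRefl M j γ := by
  rcases hsc _ (sRefl_mem_rootSet M j hγ) with h | h
  · exact h
  · exfalso
    have h1 : γ = (γ j) • (Pi.single j 1 : Fin n → ℤ) := by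
      ext i
      by_cases hij : i = j
      · subst hij; simp
      · have h2 := h i
        rw [sRefl_apply_ne M j i hij] at h2
        have h3 := h0 i
        simp only [Pi.zero_apply] at h2 h3
        simp [hij]; omega
    have h2 := root_primitive M hM hγ j _ h1
    have h3 := h0 j
    simp only [Pi.zero_apply] at h3
    rcases h2 with h2 | h2
    · rw [h2, one_smul] at h1; exact hne h1
    · omega

theorem span_rootSet (M : Matrix (Fin n) (Fin n) ℤ) : Submodule.span ℤ (rootSet M) = ⊤ := by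
  rw [eq_top_iff]
  intro c _
  have : c = ∑ i, c i • (Pi.single i 1 : Fin n → ℤ) := by
    ext k; simp [Finset.sum_apply, Pi.single_apply]
  rw [this]
  exact Submodule.sum_mem _ (fun i _ => Submodule.smul_mem _ _
    (Submodule.subset_span (single_mem_rootSet M i)))

/-- If `v α_j = α_i` then `v s_j = s_i v`. -/
theorem conj_refl (M : Matrix (Fin n) (Fin n) ℤ) (hM : ∀ j, M j j = 2)
    (hfin : (rootSet M).Finite) (J : Set (Fin n)) (v : Module.End ℤ (Fin n → ℤ))
    (hv : v ∈ weyl M J) (i j : Fin n) (h : v (Pi.single j 1) = Pi.single i 1) :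
    v * sRefl M j = sRefl M i * v := by
  obtain ⟨u, hu, h1, h2⟩ := exists_inv M hM J v hv
  have huv : ∀ c, u (v c) = c := fun c => by
    show (u * v) c = c
    rw [h1]; rfl
  have hvu : ∀ c, v (u c) = c := fun c => by
    show (v * u) c = c
    rw [h2]; rfl
  have hui : u (Pi.single i 1) = Pi.single j 1 := by rw [← h, huv]
  have key : pairing M i = (pairing M j).comp u := by
    apply Module.Dual.eq_of_preReflection_mapsTo (x := (Pi.single i 1 : Fin n → ℤ)) hfin
      (span_rootSet M)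
    · rw [pairing_single, hM]
    · intro γ hγ
      rw [← sRefl_eq]; exact sRefl_mem_rootSet M i hγ
    · rw [LinearMap.comp_apply, hui, pairing_single, hM]
    · intro γ hγ
      have : Module.preReflection (Pi.single i 1 : Fin n → ℤ) ((pairing M j).comp u) γ =
          v (sRefl M j (u γ)) := by
        rw [Module.preReflection_apply, sRefl_apply, map_sub, map_smul, h, hvu]; rfl
      rw [this]
      exact weyl_mem_rootSet M hv (sRefl_mem_rootSet M j (weyl_mem_rootSet M hu hγ))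
  apply LinearMap.ext
  intro c
  show v (sRefl M j c) = sRefl M i (v c)
  rw [sRefl_apply, sRefl_apply, map_sub, map_smul, h, key, LinearMap.comp_apply, huv]

/-- Deletion: if `wp l` sends `α_j` to a negative root then `wp l * s_j` has a shorter word. -/
theorem deletion (M : Matrix (Fin n) (Fin n) ℤ) (hM : ∀ j, M j j = 2)
    (hfin : (rootSet M).Finite) (hsc : SignCoh M) (J : Set (Fin n)) (j : Fin n) :
    ∀ l : List (Fin n), (∀ i ∈ l, i ∈ J) → wp M l (Pi.single j 1) ≤ 0 →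
      ∃ l' : List (Fin n), (∀ i ∈ l', i ∈ J) ∧ l'.length < l.length ∧
        wp M l' = wp M l * sRefl M j := by
  intro l
  induction l with
  | nil =>
    intro _ h
    have := h j
    rw [wp_nil] at this
    simp at this
  | cons i l ih =>
    intro hl h
    have hl' : ∀ i ∈ l, i ∈ J := fun k hk => hl k (List.mem_cons_of_mem _ hk)
    have hi : i ∈ J := hl i List.mem_cons_self
    have hroot : wp M l (Pi.single j 1) ∈ rootSet M :=
      weyl_mem_rootSet M (wp_mem M J l hl') (single_mem_rootSet M j)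
    by_cases hneg : wp M l (Pi.single j 1) ≤ 0
    · obtain ⟨l', h1, h2, h3⟩ := ih hl' hneg
      refine ⟨i :: l', ?_, ?_, ?_⟩
      · intro k hk
        rcases List.mem_cons.1 hk with rfl | hk
        · exact hi
        · exact h1 k hk
      · simp only [List.length_cons]; omega
      · rw [wp_cons, wp_cons, h3, mul_assoc]
    · have hpos : 0 ≤ wp M l (Pi.single j 1) := (hsc _ hroot).resolve_right hneg
      have heq : wp M l (Pi.single j 1) = Pi.single i 1 := by
        by_contra hne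
        have h1 := pos_sRefl M hM hsc i hroot hpos hne
        rw [wp_cons] at h
        have h2 : sRefl M i (wp M l (Pi.single j 1)) = 0 := le_antisymm h h1
        exact rootSet_ne_zero M hM (sRefl_mem_rootSet M i hroot) h2
      refine ⟨l, hl', by simp, ?_⟩
      rw [wp_cons, mul_assoc, conj_refl M hM hfin J _ (wp_mem M J l hl') i j heq, ← mul_assoc,
        sRefl_mul_self M hM, one_mul]

/-- An element of `W_J` keeping all simple roots of `J` nonnegative is trivial. -/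
theorem eq_one_of_pos (M : Matrix (Fin n) (Fin n) ℤ) (hM : ∀ j, M j j = 2)
    (hfin : (rootSet M).Finite) (hsc : SignCoh M) (J : Set (Fin n)) :
    ∀ (m : ℕ) (l : List (Fin n)), l.length ≤ m → (∀ i ∈ l, i ∈ J) →
      (∀ j ∈ J, 0 ≤ wp M l (Pi.single j 1)) → wp M l = 1 := by
  intro m
  induction m with
  | zero =>
    intro l hl _ _
    have : l = [] := List.length_eq_zero_iff.1 (Nat.le_zero.1 hl)
    rw [this, wp_nil]
  | succ m ih =>
    intro l hl hJ hpos
    rcases List.eq_nil_or_concat l with rfl | ⟨l₀, j, rfl⟩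
    · exact wp_nil M
    · have hj : j ∈ J := hJ j (by simp)
      have hl₀ : ∀ i ∈ l₀, i ∈ J := fun i hi => hJ i (by simp [hi])
      have h1 := hpos j hj
      have h2 : wp M (l₀ ++ [j]) = wp M l₀ * sRefl M j := by rw [wp_append, wp_singleton]
      rw [List.concat_eq_append] at *
      rw [h2] at h1
      have h3 : wp M l₀ (Pi.single j 1) ≤ 0 := by
        have : (wp M l₀ * sRefl M j) (Pi.single j 1) = - wp M l₀ (Pi.single j 1) := by
          show wp M l₀ (sRefl M j (Pi.single j 1)) = _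
          rw [sRefl_single M hM, map_neg]
        rw [this] at h1
        exact neg_nonneg.1 h1
      obtain ⟨l', k1, k2, k3⟩ := deletion M hM hfin hsc J j l₀ hl₀ h3
      rw [h2, ← k3]
      apply ih l' _ k1
      · intro i hi
        rw [k3, ← h2]
        exact hpos i hi
      · simp only [List.length_append, List.length_cons, List.length_nil] at hl
        omega

/-- span of the simple roots in `J` is preserved by `W_J` -/
theorem weyl_supp (M : Matrix (Fin n) (Fin n) ℤ) (J : Set (Fin n)) (w : Module.End ℤ (Fin n → ℤ))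
    (hw : w ∈ weyl M J) (c : Fin n → ℤ) : ∀ i ∉ J, w c i = c i := by
  refine Submonoid.closure_induction_left (s := sRefl M '' J)
    (motive := fun w _ => ∀ i ∉ J, w c i = c i) ?_ ?_ hw
  · intro i _; rfl
  · rintro _ ⟨j, hj, rfl⟩ y _ ih i hi
    show sRefl M j (y c) i = c i
    rw [sRefl_apply_ne M j i (fun h => hi (h ▸ hj)), ih i hi]

theorem eq_sum_single (c : Fin n → ℤ) : c = ∑ i, c i • (Pi.single i 1 : Fin n → ℤ) := by
  ext k; simp [Finset.sum_apply, Pi.single_apply]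

/-- a longest element maps nonnegative vectors supported on `J` to nonpositive ones -/
theorem longest_neg (M : Matrix (Fin n) (Fin n) ℤ) (J : Set (Fin n))
    (w : Module.End ℤ (Fin n → ℤ)) (h : ∀ j ∈ J, w (Pi.single j 1) ≤ 0) (c : Fin n → ℤ)
    (hc : 0 ≤ c) (hs : ∀ i ∉ J, c i = 0) : w c ≤ 0 := by
  rw [eq_sum_single c, map_sum]
  apply Finset.sum_nonpos
  intro i _
  rw [map_smul]
  by_cases hi : i ∈ J
  · exact smul_nonpos_of_nonneg_of_nonpos (hc i) (h i hi)
  · rw [hs i hi, zero_smul]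

theorem longest_unique (M : Matrix (Fin n) (Fin n) ℤ) (hM : ∀ j, M j j = 2)
    (hfin : (rootSet M).Finite) (hsc : SignCoh M) (J : Set (Fin n))
    (w w' : Module.End ℤ (Fin n → ℤ)) (hw : w ∈ weyl M J) (hw' : w' ∈ weyl M J)
    (h : ∀ j ∈ J, w (Pi.single j 1) ≤ 0) (h' : ∀ j ∈ J, w' (Pi.single j 1) ≤ 0) : w = w' := by
  obtain ⟨u, hu, h1, h2⟩ := exists_inv M hM J w hw
  have hmem : u * w' ∈ weyl M J := mul_mem hu hw'
  obtain ⟨l, hl, hl'⟩ := (mem_weyl_iff M J _).1 hmem
  have key : wp M l = 1 := by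
    apply eq_one_of_pos M hM hfin hsc J _ l le_rfl hl
    intro j hj
    rw [hl']
    have hroot : (u * w') (Pi.single j 1) ∈ rootSet M :=
      weyl_mem_rootSet M hmem (single_mem_rootSet M j)
    refine (hsc _ hroot).resolve_right (fun hneg => ?_)
    have h3 : w ((u * w') (Pi.single j 1)) = w' (Pi.single j 1) := by
      show (w * (u * w')) (Pi.single j 1) = _
      rw [← mul_assoc, h2, one_mul]
    have h4 : w (-(u * w') (Pi.single j 1)) ≤ 0 := by
      apply longest_neg M J w h _ (neg_nonneg.2 hneg)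
      intro i hi
      rw [Pi.neg_apply, weyl_supp M J _ hmem _ i hi]
      have : i ≠ j := fun h => hi (h ▸ hj)
      simp [this]
    rw [map_neg, h3] at h4
    have h5 : w' (Pi.single j 1) = 0 := le_antisymm (h' j hj) (neg_nonpos.1 h4)
    exact rootSet_ne_zero M hM (weyl_mem_rootSet M hw' (single_mem_rootSet M j)) h5
  rw [hl'] at key
  calc w = w * (u * w') := by rw [key, mul_one]
    _ = w' := by rw [← mul_assoc, h2, one_mul]

/-- inversions of `w` -/
def invSet (M : Matrix (Fin n) (Fin n) ℤ) (w : Module.End ℤ (Fin n → ℤ)) : Set (Fin n → ℤ) :=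
  {γ | γ ∈ rootSet M ∧ 0 ≤ γ ∧ w γ ≤ 0}

theorem longest_exists (M : Matrix (Fin n) (Fin n) ℤ) (hM : ∀ j, M j j = 2)
    (hfin : (rootSet M).Finite) (hsc : SignCoh M) (J : Set (Fin n)) :
    ∃ w ∈ weyl M J, ∀ j ∈ J, w (Pi.single j 1) ≤ 0 := by
  have hsub : ∀ w, invSet M w ⊆ rootSet M := fun w γ h => h.1
  obtain ⟨w, hw, hmin⟩ := WellFounded.has_min
    (measure (fun w : Module.End ℤ (Fin n → ℤ) => (rootSet M).ncard - (invSet M w).ncard)).wf
    (weyl M J : Set (Module.End ℤ (Fin n → ℤ))) ⟨1, one_mem _⟩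
  refine ⟨w, hw, fun j hj => ?_⟩
  by_contra hcon
  have hroot : w (Pi.single j 1) ∈ rootSet M := weyl_mem_rootSet M hw (single_mem_rootSet M j)
  have hpos : 0 ≤ w (Pi.single j 1) := (hsc _ hroot).resolve_right hcon
  apply hmin (w * sRefl M j) (mul_mem hw (sRefl_mem M J j hj))
  show (rootSet M).ncard - (invSet M (w * sRefl M j)).ncard < (rootSet M).ncard -
    (invSet M w).ncard
  have hfin1 : (invSet M w).Finite := hfin.subset (hsub w)
  have hfin2 : (invSet M (w * sRefl M j)).Finite := hfin.subset (hsub _)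
  have hsubset : insert (Pi.single j 1) (sRefl M j '' invSet M w) ⊆ invSet M (w * sRefl M j) := by
    rintro γ (rfl | ⟨δ, hδ, rfl⟩)
    · refine ⟨single_mem_rootSet M j, ?_, ?_⟩
      · intro i; by_cases hi : i = j
        · subst hi; simp
        · simp [hi]
      · show w (sRefl M j (Pi.single j 1)) ≤ 0
        rw [sRefl_single M hM, map_neg]
        exact neg_nonpos.2 hpos
    · obtain ⟨h1, h2, h3⟩ := hδ
      have hne : δ ≠ Pi.single j 1 := fun h => hcon (h ▸ h3)
      refine ⟨sRefl_mem_rootSet M j h1, pos_sRefl M hM hsc j h1 h2 hne, ?_⟩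
      show w (sRefl M j (sRefl M j δ)) ≤ 0
      rw [sRefl_sRefl M hM]; exact h3
  have hcard : (invSet M w).ncard + 1 ≤ (invSet M (w * sRefl M j)).ncard := by
    have hinj : Function.Injective (sRefl M j) :=
      weyl_injective M hM Set.univ _ (sRefl_mem M _ j (Set.mem_univ j))
    have h1 : (sRefl M j '' invSet M w).ncard = (invSet M w).ncard :=
      Set.ncard_image_of_injective _ hinj
    rw [← h1, ← Set.ncard_insert_of_notMem _ (hfin1.image _)]
    · exact Set.ncard_le_ncard hsubset hfin2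
    · rintro ⟨δ, hδ, h⟩
      have h2 : δ = - Pi.single j 1 := by
        rw [← sRefl_sRefl M hM j δ, h, sRefl_single M hM]
      have h3 := hδ.2.1 j
      rw [h2] at h3
      simp at h3
  have h2 := Set.ncard_le_ncard (hsub (w * sRefl M j)) hfin
  omega

/-! ### Transfer of the polynomial and of the number of self-dual ideals -/

theorem deg_add (ℓ : Fin n → ℕ) (a b : Fin n → ℤ) : deg ℓ (a + b) = deg ℓ a + deg ℓ b := by
  simp [deg, add_mul, Finset.sum_add_distrib]
theorem deg_sub (ℓ : Fin n → ℕ) (a b : Fin n → ℤ) : deg ℓ (a - b) = deg ℓ a - deg ℓ b := by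
  simp [deg, sub_mul, Finset.sum_sub_distrib]
theorem deg_neg (ℓ : Fin n → ℕ) (a : Fin n → ℤ) : deg ℓ (-a) = - deg ℓ a := by
  simp [deg]
theorem deg_smul (ℓ : Fin n → ℕ) (r : ℤ) (a : Fin n → ℤ) : deg ℓ (r • a) = r * deg ℓ a := by
  simp [deg, Finset.mul_sum, mul_assoc]
theorem deg_single (ℓ : Fin n → ℕ) (j : Fin n) : deg ℓ (Pi.single j 1) = ℓ j := by
  simp [deg, Pi.single_apply]
theorem deg_nonneg (ℓ : Fin n → ℕ) (a : Fin n → ℤ) (h : 0 ≤ a) : 0 ≤ deg ℓ a :=
  Finset.sum_nonneg (fun i _ => mul_nonneg (h i) (Int.natCast_nonneg _))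

theorem deg_weyl (M : Matrix (Fin n) (Fin n) ℤ) (ℓ : Fin n → ℕ) (w : Module.End ℤ (Fin n → ℤ))
    (hw : w ∈ weyl M {j | ℓ j = 0}) (c : Fin n → ℤ) : deg ℓ (w c) = deg ℓ c := by
  refine Submonoid.closure_induction_left (s := sRefl M '' {j | ℓ j = 0})
    (motive := fun w _ => deg ℓ (w c) = deg ℓ c) rfl ?_ hw
  rintro _ ⟨j, hj, rfl⟩ y _ ih
  show deg ℓ (sRefl M j (y c)) = deg ℓ c
  rw [sRefl_apply, deg_sub, deg_smul, deg_single, show ℓ j = 0 from hj, ih]; simp

theorem weyl_Delta1 (M : Matrix (Fin n) (Fin n) ℤ) (ℓ : Fin n → ℕ)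
    (w : Module.End ℤ (Fin n → ℤ)) (hw : w ∈ weyl M {j | ℓ j = 0}) {γ : Fin n → ℤ}
    (hγ : γ ∈ Delta1 M ℓ) : w γ ∈ Delta1 M ℓ :=
  ⟨weyl_mem_rootSet M hw hγ.1, by rw [deg_weyl M ℓ w hw]; exact hγ.2⟩

open Classical in
theorem idealPoly_eval (M : Matrix (Fin n) (Fin n) ℤ) (ℓ : Fin n → ℕ)
    (hfin : (Delta1 M ℓ).Finite) :
    (idealPoly M ℓ).eval (-1) = Mm (· ≤ ·) hfin.toFinset := by
  unfold idealPoly Mm
  have h1 : UpperIdeals M ℓ =
      (fun I : Finset (Fin n → ℤ) => (I : Set (Fin n → ℤ))) '' (UI (· ≤ ·) hfin.toFinset) := by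
    ext I
    simp only [UpperIdeals, Set.mem_ofPred_eq, Set.mem_image, Finset.mem_coe, mem_UI,
      Set.Finite.mem_toFinset]
    constructor
    · rintro ⟨h1, h2⟩
      have hI : I.Finite := hfin.subset h1
      refine ⟨hI.toFinset, ⟨?_, ?_⟩, by simp⟩
      · intro γ hγ; simpa using h1 (by simpa using hγ)
      · intro p hp q hq hle
        rw [Set.Finite.mem_toFinset] at hp ⊢
        exact h2 p hp q hq hle
    · rintro ⟨J, ⟨h1, h2⟩, rfl⟩
      refine ⟨fun γ hγ => ?_, fun γ hγ γ' hγ' hle => h2 γ hγ γ' hγ' hle⟩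
      simpa using h1 hγ
  rw [h1, finsum_mem_image (fun a _ b _ h => Finset.coe_injective h), finsum_mem_coe_finset,
    Polynomial.eval_finsetSum]
  apply Finset.sum_congr rfl
  intro I _
  simp

open Classical in
theorem selfdual_ncard (M : Matrix (Fin n) (Fin n) ℤ) (hM : ∀ j, M j j = 2) (ℓ : Fin n → ℕ)
    (hfin : (Delta1 M ℓ).Finite) (w : Module.End ℤ (Fin n → ℤ))
    (hw : w ∈ weyl M {j | ℓ j = 0}) :
    {I | I ∈ UpperIdeals M ℓ ∧ Delta1 M ℓ \ (w '' I) = I}.ncard =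
      SD (· ≤ ·) w hfin.toFinset := by
  obtain ⟨u, hu, hu1, hu2⟩ := exists_inv M hM _ w hw
  have huw : ∀ c, u (w c) = c := fun c => by
    show (u * w) c = c
    rw [hu1]; rfl
  have hwu : ∀ c, w (u c) = c := fun c => by
    show (w * u) c = c
    rw [hu2]; rfl
  unfold SD
  rw [← Set.ncard_coe_finset,
    ← Set.ncard_image_of_injective _ (Finset.coe_injective (α := Fin n → ℤ))]
  congr 1
  ext I
  simp only [UpperIdeals, Set.mem_ofPred_eq, Set.mem_image, Finset.mem_coe, mem_SDs,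
    Set.Finite.mem_toFinset]
  have hdual : ∀ I : Set (Fin n → ℤ), I ⊆ Delta1 M ℓ → (Delta1 M ℓ \ (w '' I) = I ↔
      ∀ p ∈ Delta1 M ℓ, (w p ∈ I ↔ p ∉ I)) := by
    intro I hI
    constructor
    · intro h p hp
      have h1 : w p ∈ I ↔ w p ∈ Delta1 M ℓ \ (w '' I) := by rw [h]
      rw [h1]
      constructor
      · rintro ⟨-, h2⟩ h3; exact h2 ⟨p, h3, rfl⟩
      · intro h2
        refine ⟨weyl_Delta1 M ℓ w hw hp, ?_⟩
        rintro ⟨q, hq, hqp⟩
        have : q = p := by rw [← huw q, hqp, huw]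
        exact h2 (this ▸ hq)
    · intro h
      ext p
      constructor
      · rintro ⟨h1, h2⟩
        have h3 := h (u p) (weyl_Delta1 M ℓ u hu h1)
        rw [hwu] at h3
        exact h3.2 (fun h4 => h2 ⟨u p, h4, hwu p⟩)
      · intro h1
        refine ⟨hI h1, ?_⟩
        rintro ⟨q, hq, rfl⟩
        exact (h q (hI hq)).1 h1 hq
  constructor
  · rintro ⟨⟨h1, h2⟩, h3⟩
    have hI : I.Finite := hfin.subset h1
    refine ⟨hI.toFinset, ⟨⟨?_, ?_⟩, ?_⟩, by simp⟩
    · intro γ hγ; simpa using h1 (by simpa using hγ)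
    · intro p hp q hq hle
      rw [Set.Finite.mem_toFinset] at hp ⊢
      exact h2 p hp q hq hle
    · intro p hp
      rw [Set.Finite.mem_toFinset, Set.Finite.mem_toFinset]
      exact (hdual I h1).1 h3 p hp
  · rintro ⟨J, ⟨⟨h1, h2⟩, h3⟩, rfl⟩
    have hJ : (J : Set (Fin n → ℤ)) ⊆ Delta1 M ℓ := fun γ hγ => by simpa using h1 hγ
    refine ⟨⟨hJ, fun γ hγ γ' hγ' hle => h2 γ hγ γ' hγ' hle⟩, ?_⟩
    rw [hdual _ hJ]
    exact h3

/-- The main transfer statement: describe `Δ(1)` by a finite model. -/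
theorem transfer {α : Type*} (M : Matrix (Fin n) (Fin n) ℤ) (hM : ∀ j, M j j = 2)
    (ℓ : Fin n → ℕ) (hfin : (Delta1 M ℓ).Finite) (w : Module.End ℤ (Fin n → ℤ))
    (hw : w ∈ weyl M {j | ℓ j = 0}) (S : Finset α) (φ : α → Fin n → ℤ) (c : α → α)
    (le : α → α → Prop)
    (hS : ∀ γ, γ ∈ Delta1 M ℓ ↔ ∃ p ∈ S, φ p = γ)
    (hinj : ∀ p ∈ S, ∀ q ∈ S, φ p = φ q → p = q)
    (hle : ∀ p ∈ S, ∀ q ∈ S, (le p q ↔ φ p ≤ φ q))
    (hcS : ∀ p ∈ S, c p ∈ S) (hc : ∀ p ∈ S, w (φ p) = φ (c p))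
    (hmain : Mm le S = SD le c S) :
    (idealPoly M ℓ).eval (-1) =
      ({I | I ∈ UpperIdeals M ℓ ∧ Delta1 M ℓ \ (w '' I) = I}.ncard : ℤ) := by
  classical
  rw [idealPoly_eval M ℓ hfin, selfdual_ncard M hM ℓ hfin w hw]
  have h1 : hfin.toFinset = S.image φ := by
    ext γ; rw [Set.Finite.mem_toFinset, hS, Finset.mem_image]
  rw [h1, Mm_image le (· ≤ ·) φ S hinj hle, SD_image le (· ≤ ·) φ S c w hinj hle hcS hc, hmain]

end Pool.Agent.Helper57.TM1
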