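import Pool.Agent.Helper57.TM1.Model

namespace Pool.Agent.Helper57.TM1

open Finset

/-- position model of type `A` -/
def modelA (n : ℕ) (hn : 1 ≤ n) : PosModel (CartanMatrix.A n) where
  N := n + 1
  m := 0
  e := 0
  st := False
  mir := False
  ok x y := x ≠ y
  ψ x := fun k => -(if (k : ℕ) < x then 1 else 0)
  σ j x := if x = (j : ℕ) then j + 1 else if x = (j : ℕ) + 1 then j else x
  p j x := if x = (j : ℕ) then 1 else if x = (j : ℕ) + 1 then -1 else 0
  hM j := by simp [CartanMatrix.A]
  hpair j x hx := by
    have h : ((fun k : Fin n => -(if (k : ℕ) < x then (1 : ℤ) else 0)) -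
        (fun k : Fin n => -(if (k : ℕ) < x + 1 then (1 : ℤ) else 0))) =
        Pi.single (⟨x, by omega⟩ : Fin n) 1 := by
      ext k
      simp only [Pi.sub_apply, Pi.single_apply, Fin.ext_iff]
      split_ifs <;> omega
    rw [h, pairing_single]
    simp only [CartanMatrix.A, Matrix.of_apply, Fin.ext_iff]
    split_ifs <;> omega
  hσψ j x hx := by
    ext k
    simp only [Pi.sub_apply, Pi.smul_apply, Pi.single_apply, Fin.ext_iff, smul_eq_mul]
    split_ifs <;> omega
  hσN j x hx := by
    have := j.2
    split_ifs <;> omega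
  hσσ j x hx := by
    split_ifs <;> omega
  hσok j x y hx hy h := by
    split_ifs <;> omega
  hsimple j := by
    have := j.2
    refine ⟨j, j + 1, by omega, by omega, by omega, ?_⟩
    ext k
    simp only [Pi.sub_apply, Pi.single_apply, Fin.ext_iff]
    split_ifs <;> omega
  hred x y hxy hy hok := by
    by_cases h : y = x + 1
    · left
      refine ⟨⟨x, by omega⟩, ?_⟩
      ext k
      simp only [Pi.sub_apply, Pi.single_apply, Fin.ext_iff]
      split_ifs <;> omega
    · right
      refine ⟨⟨y - 1, by omega⟩, ?_⟩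
      simp only
      split_ifs <;> omega
  hoksym x y h := h.symm
  hokne x y h := h
  hpos x y h1 h2 h3 := by
    intro k
    simp only [Pi.sub_apply, Pi.zero_apply]
    split_ifs <;> omega
  hneg x y h1 h2 h3 := by
    by_contra h
    have h4 := h3 ⟨x, by omega⟩
    simp only [Pi.sub_apply, Pi.zero_apply] at h4
    split_ifs at h4 <;> omega
  hstep x hx _ := by
    refine ⟨⟨x, by omega⟩, ?_⟩
    ext k
    simp only [Pi.sub_apply, Pi.single_apply, Fin.ext_iff]
    split_ifs <;> omega
  hmψ h := h.elim
  hmσ h := h.elim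
  hgood x y h _ _ := by omega
  hokmir h := h.elim
  hle x y x' y' h1 h2 _ h3 h4 _ := by
    unfold leP
    constructor
    · intro h
      have h5 := h ⟨x, by omega⟩
      have h6 := h ⟨y - 1, by omega⟩
      simp only [Pi.sub_apply] at h5 h6 ⊢
      split_ifs at h5 h6 <;> omega
    · intro h k
      simp only [Pi.sub_apply] at h ⊢
      split_ifs <;> omega
  hm h := absurd rfl h
  hstm h := h.elim
  hem h := h.elim

end Pool.Agent.Helper57.TM1
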