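import Pool.Agent.Helper57.TM1.TypeB

namespace Pool.Agent.Helper57.TM1

open Finset

namespace TD

def ψ (n : ℕ) (x : ℕ) : Fin n → ℤ := fun k =>
  -((if (k : ℕ) < x ∧ ¬ (x = n ∧ (k : ℕ) + 2 = n) then 1 else 0) +
    (if 2 * n ≤ x + (k : ℕ) + 1 ∧ (k : ℕ) + 2 < n then 1 else 0))

def σ (n : ℕ) (j : Fin n) (x : ℕ) : ℕ :=
  if (j : ℕ) + 1 = n then
    (if x + 2 = n then n else if x + 1 = n then n + 1 else if x = n then n - 2 else
      if x = n + 1 then n - 1 else x)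
  else (if x = (j : ℕ) then j + 1 else if x = (j : ℕ) + 1 then j else
    if x + j + 2 = 2 * n then x + 1 else if x + j + 1 = 2 * n then x - 1 else x)

def p (n : ℕ) (j : Fin n) (x : ℕ) : ℤ :=
  if (j : ℕ) + 1 = n then
    (if x + 2 = n then 1 else if x + 1 = n then 1 else if x = n then -1 else
      if x = n + 1 then -1 else 0)
  else (if x = (j : ℕ) then 1 else if x = (j : ℕ) + 1 then -1 else
    if x + j + 2 = 2 * n then 1 else if x + j + 1 = 2 * n then -1 else 0)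

theorem ψ_spec (n : ℕ) (x : ℕ) (k : Fin n) :
    (2 * n ≤ x + (k : ℕ) + 1 ∧ (k : ℕ) + 2 < n ∧ (k : ℕ) < x ∧ ψ n x k = -2) ∨
    ((x + (k : ℕ) + 1 < 2 * n ∨ n ≤ (k : ℕ) + 2) ∧ (k : ℕ) < x ∧ (x ≠ n ∨ (k : ℕ) + 2 ≠ n) ∧
      ψ n x k = -1) ∨
    ((x ≤ (k : ℕ) ∨ (x = n ∧ (k : ℕ) + 2 = n)) ∧ ψ n x k = 0) := by
  have hk := k.2
  unfold ψ
  split_ifs <;>
    first
    | exact Or.inl (by omega)
    | exact Or.inr (Or.inl (by omega))
    | exact Or.inr (Or.inr (by omega))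

theorem σ_spec (n : ℕ) (j : Fin n) (x : ℕ) :
    ((j : ℕ) + 1 = n ∧ (x + 2 = n ∧ σ n j x = n ∧ p n j x = 1 ∨
      x + 1 = n ∧ σ n j x = n + 1 ∧ p n j x = 1 ∨ x = n ∧ σ n j x = n - 2 ∧ p n j x = -1 ∨
      x = n + 1 ∧ σ n j x = n - 1 ∧ p n j x = -1 ∨
      x + 2 ≠ n ∧ x + 1 ≠ n ∧ x ≠ n ∧ x ≠ n + 1 ∧ σ n j x = x ∧ p n j x = 0)) ∨
    ((j : ℕ) + 1 < n ∧ (x = (j : ℕ) ∧ σ n j x = j + 1 ∧ p n j x = 1 ∨
      x = (j : ℕ) + 1 ∧ σ n j x = j ∧ p n j x = -1 ∨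
      x + j + 2 = 2 * n ∧ σ n j x = x + 1 ∧ p n j x = 1 ∨
      x + j + 1 = 2 * n ∧ σ n j x = x - 1 ∧ p n j x = -1 ∨
      x ≠ (j : ℕ) ∧ x ≠ (j : ℕ) + 1 ∧ x + j + 2 ≠ 2 * n ∧ x + j + 1 ≠ 2 * n ∧
        σ n j x = x ∧ p n j x = 0)) := by
  have hj := j.2
  unfold σ p
  split_ifs <;>
    first
    | exact Or.inl ⟨by omega, (Or.inl (by omega))⟩
    | exact Or.inl ⟨by omega, (Or.inr (Or.inl (by omega)))⟩
    | exact Or.inl ⟨by omega, (Or.inr (Or.inr (Or.inl (by omega))))⟩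
    | exact Or.inl ⟨by omega, (Or.inr (Or.inr (Or.inr (Or.inl (by omega)))))⟩
    | exact Or.inl ⟨by omega, (Or.inr (Or.inr (Or.inr (Or.inr (by omega)))))⟩
    | exact Or.inr ⟨by omega, (Or.inl (by omega))⟩
    | exact Or.inr ⟨by omega, (Or.inr (Or.inl (by omega)))⟩
    | exact Or.inr ⟨by omega, (Or.inr (Or.inr (Or.inl (by omega))))⟩
    | exact Or.inr ⟨by omega, (Or.inr (Or.inr (Or.inr (Or.inl (by omega)))))⟩
    | exact Or.inr ⟨by omega, (Or.inr (Or.inr (Or.inr (Or.inr (by omega)))))⟩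

theorem M_spec (n : ℕ) (hn : 3 ≤ n) (i j : Fin n) :
    ((i : ℕ) = j ∧ CartanMatrix.D n i j = 2) ∨
    ((i : ℕ) + 1 = j ∧ (j : ℕ) + 1 < n ∧ CartanMatrix.D n i j = -1) ∨
    ((j : ℕ) + 1 = i ∧ (i : ℕ) + 1 < n ∧ CartanMatrix.D n i j = -1) ∨
    ((i : ℕ) + 3 = n ∧ (j : ℕ) + 1 = n ∧ CartanMatrix.D n i j = -1) ∨
    ((j : ℕ) + 3 = n ∧ (i : ℕ) + 1 = n ∧ CartanMatrix.D n i j = -1) ∨
    ((i : ℕ) ≠ j ∧ ((i : ℕ) + 1 ≠ j ∨ (j : ℕ) + 1 = n) ∧ ((j : ℕ) + 1 ≠ i ∨ (i : ℕ) + 1 = n) ∧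
      ((i : ℕ) + 3 ≠ n ∨ (j : ℕ) + 1 ≠ n) ∧ ((j : ℕ) + 3 ≠ n ∨ (i : ℕ) + 1 ≠ n) ∧
      CartanMatrix.D n i j = 0) := by
  have hi := i.2
  have hj := j.2
  simp only [CartanMatrix.D, Matrix.of_apply, Fin.ext_iff]
  split_ifs <;>
    first
    | exact Or.inl (by omega)
    | exact Or.inr (Or.inl (by omega))
    | exact Or.inr (Or.inr (Or.inl (by omega)))
    | exact Or.inr (Or.inr (Or.inr (Or.inl (by omega))))
    | exact Or.inr (Or.inr (Or.inr (Or.inr (Or.inl (by omega)))))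
    | exact Or.inr (Or.inr (Or.inr (Or.inr (Or.inr (by omega)))))
    | (rename_i h; rcases h with ⟨h1, h2 | h2⟩
       · exact Or.inr (Or.inl (by omega))
       · exact Or.inr (Or.inr (Or.inr (Or.inl (by omega)))))
    | (rename_i h; rcases h with ⟨h1, h2 | h2⟩
       · exact Or.inr (Or.inr (Or.inl (by omega)))
       · exact Or.inr (Or.inr (Or.inr (Or.inr (Or.inl (by omega))))))

theorem step (n : ℕ) (hn : 3 ≤ n) (x : ℕ) (hx : x + 1 < 2 * n) (hxn : x + 1 ≠ n) :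
    ∃ k : Fin n, ψ n x - ψ n (x + 1) = Pi.single k 1 ∧
      ((k : ℕ) = x ∧ x < n ∨ (k : ℕ) + x + 2 = 2 * n ∧ n ≤ x) := by
  by_cases h : x < n
  · refine ⟨⟨x, h⟩, ?_, Or.inl ⟨rfl, h⟩⟩
    ext k
    have := k.2
    have h1 := ψ_spec n x k
    have h2 := ψ_spec n (x + 1) k
    have h3 := single_spec (⟨x, h⟩ : Fin n) k
    simp only [Pi.sub_apply]
    simp only at h3
    omega
  · refine ⟨⟨2 * n - 2 - x, by omega⟩, ?_, Or.inr ⟨by simp only; omega, by omega⟩⟩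
    ext k
    have := k.2
    have h1 := ψ_spec n x k
    have h2 := ψ_spec n (x + 1) k
    have h3 := single_spec (⟨2 * n - 2 - x, by omega⟩ : Fin n) k
    simp only [Pi.sub_apply]
    simp only at h3
    omega

theorem midstep' (n : ℕ) (hn : 3 ≤ n) (x y : ℕ) (hx : x + 1 = n) (hy : y = n) :
    ψ n x - ψ n y = Pi.single ⟨n - 1, by omega⟩ 1 - Pi.single ⟨n - 2, by omega⟩ 1 := by
  ext k
  have := k.2
  have h1 := ψ_spec n x k
  have h2 := ψ_spec n y k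
  have h3 := single_spec (⟨n - 1, by omega⟩ : Fin n) k
  have h4 := single_spec (⟨n - 2, by omega⟩ : Fin n) k
  simp only [Pi.sub_apply]
  simp only at h3 h4
  omega

theorem midstep (n : ℕ) (hn : 3 ≤ n) :
    ψ n (n - 1) - ψ n n = Pi.single ⟨n - 1, by omega⟩ 1 - Pi.single ⟨n - 2, by omega⟩ 1 :=
  midstep' n hn _ _ (by omega) rfl

theorem laststep_aux (n : ℕ) (hn : 3 ≤ n) (x y : ℕ)
    (hxy : (x + 2 = n ∧ y = n) ∨ (x + 1 = n ∧ y = n + 1)) :
    ψ n x - ψ n y = Pi.single ⟨n - 1, by omega⟩ 1 := by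
  ext k
  have := k.2
  have h1 := ψ_spec n x k
  have h2 := ψ_spec n y k
  have h3 := single_spec (⟨n - 1, by omega⟩ : Fin n) k
  simp only [Pi.sub_apply]
  simp only at h3
  omega

theorem laststep (n : ℕ) (hn : 3 ≤ n) :
    ψ n (n - 2) - ψ n n = Pi.single ⟨n - 1, by omega⟩ 1 :=
  laststep_aux n hn _ _ (by omega)

theorem laststep' (n : ℕ) (hn : 3 ≤ n) :
    ψ n (n - 1) - ψ n (n + 1) = Pi.single ⟨n - 1, by omega⟩ 1 :=
  laststep_aux n hn _ _ (by omega)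

theorem hσψ (n : ℕ) (hn : 3 ≤ n) (j : Fin n) (x : ℕ) (_hx : x < 2 * n) :
    ψ n (σ n j x) = ψ n x - p n j x • (Pi.single j 1 : Fin n → ℤ) := by
  ext k
  have := k.2
  have := j.2
  have h1 := σ_spec n j x
  have h2 := ψ_spec n x k
  have h3 := ψ_spec n (σ n j x) k
  have h4 := mul_single_spec j k (p n j x)
  simp only [Pi.sub_apply, Pi.smul_apply, smul_eq_mul]
  omega

theorem hpair (n : ℕ) (hn : 3 ≤ n) (j : Fin n) (x : ℕ) (hx : x + 1 < 2 * n) :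
    pairing (CartanMatrix.D n) j (ψ n x - ψ n (x + 1)) = p n j x - p n j (x + 1) := by
  by_cases hxn : x + 1 = n
  · rw [midstep' n hn x (x + 1) hxn hxn, map_sub, pairing_single, pairing_single]
    have := j.2
    have h1 := M_spec n hn ⟨n - 1, by omega⟩ j
    have h1' := M_spec n hn ⟨n - 2, by omega⟩ j
    have h2 := σ_spec n j x
    have h3 := σ_spec n j (x + 1)
    simp only at h1 h1'
    omega
  · obtain ⟨k, hk, hk'⟩ := step n hn x hx hxn
    rw [hk, pairing_single]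
    have := k.2
    have := j.2
    have h1 := M_spec n hn k j
    have h2 := σ_spec n j x
    have h3 := σ_spec n j (x + 1)
    omega

theorem hred (n : ℕ) (hn : 3 ≤ n) (x y : ℕ) (hxy : x < y) (hy : y < 2 * n)
    (hok : x ≠ y ∧ x + y + 1 ≠ 2 * n) : (∃ j, ψ n x - ψ n y = Pi.single j 1) ∨
    (∃ j, σ n j x < σ n j y ∧ σ n j y - σ n j x < y - x) := by
  by_cases h : y = x + 1
  · left
    obtain ⟨k, hk, -⟩ := step n hn x (by omega) (by omega)
    exact ⟨k, by rw [h]; exact hk⟩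
  by_cases ha : (x + 2 = n ∧ y = n) ∨ (x + 1 = n ∧ y = n + 1)
  · left
    exact ⟨_, laststep_aux n hn x y ha⟩
  right
  have key : ∀ (a : ℕ) (ha : a < n), (a + 1 = y ∧ y < n) ∨ (a + 1 = n ∧ y = n) ∨
      (a + 2 = n ∧ y = n + 1) ∨ (a = x ∧ x + y = 2 * n ∧ n + 1 < y) ∨
      (a + y + 1 = 2 * n ∧ n + 1 < y ∧ x + y ≠ 2 * n) →
      (∃ j : Fin n, σ n j x < σ n j y ∧ σ n j y - σ n j x < y - x) := by
    intro a ha hcase
    refine ⟨⟨a, ha⟩, ?_⟩
    have h1 := σ_spec n ⟨a, ha⟩ x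
    have h2 := σ_spec n ⟨a, ha⟩ y
    simp only at h1 h2
    omega
  by_cases h1 : y < n
  · exact key (y - 1) (by omega) (by omega)
  by_cases h2 : y = n
  · exact key (n - 1) (by omega) (by omega)
  by_cases h3 : y = n + 1
  · exact key (n - 2) (by omega) (by omega)
  by_cases h4 : x + y = 2 * n
  · exact key x (by omega) (by omega)
  · exact key (2 * n - 1 - y) (by omega) (by omega)

theorem hneg (n : ℕ) (hn : 3 ≤ n) (x y : ℕ) (h1 : x < 2 * n) (h2 : y < 2 * n)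
    (h3 : ψ n x - ψ n y ≤ 0) : y ≤ x := by
  by_contra h
  have key : ∀ (a : ℕ) (ha : a < n), (a = x ∧ (y ≠ n ∨ x + 2 ≠ n)) ∨
      (a + 1 = n ∧ y = n ∧ x + 2 = n) ∨ (a + 2 = n ∧ x = n) ∨ (a + y + 1 = 2 * n ∧ n < x) →
      False := by
    intro a ha hcase
    have h4 := h3 ⟨a, ha⟩
    have h5 := ψ_spec n x ⟨a, ha⟩
    have h6 := ψ_spec n y ⟨a, ha⟩
    simp only [Pi.sub_apply, Pi.zero_apply] at h4 h5 h6
    omega
  by_cases c1 : x < n
  · by_cases c2 : y = n ∧ x + 2 = n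
    · exact key (n - 1) (by omega) (by omega)
    · exact key x c1 (by omega)
  · by_cases c3 : x = n
    · exact key (n - 2) (by omega) (by omega)
    · exact key (2 * n - 1 - y) (by omega) (by omega)

/-- values on the low positions -/
theorem ψ_low (n : ℕ) (x : ℕ) (hx : x + 2 ≤ n) (k : Fin n) :
    ((k : ℕ) < x ∧ ψ n x k = -1) ∨ (x ≤ (k : ℕ) ∧ ψ n x k = 0) := by
  have hk := k.2
  have h := ψ_spec n x k
  omega

theorem hle (n : ℕ) (hn : 3 ≤ n) (x y x' y' : ℕ) (h1 : x < y) (h2 : y < 2 * n)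
    (h3 : x + y + 1 + 1 ≤ 2 * n) (h4 : x' < y') (_h5 : y' < 2 * n)
    (h6 : x' + y' + 1 + 1 ≤ 2 * n) :
    (ψ n x - ψ n y ≤ ψ n x' - ψ n y' ↔ leP n (x, y) (x', y')) := by
  unfold leP
  have hx : x + 2 ≤ n := by omega
  have hx' : x' + 2 ≤ n := by omega
  constructor
  · intro h
    -- inequality at coordinate `a`
    have key : ∀ (a : ℕ) (ha : a < n), ∃ u v u' v' : ℤ, u - v ≤ u' - v' ∧
        ((a < x ∧ u = -1) ∨ (x ≤ a ∧ u = 0)) ∧ ((a < x' ∧ u' = -1) ∨ (x' ≤ a ∧ u' = 0)) ∧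
        ((2 * n ≤ y + a + 1 ∧ a + 2 < n ∧ a < y ∧ v = -2) ∨
          ((y + a + 1 < 2 * n ∨ n ≤ a + 2) ∧ a < y ∧ (y ≠ n ∨ a + 2 ≠ n) ∧ v = -1) ∨
          ((y ≤ a ∨ (y = n ∧ a + 2 = n)) ∧ v = 0)) ∧
        ((2 * n ≤ y' + a + 1 ∧ a + 2 < n ∧ a < y' ∧ v' = -2) ∨
          ((y' + a + 1 < 2 * n ∨ n ≤ a + 2) ∧ a < y' ∧ (y' ≠ n ∨ a + 2 ≠ n) ∧ v' = -1) ∨
          ((y' ≤ a ∨ (y' = n ∧ a + 2 = n)) ∧ v' = 0)) := by
      intro a ha
      exact ⟨ψ n x ⟨a, ha⟩, ψ n y ⟨a, ha⟩, ψ n x' ⟨a, ha⟩, ψ n y' ⟨a, ha⟩, h ⟨a, ha⟩,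
        ψ_low n x hx ⟨a, ha⟩, ψ_low n x' hx' ⟨a, ha⟩, ψ_spec n y ⟨a, ha⟩, ψ_spec n y' ⟨a, ha⟩⟩
    have k1 : x' ≤ x := by
      by_contra hcon
      obtain ⟨u, v, u', v', e1, e2, e3, e4, e5⟩ := key x (by omega)
      omega
    have k2 : x < y' := by
      by_contra hcon
      by_cases hyy : y = n ∧ x + 2 = n
      · obtain ⟨u, v, u', v', e1, e2, e3, e4, e5⟩ := key (n - 1) (by omega)
        omega
      · obtain ⟨u, v, u', v', e1, e2, e3, e4, e5⟩ := key x (by omega)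
        omega
    refine ⟨k1, ?_, ?_⟩
    · show y ≤ y'
      by_contra hcon
      by_cases hy1 : y' + 2 ≤ n
      · by_cases hyy : y = n ∧ y' + 2 = n
        · obtain ⟨u, v, u', v', e1, e2, e3, e4, e5⟩ := key (n - 1) (by omega)
          omega
        · obtain ⟨u, v, u', v', e1, e2, e3, e4, e5⟩ := key y' (by omega)
          omega
      by_cases hy2 : y' + 1 = n
      · obtain ⟨u, v, u', v', e1, e2, e3, e4, e5⟩ := key (n - 1) (by omega)
        omega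
      by_cases hy3 : y' = n
      · obtain ⟨u, v, u', v', e1, e2, e3, e4, e5⟩ := key (n - 2) (by omega)
        omega
      obtain ⟨u, v, u', v', e1, e2, e3, e4, e5⟩ := key (2 * n - 1 - y) (by omega)
      omega
    · simp only
      rintro ⟨g1, g2⟩
      obtain ⟨u, v, u', v', e1, e2, e3, e4, e5⟩ := key (n - 2) (by omega)
      omega
  · intro h k
    have := k.2
    have b1 := ψ_low n x hx k
    have b2 := ψ_spec n y k
    have b3 := ψ_low n x' hx' k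
    have b4 := ψ_spec n y' k
    simp only [Pi.sub_apply] at h ⊢
    have c1 : ψ n x k ≤ ψ n x' k := by clear b2 b4; omega
    have c2 : ψ n y' k ≤ ψ n y k := by clear b1 b3 c1; omega
    clear b1 b2 b3 b4
    omega

end TD

open TD in
/-- position model of type `D` -/
def modelD (n : ℕ) (hn : 3 ≤ n) : PosModel (CartanMatrix.D n) where
  N := 2 * n
  m := n
  e := 1
  st := True
  mir := True
  ok x y := x ≠ y ∧ x + y + 1 ≠ 2 * n
  ψ := ψ n
  σ := σ n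
  p := p n
  hM j := by simp [CartanMatrix.D]
  hpair := hpair n hn
  hσψ j x hx := hσψ n hn j x hx
  hσN j x hx := by
    have h1 := σ_spec n j x
    omega
  hσσ j x hx := by
    have h1 := σ_spec n j x
    have h2 := σ_spec n j (σ n j x)
    omega
  hσok j x y hx hy h := by
    have h1 := σ_spec n j x
    have h2 := σ_spec n j y
    omega
  hsimple j := by
    have := j.2
    by_cases hj : (j : ℕ) + 1 = n
    · refine ⟨n - 2, n, by omega, by omega, by omega, ?_⟩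
      rw [laststep n hn]
      congr 1
      ext; simp only; omega
    · refine ⟨j, j + 1, by omega, by omega, by omega, ?_⟩
      ext k
      have := k.2
      have h1 := ψ_spec n j k
      have h2 := ψ_spec n (j + 1) k
      have h3 := single_spec j k
      simp only [Pi.sub_apply]
      omega
  hred := hred n hn
  hoksym x y h := ⟨h.1.symm, by omega⟩
  hokne x y h := h.1
  hpos x y h1 h2 h3 := by
    intro k
    have := k.2
    have h4 := ψ_spec n x k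
    have h5 := ψ_spec n y k
    simp only [Pi.sub_apply, Pi.zero_apply]
    omega
  hneg := hneg n hn
  hstep x hx hxn := by
    obtain ⟨k, hk, -⟩ := step n hn x hx hxn
    exact ⟨k, hk⟩
  hmψ _ x hx := by
    ext k
    have := k.2
    have h1 := ψ_spec n x k
    have h2 := ψ_spec n (2 * n - 1 - x) k
    have h3 := ψ_spec n 0 k
    have h4 := ψ_spec n (2 * n - 1) k
    simp only [Pi.add_apply]
    omega
  hmσ _ j x hx := by
    have h1 := σ_spec n j x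
    have h2 := σ_spec n j (2 * n - 1 - x)
    omega
  hgood x y h1 h2 h3 := by
    have := h3 trivial
    omega
  hokmir _ x y h1 h2 h3 := by omega
  hle x y x' y' h1 h2 h3 h4 h5 h6 := hle n hn x y x' y' h1 h2 (h3 trivial) h4 h5 (h6 trivial)
  hm _ := ⟨rfl, trivial⟩
  hstm _ := trivial
  hem _ := by omega

end Pool.Agent.Helper57.TM1
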