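import Pool.Agent.Helper57.TM1.Exc

namespace Pool.Agent.Helper57.TM1

namespace DE6

/-- codes of the positive roots -/
def R : List ℕ := [1192481, 1192465, 1188369, 1188113, 1188112, 1122833, 1122577, 1122576, 1118481, 1118480, 1118465, 1118464, 1118224, 1118208, 1114112, 1048576, 74257, 74001, 74000, 69905, 69904, 69889, 69888, 69648, 69632, 65536, 4369, 4368, 4353, 4352, 4112, 4096, 257, 256, 16, 1]

def MN : ℕ → ℕ → ℤ := lk [[2, 0, -1, 0, 0, 0], [0, 2, 0, -1, 0, 0], [-1, 0, 2, -1, 0, 0], [0, -1, -1, 2, -1, 0], [0, 0, 0, -1, 2, -1], [0, 0, 0, 0, -1, 2]]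

def H : ℕ := 8947848

theorem z_ : ((allZ 6).map (fun t => [] ++ t)).all (chkZ 6 H MN R) = true := by
  decide +kernel

theorem hZ (Z : List Bool) (hZ : Z.length = 6) : chkZ 6 H MN R Z = true := by
  have h := List.all_eq_true.1 z_ Z (List.mem_map.2 ⟨Z, hZ ▸ mem_allZ Z, rfl⟩)
  exact h

/-- the kernel-checked data -/
def data : ExcData 6 CartanMatrix.E₆ where
  MN := MN
  R := R
  H := H
  hMN := by intro i j; fin_cases i <;> fin_cases j <;> rfl
  hM := by decide +kernel
  hsorted := by decide +kernel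
  henc := by decide +kernel
  hpos := by decide +kernel
  hsimple := by decide +kernel
  hclo := by decide +kernel
  hreach := by decide +kernel
  hleb := by decide +kernel
  hZ := hZ

end DE6

end Pool.Agent.Helper57.TM1
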