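import Pool.Agent.Helper57.TM1.Exc

namespace Pool.Agent.Helper57.TM1

namespace DE7

/-- codes of the positive roots -/
def R : List ℕ := [19088162, 19088161, 19087905, 19083809, 19083793, 19018273, 19018257, 19014161, 19013905, 19013904, 17969697, 17969681, 17965585, 17965329, 17965328, 17900049, 17899793, 17899792, 17895697, 17895696, 17895681, 17895680, 17895440, 17895424, 17891328, 17825792, 16777216, 1192481, 1192465, 1188369, 1188113, 1188112, 1122833, 1122577, 1122576, 1118481, 1118480, 1118465, 1118464, 1118224, 1118208, 1114112, 1048576, 74257, 74001, 74000, 69905, 69904, 69889, 69888, 69648, 69632, 65536, 4369, 4368, 4353, 4352, 4112, 4096, 257, 256, 16, 1]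

def MN : ℕ → ℕ → ℤ := lk [[2, 0, -1, 0, 0, 0, 0], [0, 2, 0, -1, 0, 0, 0], [-1, 0, 2, -1, 0, 0, 0], [0, -1, -1, 2, -1, 0, 0], [0, 0, 0, -1, 2, -1, 0], [0, 0, 0, 0, -1, 2, -1], [0, 0, 0, 0, 0, -1, 2]]

def H : ℕ := 143165576

theorem z_00 : ((allZ 5).map (fun t => [false, false] ++ t)).all (chkZ 7 H MN R) = true := by
  decide +kernel

theorem z_01 : ((allZ 5).map (fun t => [false, true] ++ t)).all (chkZ 7 H MN R) = true := by
  decide +kernel

theorem z_10 : ((allZ 5).map (fun t => [true, false] ++ t)).all (chkZ 7 H MN R) = true := by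
  decide +kernel

theorem z_11 : ((allZ 5).map (fun t => [true, true] ++ t)).all (chkZ 7 H MN R) = true := by
  decide +kernel

theorem hZ (Z : List Bool) (hZ : Z.length = 7) : chkZ 7 H MN R Z = true := by
  match Z, hZ with
  | a :: b :: t, hZ =>
    have ht : t ∈ allZ 5 := by
      have h1 : t.length = 5 := by simp only [List.length_cons] at hZ; omega
      have h2 := mem_allZ t
      rw [h1] at h2; exact h2
    cases a
    · cases b
      · exact List.all_eq_true.1 z_00 _ (List.mem_map.2 ⟨t, ht, rfl⟩)
      · exact List.all_eq_true.1 z_01 _ (List.mem_map.2 ⟨t, ht, rfl⟩)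
    · cases b
      · exact List.all_eq_true.1 z_10 _ (List.mem_map.2 ⟨t, ht, rfl⟩)
      · exact List.all_eq_true.1 z_11 _ (List.mem_map.2 ⟨t, ht, rfl⟩)

/-- the kernel-checked data -/
def data : ExcData 7 CartanMatrix.E₇ where
  MN := MN
  R := R
  H := H
  hMN := by intro i j; fin_cases i <;> fin_cases j <;> rfl
  hM := by decide +kernel
  hsorted := by decide +kernel
  henc := by decide +kernel
  hpos := by decide +kernel
  hsimple := by decide +kernel
  hclo := by decide +kernel
  hreach := by decide +kernel
  hleb := by decide +kernel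
  hZ := hZ

end DE7

end Pool.Agent.Helper57.TM1
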