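import Pool.Agent.Helper57.TM1.Exc

namespace Pool.Agent.Helper57.TM1

namespace DF4

/-- codes of the positive roots -/
def R : List ℕ := [9266, 9265, 9249, 8993, 8737, 8721, 8720, 4897, 4641, 4625, 4624, 4369, 4368, 4352, 4096, 545, 529, 528, 273, 272, 256, 17, 16, 1]

def MN : ℕ → ℕ → ℤ := lk [[2, -1, 0, 0], [-1, 2, -2, 0], [0, -1, 2, -1], [0, 0, -1, 2]]

def H : ℕ := 34952

theorem z_ : ((allZ 4).map (fun t => [] ++ t)).all (chkZ 4 H MN R) = true := by
  decide +kernel

theorem hZ (Z : List Bool) (hZ : Z.length = 4) : chkZ 4 H MN R Z = true := by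
  have h := List.all_eq_true.1 z_ Z (List.mem_map.2 ⟨Z, hZ ▸ mem_allZ Z, rfl⟩)
  exact h

/-- the kernel-checked data -/
def data : ExcData 4 CartanMatrix.F₄ where
  MN := MN
  R := R
  H := H
  hMN := by intro i j; fin_cases i <;> fin_cases j <;> rfl
  hM := by decide +kernel
  hsorted := by decide +kernel
  henc := by decide +kernel
  hpos := by decide +kernel
  hsimple := by decide +kernel
  hclo := by decide +kernel
  hreach := by decide +kernel
  hleb := by decide +kernel
  hZ := hZ

end DF4

end Pool.Agent.Helper57.TM1
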