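import Pool.Agent.Helper57.TM1.Exc

namespace Pool.Agent.Helper57.TM1

namespace DG2

/-- codes of the positive roots -/
def R : List ℕ := [50, 49, 33, 17, 16, 1]

def MN : ℕ → ℕ → ℤ := lk [[2, -3], [-1, 2]]

def H : ℕ := 136

theorem z_ : ((allZ 2).map (fun t => [] ++ t)).all (chkZ 2 H MN R) = true := by
  decide +kernel

theorem hZ (Z : List Bool) (hZ : Z.length = 2) : chkZ 2 H MN R Z = true := by
  have h := List.all_eq_true.1 z_ Z (List.mem_map.2 ⟨Z, hZ ▸ mem_allZ Z, rfl⟩)
  exact h

/-- the kernel-checked data -/
def data : ExcData 2 CartanMatrix.G₂ where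
  MN := MN
  R := R
  H := H
  hMN := by intro i j; fin_cases i <;> fin_cases j <;> rfl
  hM := by decide +kernel
  hsorted := by decide +kernel
  henc := by decide +kernel
  hpos := by decide +kernel
  hsimple := by decide +kernel
  hclo := by decide +kernel
  hreach := by decide +kernel
  hleb := by decide +kernel
  hZ := hZ

end DG2

end Pool.Agent.Helper57.TM1
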